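import Pool.Agent.X62.AD.Rel
import Pool.Agent.Y964.LW.C9

/-! Relative laws with conditions on additive functions: total stopping times, entrance times,
invariant sets. -/

set_option autoImplicit false

namespace Pool.Agent.X62.AD

open Finset Filter Topology
open Pool.Agent.H499R2.CO (Tz)
open Pool.Agent.H499R2.ND (Dn Tn Td Phi Phi_continuous phi_cdf Bas CC BasC CN_run Inv HD)
open Pool.Agent.H499R2.LT (odn od od_nat Td_nat law_one law_oneC ocn oC_nat Dn_sum Dn_iff od_add)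
open Pool.Agent.H499R2.HL (H H_two H_of_two H_unique odn_two bk bo nu rr nu_pos rr_pos sqrt_rr law_k law_o)
open Pool.Agent.W26.HN (E E_unique exists_E E_two E_of_two od_two side_two)
open Pool.Agent.Y964.LW hiding main_f RL RL_squeeze RL_congr RL_or RL_diff RL_true RL_not RL_set RL_lim rel_laws lln rel_entr RL_inv lln2 rel_entr_k RL_inv'
open scoped Classical

theorem rel_laws : ∃ δ : ℝ, 0 < δ ∧ δ ≤ 1 ∧ (δ = 1 ↔ ∀ n : ℕ, 1 ≤ n → ∃ k : ℕ, Tn^[k] n = 1) ∧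
    Dn (fun n => ∃ k : ℕ, Tn^[k] n = 1) δ ∧ RA (fun n => ∃ k, H k n) δ ∧
    ∀ (m : ℕ) (a b : ℤ), 1 ≤ m →
      RA (fun n => ∃ k, H k n ∧ ((k : ℤ) ≡ a [ZMOD m] ∧ (odn k n : ℤ) ≡ b [ZMOD m])) (δ / m ^ 2) ∧
      RA (fun n => ∃ k, H k n ∧ (odn k n : ℤ) ≡ b [ZMOD m]) (δ / m) ∧
      ∀ x : ℝ,
        RA (fun n => ∃ k, H k n ∧ ((k : ℝ) ≤ bk x (Real.log n) ∧ (k : ℤ) ≡ a [ZMOD m] ∧
          (odn k n : ℤ) ≡ b [ZMOD m])) (δ / m ^ 2 * Phi x) ∧
        RA (fun n => ∃ k, H k n ∧ (((k + odn k n : ℕ) : ℝ) ≤ bc x (Real.log n) ∧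
          ((k + odn k n : ℕ) : ℤ) ≡ a [ZMOD m] ∧ (odn k n : ℤ) ≡ b [ZMOD m])) (δ / m ^ 2 * Phi x) ∧
        RA (fun n => ∃ k, H k n ∧ ((odn k n : ℝ) ≤ bo x (Real.log n) ∧ (odn k n : ℤ) ≡ b [ZMOD m]))
          (δ / m * Phi x) := by
  obtain ⟨δ, h0, h1, h2, h3, h4⟩ := law_one
  obtain ⟨δ1, _, _, _, h31, h41⟩ := law_k
  obtain ⟨δ2, _, _, _, h32, h42⟩ := law_oneC
  have e1 : δ1 = δ := tendsto_nhds_unique h31 h3
  have e2 : δ2 = δ := by
    refine tendsto_nhds_unique (Dn_iff (fun n _ => ?_) h32) h3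
    exact (BasC n).symm
  rw [e1] at h41
  rw [e2] at h42
  have hnu := nu_pos
  have hrr := rr_pos
  have hl2 : 0 < Real.log 2 := Real.log_pos (by norm_num)
  have hl3 : 0 < Real.log 3 := Real.log_pos (by norm_num)
  have hl6 : 0 < Real.log 6 := Real.log_pos (by norm_num)
  have s1 : (1 : ℤ) = 1 ∨ (1 : ℤ) = -1 := Or.inl rfl
  have hB : Dn (fun n => ∃ k, H k n) δ := Dn_iff (fun n _ => hit_iff n) h3
  have c0 : Continuous (fun _ : ℝ => δ) := continuous_const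
  refine ⟨δ, h0, h1, h2, h3, ?_, fun m a b hm => ⟨?_, ?_, fun x => ⟨?_, ?_, ?_⟩⟩⟩
  · have A := mkFam (ι := Unit) (fun _ _ _ _ => True) id 0 1 1 (fun _ _ => δ) le_rfl one_pos
      (fun _ _ _ _ _ _ h => h) (fun _ _ _ _ => Iff.rfl) (fun _ _ => rfl) (fun _ _ => ⟨h0.le, h1⟩) (fun _ => c0)
      (fun _ _ => by simpa using hB)
    have h5 := (mkFam (ι := Unit) (fun _ _ _ _ => True) id 0 1 1 (fun _ _ => δ) le_rfl one_pos
      (fun _ _ _ _ _ _ h => h) (fun _ _ _ _ => Iff.rfl) (fun _ _ => rfl) (fun _ _ => ⟨h0.le, h1⟩) (fun _ => c0)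
      (fun _ _ => by simpa using hB)).RA s1 () 0
    refine RA_congr 0 (fun n _ => ?_) h5
    show (∃ k, H k n ∧ True) ↔ _
    simp
  · have h5 := (mkFam (ι := ℤ × ℤ) (fun i _ k o => (k : ℤ) ≡ i.1 [ZMOD m] ∧ (o : ℤ) ≡ i.2 [ZMOD m])
      (fun i => (i.1 - 1, i.2)) 0 1 1 (fun _ _ => δ / (m : ℝ) ^ 2) le_rfl one_pos
      (fun _ _ _ _ _ _ h => h) (fun i _ k o => by rw [mod_succ]) (fun _ _ => rfl) (fun _ _ => div_sq_le h0 h1 hm)
      (fun _ => continuous_const)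
      (fun i _ => (h4 m i.1 i.2 hm).1)).RA s1 (a, b) 0
    exact h5
  · have h5 := (mkFam (ι := ℤ) (fun i _ _ o => (o : ℤ) ≡ i [ZMOD m])
      id 0 1 1 (fun _ _ => δ / (m : ℝ)) le_rfl one_pos
      (fun _ _ _ _ _ _ h => h) (fun i _ k o => Iff.rfl) (fun _ _ => rfl) (fun _ _ => div_le' h0 h1 hm)
      (fun _ => continuous_const)
      (fun i _ => (h41 m i hm).1)).RA s1 b 0
    exact h5
  · have h5 := (mkFam (ι := ℤ × ℤ) (fun i τ k o => (k : ℝ) ≤ τ ∧ (k : ℤ) ≡ i.1 [ZMOD m] ∧ (o : ℤ) ≡ i.2 [ZMOD m])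
      (fun i => (i.1 - 1, i.2)) 1 (2 / Real.log (4 / 3)) (Real.log 3 * rr) (fun _ x => δ / (m : ℝ) ^ 2 * Phi x)
      zero_le_one (by positivity)
      (fun _ _ _ _ _ h1 h => ⟨h.1.trans h1, h.2⟩) (fun i τ k o => by
        rw [mod_succ, le_sub_iff_add_le]; push_cast; rfl) (fun _ _ => rfl)
      (fun _ x => mul01 (div_sq_le h0 h1 hm) (phi01 x))
      (fun _ => Phi_continuous.const_mul _)
      (fun i x => by
        have h6 := (h4 m i.1 i.2 hm).2 x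
        have e : δ * ProbabilityTheory.cdf (ProbabilityTheory.gaussianReal 0 1) x / (m : ℝ) ^ 2
            = δ / m ^ 2 * Phi x := by rw [phi_cdf]; ring
        rw [e] at h6
        refine Dn_iff (fun n _ => exists_congr fun k => ?_) h6
        rw [← bk_thr]
        unfold bk H
        tauto)).RA s1 (a, b) x
    refine RA_congr 0 (fun n _ => ?_) h5
    rw [bk_thr]
    exact Iff.rfl
  · have h5 := (mkFam (ι := ℤ × ℤ) (fun i τ k o => ((k + o : ℕ) : ℝ) ≤ τ ∧ ((k + o : ℕ) : ℤ) ≡ i.1 [ZMOD m] ∧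
        (o : ℤ) ≡ i.2 [ZMOD m])
      (fun i => (i.1 - 1, i.2)) 1 (3 / Real.log (4 / 3)) (Real.log 6 * rr) (fun _ x => δ / (m : ℝ) ^ 2 * Phi x)
      zero_le_one (by positivity)
      (fun _ _ _ _ _ h1 h => ⟨h.1.trans h1, h.2⟩) (fun i τ k o => by
        rw [show k + 1 + o = (k + o) + 1 by ring, mod_succ, le_sub_iff_add_le]; push_cast; rfl) (fun _ _ => rfl)
      (fun _ x => mul01 (div_sq_le h0 h1 hm) (phi01 x))
      (fun _ => Phi_continuous.const_mul _)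
      (fun i x => by
        have h6 := h42 m i.1 i.2 hm x
        have e : δ * ProbabilityTheory.cdf (ProbabilityTheory.gaussianReal 0 1) x / (m : ℝ) ^ 2
            = δ / m ^ 2 * Phi x := by rw [phi_cdf]; ring
        rw [e] at h6
        refine Dn_iff (fun n hn => ?_) h6
        rw [← bc_thr]
        constructor
        · rintro ⟨l, g1, g2, g3, g4⟩
          obtain ⟨k, hk, rfl⟩ := (hitC hn).1 g2
          rw [ocn_run] at g4
          exact ⟨k, hk, g1, g3, g4⟩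
        · rintro ⟨k, hk, g1, g3, g4⟩
          exact ⟨k + odn k n, g1, (hitC hn).2 ⟨k, hk, rfl⟩, g3, by rw [ocn_run]; exact g4⟩)).RA s1 (a, b) x
    refine RA_congr 0 (fun n _ => ?_) h5
    rw [bc_thr]
    exact Iff.rfl
  · have h5 := (mkFam (ι := ℤ) (fun i τ _ o => (o : ℝ) ≤ τ ∧ (o : ℤ) ≡ i [ZMOD m])
      id 0 (1 / Real.log (4 / 3)) (Real.log 2 * rr) (fun _ x => δ / (m : ℝ) * Phi x)
      le_rfl (by positivity)
      (fun _ _ _ _ _ h1 h => ⟨h.1.trans h1, h.2⟩) (fun i τ k o => by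
        rw [sub_zero]; rfl) (fun _ _ => rfl)
      (fun _ x => mul01 (div_le' h0 h1 hm) (phi01 x))
      (fun _ => Phi_continuous.const_mul _)
      (fun i x => by
        refine Dn_iff (fun n _ => exists_congr fun k => ?_) (law_o (h41 m i hm).2 x)
        rw [← bo_thr]
        tauto)).RA s1 b x
    refine RA_congr 0 (fun n _ => ?_) h5
    rw [bo_thr]
    exact Iff.rfl

/-- THE LAW OF LARGE NUMBERS -/
theorem lln {f : ℕ → ℕ → ℝ} {α σ δ η : ℝ} (hσ : 0 < σ) (hδ0 : 0 ≤ δ) (hδ1 : δ ≤ 1) (hη : 0 < η)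
    (h1 : ∀ x, RA (fun n => ∃ k, H k n ∧ f k n ≤ thr α σ x (Real.log n)) (δ * Phi x))
    (h2 : RA (fun n => ∃ k, H k n) δ) :
    RA (fun n => ∃ k, H k n ∧ |f k n - α * Real.log n| ≤ η * Real.log n) δ := by
  have t1 : Tendsto Phi atTop (𝓝 1) := by
    have := ProbabilityTheory.tendsto_cdf_atTop (ProbabilityTheory.gaussianReal 0 1)
    refine this.congr fun x => ?_
    rw [phi_cdf]
  have t2 : Tendsto Phi atBot (𝓝 0) := by
    have := ProbabilityTheory.tendsto_cdf_atBot (ProbabilityTheory.gaussianReal 0 1)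
    refine this.congr fun x => ?_
    rw [phi_cdf]
  refine RA_squeeze fun ζ hζ => ?_
  obtain ⟨x1, hx1⟩ := eventually_atTop.1 (t1.eventually_const_lt (show 1 - ζ / 2 < 1 by linarith))
  obtain ⟨x2, hx2⟩ := eventually_atBot.1 (t2.eventually_lt_const (show (0 : ℝ) < ζ / 2 by linarith))
  set X : ℝ := max (max x1 (-x2)) 1 with hX
  have hX0 : 0 < X := lt_of_lt_of_le one_pos (le_max_right _ _)
  have a1 := hx1 X ((le_max_left _ _).trans (le_max_left _ _))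
  have a2 := hx2 (-X) (by
    have : -x2 ≤ X := (le_max_right _ _).trans (le_max_left _ _)
    linarith)
  have hmono : ∀ n : ℕ, (∃ k, H k n ∧ f k n ≤ thr α σ (-X) (Real.log n)) →
      (∃ k, H k n ∧ f k n ≤ thr α σ X (Real.log n)) := by
    rintro n ⟨k, hk, h3⟩
    refine ⟨k, hk, h3.trans ?_⟩
    unfold thr
    have : 0 ≤ σ * Real.sqrt (Real.log n) := by positivity
    nlinarith
  have hd := RA_diff (h1 (-X)) (h1 X) hmono (R := fun n => (∃ k, H k n ∧ f k n ≤ thr α σ X (Real.log n)) ∧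
    ¬ (∃ k, H k n ∧ f k n ≤ thr α σ (-X) (Real.log n))) (fun _ => Iff.rfl)
  have tl : Tendsto (fun n : ℕ => Real.sqrt (Real.log n)) atTop atTop :=
    Real.tendsto_sqrt_atTop.comp (Real.tendsto_log_atTop.comp tendsto_natCast_atTop_atTop)
  obtain ⟨n0, hn0⟩ := eventually_atTop.1 (tl.eventually_ge_atTop (X * σ / η))
  refine ⟨_, _, _, δ, n0, fun n hn h => ?_, fun n _ h => ?_, hd, h2, ?_, le_rfl, ?_⟩
  · obtain ⟨⟨k, hk, h3⟩, h4⟩ := h
    refine ⟨k, hk, ?_⟩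
    have h5 : ¬ f k n ≤ thr α σ (-X) (Real.log n) := fun h6 => h4 ⟨k, hk, h6⟩
    push Not at h5
    have h6 := hn0 n hn
    rw [div_le_iff₀ hη] at h6
    have h7 : 0 ≤ Real.log n := Real.log_natCast_nonneg n
    have h8 := Real.sq_sqrt h7
    have h9 := Real.sqrt_nonneg (Real.log n)
    have h10 : X * (σ * Real.sqrt (Real.log n)) ≤ η * Real.log n := by
      have h11 := mul_le_mul_of_nonneg_right h6 h9
      nlinarith
    unfold thr at h3 h5
    rw [abs_le]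
    constructor <;> linarith
  · obtain ⟨k, hk, _⟩ := h
    exact ⟨k, hk⟩
  · have b1 := (phi01 X).2
    have b2 := (phi01 (-X)).1
    nlinarith
  · have b1 := (phi01 X).2
    have b2 := (phi01 (-X)).1
    nlinarith

/-- relative laws of the entrance times -/
theorem rel_entr {s : ℤ} (hs : s = 1 ∨ s = -1) {F : Finset ℤ} (hF : ∀ y ∈ F, y % 2 = 1) {B : ℕ} (hB : Bd F B) :
    ∃ δ : ℝ, 0 ≤ δ ∧ δ ≤ 1 ∧ ((∃ a ∈ F, 0 < s * a ∧ ¬ (3 : ℤ) ∣ a) → 0 < δ) ∧
    Dn (fun n : ℕ => ∃ k : ℕ, E F k (s * n)) δ ∧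
    RA (fun n : ℕ => ∃ k : ℕ, E F k (s * n)) δ ∧
    ∀ (m : ℕ) (b : ℤ), 1 ≤ m →
      RA (fun n : ℕ => ∃ k : ℕ, E F k (s * n) ∧ od 1 k (s * n) ≡ b [ZMOD m]) (δ / m) ∧
      ∀ x : ℝ, RA (fun n : ℕ => ∃ k : ℕ, E F k (s * n) ∧ ((od 1 k (s * n) : ℝ) ≤ bo x (Real.log n) ∧
        od 1 k (s * n) ≡ b [ZMOD m])) (δ / m * Phi x) := by
  obtain ⟨δ, h0, h1, h2, h3⟩ := Pool.Agent.W26.HN.law_k hs F
  have hE : Dn (fun n : ℕ => ∃ k : ℕ, E F k (s * n)) δ := by
    refine Dn_iff (fun n _ => ?_) h2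
    constructor
    · rintro ⟨k, hk⟩
      obtain ⟨j, _, hj⟩ := exists_E hk
      exact ⟨j, hj⟩
    · rintro ⟨k, hk⟩; exact ⟨k, hk.1⟩
  have hδ1 : δ ≤ 1 := by
    refine le_of_tendsto' hE fun N => ?_
    rcases Nat.eq_zero_or_pos N with h | h
    · subst h; simp
    · rw [div_le_one (by exact_mod_cast h)]
      exact Pool.Agent.H499R2.ND.cnt_le _ N
  have hdiv : ∀ m : ℕ, 1 ≤ m → 0 ≤ δ / (m : ℝ) ∧ δ / (m : ℝ) ≤ 1 := by
    intro m hm
    have hm1 : (1 : ℝ) ≤ m := by exact_mod_cast hm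
    refine ⟨by positivity, ?_⟩
    rw [div_le_one (by positivity)]
    linarith
  have hrr := rr_pos
  have hl2 : 0 < Real.log 2 := Real.log_pos (by norm_num)
  refine ⟨δ, h0, hδ1, h1, hE, ?_, fun m b hm => ⟨?_, fun x => ?_⟩⟩
  · have h5 := (mkFamE hs hF hB (ι := Unit) (fun _ _ _ _ => True) id 0 1 1 (fun _ _ => δ) le_rfl one_pos
      (fun _ _ _ _ _ _ h => h) (fun _ _ _ _ => Iff.rfl) (fun _ _ => rfl) (fun _ _ => ⟨h0, hδ1⟩)
      (fun _ => continuous_const) (fun _ _ => by simpa using hE)).RA hs () 0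
    refine RA_congr 0 (fun n _ => ?_) h5
    show (∃ k, E F k (s * n) ∧ True) ↔ _
    simp
  · have h5 := (mkFamE hs hF hB (ι := ℤ) (fun i _ _ o => o ≡ i [ZMOD m])
      id 0 1 1 (fun _ _ => δ / (m : ℝ)) le_rfl one_pos
      (fun _ _ _ _ _ _ h => h) (fun i _ k o => Iff.rfl) (fun _ _ => rfl) (fun _ _ => hdiv m hm)
      (fun _ => continuous_const)
      (fun i _ => (h3 m i hm).1)).RA hs b 0
    exact h5
  · have h5 := (mkFamE hs hF hB (ι := ℤ) (fun i τ _ o => (o : ℝ) ≤ τ ∧ o ≡ i [ZMOD m])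
      id 0 (1 / Real.log (4 / 3)) (Real.log 2 * rr) (fun _ x => δ / (m : ℝ) * Phi x)
      le_rfl (by positivity)
      (fun _ _ _ _ _ h1 h => ⟨h.1.trans h1, h.2⟩) (fun i τ k o => by
        rw [sub_zero]; rfl) (fun _ _ => rfl)
      (fun _ x => mul01 (hdiv m hm) (phi01 x))
      (fun _ => Phi_continuous.const_mul _)
      (fun i x => by
        refine Dn_iff (fun n _ => exists_congr fun k => ?_) (Pool.Agent.W26.HN.law_o hs F (h3 m i hm).2 x)
        rw [← bo_thr]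
        tauto)).RA hs b x
    refine RA_congr 0 (fun n _ => ?_) h5
    rw [bo_thr]
    exact Iff.rfl

/-- the law of large numbers, general form -/
theorem lln2 {P : ℕ → Prop} {f : ℕ → ℕ → Prop} {g : ℕ → ℕ → ℝ} {α σ δ η : ℝ} (hσ : 0 < σ) (hδ0 : 0 ≤ δ)
    (hδ1 : δ ≤ 1) (hη : 0 < η)
    (h1 : ∀ x, RA (fun n => ∃ k, f k n ∧ g k n ≤ thr α σ x (Real.log n)) (δ * Phi x))
    (h2 : RA P δ) (hP : ∀ n, (∃ k, f k n) → P n) :
    RA (fun n => ∃ k, f k n ∧ |g k n - α * Real.log n| ≤ η * Real.log n) δ := by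
  have t1 : Tendsto Phi atTop (𝓝 1) := by
    have := ProbabilityTheory.tendsto_cdf_atTop (ProbabilityTheory.gaussianReal 0 1)
    refine this.congr fun x => ?_
    rw [phi_cdf]
  have t2 : Tendsto Phi atBot (𝓝 0) := by
    have := ProbabilityTheory.tendsto_cdf_atBot (ProbabilityTheory.gaussianReal 0 1)
    refine this.congr fun x => ?_
    rw [phi_cdf]
  refine RA_squeeze fun ζ hζ => ?_
  obtain ⟨x1, hx1⟩ := eventually_atTop.1 (t1.eventually_const_lt (show 1 - ζ / 2 < 1 by linarith))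
  obtain ⟨x2, hx2⟩ := eventually_atBot.1 (t2.eventually_lt_const (show (0 : ℝ) < ζ / 2 by linarith))
  set X : ℝ := max (max x1 (-x2)) 1 with hX
  have hX0 : 0 < X := lt_of_lt_of_le one_pos (le_max_right _ _)
  have a1 := hx1 X ((le_max_left _ _).trans (le_max_left _ _))
  have a2 := hx2 (-X) (by
    have : -x2 ≤ X := (le_max_right _ _).trans (le_max_left _ _)
    linarith)
  have hmono : ∀ n : ℕ, (∃ k, f k n ∧ g k n ≤ thr α σ (-X) (Real.log n)) →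
      (∃ k, f k n ∧ g k n ≤ thr α σ X (Real.log n)) := by
    rintro n ⟨k, hk, h3⟩
    refine ⟨k, hk, h3.trans ?_⟩
    unfold thr
    have : 0 ≤ σ * Real.sqrt (Real.log n) := by positivity
    nlinarith
  have hd := RA_diff (h1 (-X)) (h1 X) hmono (R := fun n => (∃ k, f k n ∧ g k n ≤ thr α σ X (Real.log n)) ∧
    ¬ (∃ k, f k n ∧ g k n ≤ thr α σ (-X) (Real.log n))) (fun _ => Iff.rfl)
  have tl : Tendsto (fun n : ℕ => Real.sqrt (Real.log n)) atTop atTop :=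
    Real.tendsto_sqrt_atTop.comp (Real.tendsto_log_atTop.comp tendsto_natCast_atTop_atTop)
  obtain ⟨n0, hn0⟩ := eventually_atTop.1 (tl.eventually_ge_atTop (X * σ / η))
  refine ⟨_, _, _, δ, n0, fun n hn h => ?_, fun n _ h => ?_, hd, h2, ?_, le_rfl, ?_⟩
  · obtain ⟨⟨k, hk, h3⟩, h4⟩ := h
    refine ⟨k, hk, ?_⟩
    have h5 : ¬ g k n ≤ thr α σ (-X) (Real.log n) := fun h6 => h4 ⟨k, hk, h6⟩
    push Not at h5
    have h6 := hn0 n hn
    rw [div_le_iff₀ hη] at h6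
    have h7 : 0 ≤ Real.log n := Real.log_natCast_nonneg n
    have h8 := Real.sq_sqrt h7
    have h9 := Real.sqrt_nonneg (Real.log n)
    have h10 : X * (σ * Real.sqrt (Real.log n)) ≤ η * Real.log n := by
      have h11 := mul_le_mul_of_nonneg_right h6 h9
      nlinarith
    unfold thr at h3 h5
    rw [abs_le]
    constructor <;> linarith
  · obtain ⟨k, hk, _⟩ := h
    exact hP n ⟨k, hk⟩
  · have b1 := (phi01 X).2
    have b2 := (phi01 (-X)).1
    nlinarith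
  · have b1 := (phi01 X).2
    have b2 := (phi01 (-X)).1
    nlinarith

/-- joint law of the entrance time and of the number of odd terms -/
theorem rel_entr_k {s : ℤ} (hs : s = 1 ∨ s = -1) {F : Finset ℤ} (hF : ∀ y ∈ F, y % 2 = 1) {B : ℕ} (hB : Bd F B)
    {δ : ℝ} (hE : Dn (fun n : ℕ => ∃ k : ℕ, E F k (s * n)) δ) :
    0 ≤ δ ∧ δ ≤ 1 ∧ RA (fun n : ℕ => ∃ k : ℕ, E F k (s * n)) δ ∧
    ∀ (m : ℕ) (a b : ℤ), 1 ≤ m →
      RA (fun n : ℕ => ∃ k : ℕ, E F k (s * n) ∧ ((k : ℤ) ≡ a [ZMOD m] ∧ od 1 k (s * n) ≡ b [ZMOD m]))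
        (δ / m ^ 2) ∧
      RA (fun n : ℕ => ∃ k : ℕ, E F k (s * n) ∧ (k : ℤ) ≡ a [ZMOD m]) (δ / m) ∧
      ∀ x : ℝ, RA (fun n : ℕ => ∃ k : ℕ, E F k (s * n) ∧ ((k : ℝ) ≤ bk x (Real.log n) ∧ (k : ℤ) ≡ a [ZMOD m] ∧
          od 1 k (s * n) ≡ b [ZMOD m])) (δ / m ^ 2 * Phi x) ∧
        RA (fun n : ℕ => ∃ k : ℕ, E F k (s * n) ∧ ((k : ℝ) ≤ bk x (Real.log n) ∧ (k : ℤ) ≡ a [ZMOD m]))
          (δ / m * Phi x) := by
  obtain ⟨δ', h0', _, h2', h3⟩ := Pool.Agent.H499R2.LT.joint_side (d := 1) odd_one (by omega) hs F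
  have hE' : Dn (fun n : ℕ => ∃ k : ℕ, (Td 1)^[k] (s * n) ∈ F) δ := by
    refine Dn_iff (fun n _ => ?_) hE
    constructor
    · rintro ⟨k, hk⟩; exact ⟨k, hk.1⟩
    · rintro ⟨k, hk⟩
      obtain ⟨j, _, hj⟩ := exists_E hk
      exact ⟨j, hj⟩
  have e : δ' = δ := tendsto_nhds_unique h2' hE'
  rw [e] at h0' h3
  have h4 := fun m a b hm => Pool.Agent.H499R2.LT.equi_side (d := 1) odd_one (by omega) hs F hE' m a b hm
  have hδ1 : δ ≤ 1 := by
    refine le_of_tendsto' hE fun N => ?_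
    rcases Nat.eq_zero_or_pos N with h | h
    · subst h; simp
    · rw [div_le_one (by exact_mod_cast h)]
      exact Pool.Agent.H499R2.ND.cnt_le _ N
  have hdiv : ∀ m : ℕ, 1 ≤ m → 0 ≤ δ / (m : ℝ) ∧ δ / (m : ℝ) ≤ 1 := by
    intro m hm
    have hm1 : (1 : ℝ) ≤ m := by exact_mod_cast hm
    refine ⟨by positivity, ?_⟩
    rw [div_le_one (by positivity)]
    linarith
  have hdiv2 : ∀ m : ℕ, 1 ≤ m → 0 ≤ δ / (m : ℝ) ^ 2 ∧ δ / (m : ℝ) ^ 2 ≤ 1 := by
    intro m hm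
    have hm1 : (1 : ℝ) ≤ m := by exact_mod_cast hm
    have hm2 : (1 : ℝ) ≤ (m : ℝ) ^ 2 := one_le_pow₀ hm1
    refine ⟨by positivity, ?_⟩
    rw [div_le_one (by positivity)]
    linarith
  have hrr := rr_pos
  have hl3 : 0 < Real.log 3 := Real.log_pos (by norm_num)
  have hbk : ∀ (x : ℝ) (n : ℕ), 1 ≤ n → Real.log n / Pool.Agent.H319R2.Lln.mu
      + x * Pool.Agent.H499R2.ND.sg * Real.sqrt (Real.log n) = bk x (Real.log n) := by
    intro x n hn
    rw [Pool.Agent.H499R2.LT.tb2 x n hn]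
    rfl
  -- the joint law
  have hjoint : ∀ (m : ℕ) (a b : ℤ), 1 ≤ m → ∀ x : ℝ,
      RA (fun n : ℕ => ∃ k : ℕ, E F k (s * n) ∧ ((k : ℝ) ≤ bk x (Real.log n) ∧ (k : ℤ) ≡ a [ZMOD m] ∧
          od 1 k (s * n) ≡ b [ZMOD m])) (δ / m ^ 2 * Phi x) := by
    intro m a b hm x
    have h5 := (mkFamE hs hF hB (ι := ℤ × ℤ) (fun i τ k o => (k : ℝ) ≤ τ ∧ (k : ℤ) ≡ i.1 [ZMOD m] ∧
        o ≡ i.2 [ZMOD m])
      (fun i => (i.1 - 1, i.2)) 1 (2 / Real.log (4 / 3)) (Real.log 3 * rr) (fun _ x => δ / (m : ℝ) ^ 2 * Phi x)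
      zero_le_one (by positivity)
      (fun _ _ _ _ _ h1 h => ⟨h.1.trans h1, h.2⟩) (fun i τ k o => by
        rw [mod_succ, le_sub_iff_add_le]; push_cast; rfl) (fun _ _ => rfl)
      (fun _ x => mul01 (hdiv2 m hm) (phi01 x))
      (fun _ => Phi_continuous.const_mul _)
      (fun i x => by
        refine Dn_iff (fun n hn => exists_congr fun k => ?_) (h3 x m i.1 i.2 hm)
        rw [hbk x n hn, ← bk_thr]
        unfold E
        tauto)).RA hs (a, b) x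
    refine RA_congr 0 (fun n _ => ?_) h5
    rw [bk_thr]
    exact Iff.rfl
  have hequi : ∀ (m : ℕ) (a b : ℤ), 1 ≤ m →
      RA (fun n : ℕ => ∃ k : ℕ, E F k (s * n) ∧ ((k : ℤ) ≡ a [ZMOD m] ∧ od 1 k (s * n) ≡ b [ZMOD m]))
        (δ / m ^ 2) := by
    intro m a b hm
    have h5 := (mkFamE hs hF hB (ι := ℤ × ℤ) (fun i _ k o => (k : ℤ) ≡ i.1 [ZMOD m] ∧ o ≡ i.2 [ZMOD m])
      (fun i => (i.1 - 1, i.2)) 0 1 1 (fun _ _ => δ / (m : ℝ) ^ 2) le_rfl one_pos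
      (fun _ _ _ _ _ _ h => h) (fun i _ k o => by rw [mod_succ]) (fun _ _ => rfl) (fun _ _ => hdiv2 m hm)
      (fun _ => continuous_const)
      (fun i _ => by
        refine Dn_iff (fun n _ => exists_congr fun k => ?_) (h4 m i.1 i.2 hm)
        unfold E
        tauto)).RA hs (a, b) 0
    exact h5
  -- the law of the time alone, from finite sums
  have hsum : ∀ (m : ℕ) (a : ℤ), 1 ≤ m → ∀ (R : ℕ → ℕ → Prop) (l : ℝ),
      (∀ b : ℤ, RA (fun n : ℕ => ∃ k : ℕ, E F k (s * n) ∧ (R k n ∧ (k : ℤ) ≡ a [ZMOD m] ∧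
        od 1 k (s * n) ≡ b [ZMOD m])) (l / m ^ 2)) →
      RA (fun n : ℕ => ∃ k : ℕ, E F k (s * n) ∧ (R k n ∧ (k : ℤ) ≡ a [ZMOD m])) (l / m) := by
    intro m a hm R l h
    have h6 : ∀ M : ℕ, M ≤ m → RA (fun n : ℕ => ∃ k : ℕ, E F k (s * n) ∧ (R k n ∧ (k : ℤ) ≡ a [ZMOD m] ∧
        ∃ b : ℕ, b < M ∧ od 1 k (s * n) ≡ (b : ℤ) [ZMOD m])) (M * (l / m ^ 2)) := by
      intro M
      induction M with
      | zero =>
        intro _
        have h7 := RA_diff (h 0) (h 0) (fun n hn => hn) (fun n => Iff.rfl)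
        rw [sub_self] at h7
        rw [Nat.cast_zero, zero_mul]
        refine RA_congr 0 (fun n _ => ?_) h7
        constructor
        · rintro ⟨h8, h9⟩; exact absurd h8 h9
        · rintro ⟨k, _, _, _, b, hb, _⟩; omega
      | succ M ih =>
        intro hM
        have h7 := RA_or (ih (by omega)) (h M) (fun n => ?_) (R := fun n : ℕ => ∃ k : ℕ, E F k (s * n) ∧
          (R k n ∧ (k : ℤ) ≡ a [ZMOD m] ∧ ∃ b : ℕ, b < M + 1 ∧ od 1 k (s * n) ≡ (b : ℤ) [ZMOD m]))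
          (fun n => ?_)
        · have e : ((M + 1 : ℕ) : ℝ) * (l / m ^ 2) = M * (l / m ^ 2) + l / m ^ 2 := by push_cast; ring
          rw [e]
          exact h7
        · rintro ⟨k, hk, _, _, b, hb, hb'⟩ ⟨k', hk', _, _, hb''⟩
          obtain rfl := E_unique hk hk'
          have h8 : (b : ℤ) ≡ (M : ℤ) [ZMOD m] := hb'.symm.trans hb''
          have h9 : b ≡ M [MOD m] := (Int.natCast_modEq_iff).1 h8
          have := Nat.ModEq.eq_of_lt_of_lt h9 (by omega) (by omega)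
          omega
        · constructor
          · rintro ⟨k, hk, h8, h9, b, hb, hb'⟩
            rcases Nat.lt_succ_iff_lt_or_eq.1 hb with hb1 | rfl
            · exact Or.inl ⟨k, hk, h8, h9, b, hb1, hb'⟩
            · exact Or.inr ⟨k, hk, h8, h9, hb'⟩
          · rintro (⟨k, hk, h8, h9, b, hb, hb'⟩ | ⟨k, hk, h8, h9, hb'⟩)
            · exact ⟨k, hk, h8, h9, b, by omega, hb'⟩
            · exact ⟨k, hk, h8, h9, M, by omega, hb'⟩
    have h7 := h6 m le_rfl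
    have hm0 : (m : ℝ) ≠ 0 := by exact_mod_cast (by omega : m ≠ 0)
    have e : (m : ℝ) * (l / (m : ℝ) ^ 2) = l / m := by field_simp
    rw [e] at h7
    refine RA_congr 0 (fun n _ => exists_congr fun k => and_congr_right fun _ => and_congr_right fun _ =>
      ⟨fun h => h.1, fun h => ⟨h, ?_⟩⟩) h7
    refine ⟨((od 1 k (s * n)) % (m : ℤ)).toNat, ?_, ?_⟩
    · have h8 := Int.emod_nonneg (od 1 k (s * n)) (show (m : ℤ) ≠ 0 by omega)
      have h9 := Int.emod_lt_of_pos (od 1 k (s * n)) (show (0 : ℤ) < m by omega)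
      omega
    · have h8 := Int.emod_nonneg (od 1 k (s * n)) (show (m : ℤ) ≠ 0 by omega)
      rw [Int.toNat_of_nonneg h8]
      exact (Int.mod_modEq _ _).symm
  refine ⟨h0', hδ1, ?_, fun m a b hm => ⟨hequi m a b hm, ?_, fun x => ⟨hjoint m a b hm x, ?_⟩⟩⟩
  · have h5 := hequi 1 0 0 le_rfl
    have e : δ / ((1 : ℕ) : ℝ) ^ 2 = δ := by simp
    rw [e] at h5
    refine RA_congr 0 (fun n _ => exists_congr fun k => ⟨fun h => h.1, fun h => ⟨h, mod_one _ _, mod_one _ _⟩⟩) h5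
  · have h5 := hsum m a hm (fun _ _ => True) δ (fun b => by
      refine RA_congr 0 (fun n _ => exists_congr fun k => ?_) (hequi m a b hm)
      tauto)
    refine RA_congr 0 (fun n _ => exists_congr fun k => ?_) h5
    tauto
  · have h5 := hsum m a hm (fun k n => (k : ℝ) ≤ bk x (Real.log n)) (δ * Phi x) (fun b => by
      have e : δ * Phi x / (m : ℝ) ^ 2 = δ / m ^ 2 * Phi x := by ring
      rw [e]
      exact hjoint m a b hm x)
    have e : δ * Phi x / (m : ℝ) = δ / m * Phi x := by ring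
    rw [e] at h5
    exact h5

theorem inv_it {S : Set ℤ} (hS : Inv 1 S) : ∀ (j : ℕ) (z : ℤ), z ∈ S ↔ (Td 1)^[j] z ∈ S := by
  intro j
  induction j with
  | zero => intro z; rfl
  | succ j ih => intro z; rw [Function.iterate_succ_apply, ← ih]; exact hS z

/-- the family of an invariant set -/
noncomputable def invFam {s : ℤ} (hs : s = 1 ∨ s = -1) {S : Set ℤ} (hS : Inv 1 S) {δ : ℝ}
    (hD : Dn (fun n : ℕ => s * (n : ℤ) ∈ S) δ) : Fam s 0 Unit where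
  E := fun _ _ n => s * (n : ℤ) ∈ S
  sh := id
  w := 0
  α := 0
  σ := 1
  F := fun _ _ => δ
  hw := le_rfl
  hσ := one_pos
  mono := fun _ _ _ _ _ h => h
  same := fun _ _ j x y _ _ h1 _ _ h4 => by
    have h5 := (inv_it hS j _).1 h4
    rw [side_iter hs, h1, ← side_iter hs] at h5
    exact (inv_it hS j _).2 h5
  two := fun _ _ n _ => by
    rw [inv_it hS 1 (s * ((2 * n : ℕ) : ℤ))]
    have e : (Td 1)^[1] (s * ((2 * n : ℕ) : ℤ)) = s * (n : ℤ) := by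
      rw [side_iter hs]
      congr 1
      have : ((2 * n : ℕ) : ℤ) = 2 ^ 1 * (n : ℤ) := by push_cast; ring
      rw [this, Tz_two_pow]
    rw [e]
  Fsh := fun _ _ => rfl
  F01 := fun _ _ => Dn_01 hD
  cont := fun _ => continuous_const
  law := fun _ _ => hD

/-- relative frequency of invariant sets -/
theorem RA_inv' {s : ℤ} (hs : s = 1 ∨ s = -1) {S : Set ℤ} (hS : Inv 1 S) {δ : ℝ}
    (h : HasD s S δ) : RA (fun n : ℕ => s * (n : ℤ) ∈ S) δ :=
  (invFam hs hS (dn_side hs h)).RA hs () 0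

theorem AbR_RA {R : ℕ} {P : ℕ → Prop} (h : AbR R P) {d : ℝ} (hd : Dn P d) : RA P d := by
  have h1 := (h.fam hd).RA (Or.inl rfl) 0 0
  refine RA_congr 0 (fun n _ => ?_) h1
  show P (2 ^ 0 * n) ↔ P n
  rw [pow_zero, one_mul]

end Pool.Agent.X62.AD
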