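import Mathlib
import Pool.Agent.X62.AD.Laws
import Pool.Agent.X62.EK.Law
import Pool.Agent.Y964.LW.C5

/-! The relative law with conditions on additive functions, in residue classes; sets; the joint law with the
number of prime factors. -/

set_option autoImplicit false

namespace Pool.Agent.X62.AD

open Finset Filter Topology
open Pool.Agent.H499R2.ND (Dn cnt cnt_eq)
open Pool.Agent.Y964.SE (HypD PN mem_PN thick_ap)
open Pool.Agent.X62.EK (LL tL ek)
open scoped Classical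

/-- the law with all conditions, in residue classes -/
theorem RA_full {P : ℕ → Prop} {l : ℝ} (hP : RA P l) (d : ℕ) (c : ℝ) (x₀ : ℕ) (ε : ℝ) (Q r : ℕ) (hc : 0 < c)
    (hε : 0 < ε) (hQ : 1 ≤ Q) (hr : r.Coprime Q) : ∃ N₀ : ℕ, ∀ N : ℕ, N₀ ≤ N →
      ∀ h : ArithmeticFunction ℝ, h.IsMultiplicative → (∀ n, 0 ≤ h n ∧ h n ≤ 1) →
      (∀ x : ℕ, x₀ ≤ x → c * (x / Real.log x) ≤ ∑ p ∈ (Icc 1 x).filter Nat.Prime, h p) →
      ∀ g : ArithmeticFunction ℂ, g.IsMultiplicative → (∀ n, ‖g n‖ ≤ h n) →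
      ∀ f : Fin d → ℕ → ℝ, (∀ j, ∀ m n : ℕ, m.Coprime n → f j (m * n) = f j m + f j n) →
      ∀ J : Fin d → Set ℝ, (∀ j, (J j).OrdConnected) →
      ‖∑ n ∈ (Icc 1 N).filter (fun n => n % Q = r % Q ∧ (∀ j, f j n ∈ J j) ∧ P n), g n -
        l * ∑ n ∈ (Icc 1 N).filter (fun n => n % Q = r % Q ∧ ∀ j, f j n ∈ J j), g n‖ ≤
        ε * ∑ n ∈ Icc 1 N, h n := by
  have : NeZero Q := ⟨by omega⟩
  set K : ℝ := (Fintype.card (DirichletCharacter ℂ Q) : ℝ) with hK
  have hK0 : 0 < K := by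
    rw [hK]
    exact_mod_cast Fintype.card_pos
  obtain ⟨N0, h0⟩ := hP d c hc x₀ (ε / K) (by positivity)
  refine ⟨N0, fun N hN h hm h01 hp g hgm hg f hf J hJ => ?_⟩
  have hyp : HypD c x₀ h := by
    intro x hx
    refine (hp x hx).trans (le_of_eq ?_)
    apply sum_congr _ (fun _ _ => rfl)
    ext p
    rw [mem_filter, mem_Icc, mem_PN]
    constructor
    · rintro ⟨h1, h2⟩; exact ⟨h1.2, h2⟩
    · rintro ⟨h1, h2⟩; exact ⟨⟨h2.one_lt.le, h1⟩, h2⟩
  have hu : IsUnit ((r : ℕ) : ZMod Q) := (ZMod.isUnit_iff_coprime r Q).2 hr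
  have horth : ∀ n : ℕ, ∑ χ : DirichletCharacter ℂ Q, χ ((r : ZMod Q))⁻¹ * χ (n : ZMod Q) =
      if n % Q = r % Q then (Q.totient : ℂ) else 0 := by
    intro n
    rw [DirichletCharacter.sum_char_inv_mul_char_eq ℂ hu]
    by_cases hn : n % Q = r % Q
    · rw [if_pos hn, if_pos ((ZMod.natCast_eq_natCast_iff' r n Q).2 hn.symm)]
    · rw [if_neg hn, if_neg (fun h => hn ((ZMod.natCast_eq_natCast_iff' r n Q).1 h).symm)]
  -- the product with the indicator function of the conditions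
  set w : ℕ → ℂ := fun n => if ∀ j, f j n ∈ J j then g n else 0 with hw
  have hχ : ∀ χ : DirichletCharacter ℂ Q, ‖∑ n ∈ Icc 1 N, (if P n then χ (n : ZMod Q) * w n else 0) -
      l * ∑ n ∈ Icc 1 N, χ (n : ZMod Q) * w n‖ ≤ ε / K * ∑ n ∈ Icc 1 N, h n := by
    intro χ
    refine h0 N hN h (fun n => (h01 n).1) (fun n => (h01 n).2) hm.1 (fun m n hmn => hm.2 hmn) hyp
      (fun n => χ (n : ZMod Q) * w n) ⟨fun n => χ (n : ZMod Q) * g n, f, J, fun n => ?_, fun m n hmn => ?_, hf, hJ,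
        fun n => ?_⟩
    · rw [norm_mul]
      calc ‖χ (n : ZMod Q)‖ * ‖g n‖ ≤ 1 * ‖g n‖ :=
            mul_le_mul_of_nonneg_right (DirichletCharacter.norm_le_one χ _) (norm_nonneg _)
        _ ≤ h n := by rw [one_mul]; exact hg n
    · simp only
      rw [hgm.2 hmn, Nat.cast_mul, map_mul]; ring
    · show χ (n : ZMod Q) * w n = if ∀ j, f j n ∈ J j then χ (n : ZMod Q) * g n else 0
      rw [hw]
      simp only
      split_ifs <;> simp
  have s1 : ∑ n ∈ (Icc 1 N).filter (fun n => n % Q = r % Q ∧ (∀ j, f j n ∈ J j) ∧ P n), g n =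
      ∑ n ∈ (Icc 1 N).filter (fun n => n % Q = r % Q ∧ P n), w n := by
    rw [sum_filter, sum_filter]
    apply sum_congr rfl
    intro n _
    rw [hw]
    simp only
    by_cases a1 : n % Q = r % Q <;> by_cases a2 : ∀ j, f j n ∈ J j <;> by_cases a3 : P n <;>
      simp only [a1, a3, true_and, and_true, and_false, false_and, if_true, if_false]
  have s2 : ∑ n ∈ (Icc 1 N).filter (fun n => n % Q = r % Q ∧ ∀ j, f j n ∈ J j), g n =
      ∑ n ∈ (Icc 1 N).filter (fun n => n % Q = r % Q), w n := by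
    rw [sum_filter, sum_filter]
    apply sum_congr rfl
    intro n _
    rw [hw]
    simp only
    by_cases a1 : n % Q = r % Q <;> by_cases a2 : ∀ j, f j n ∈ J j <;>
      simp only [a1, true_and, false_and, if_true, if_false]
  rw [s1, s2]
  set A : ℂ := ∑ n ∈ (Icc 1 N).filter (fun n => n % Q = r % Q ∧ P n), w n -
        l * ∑ n ∈ (Icc 1 N).filter (fun n => n % Q = r % Q), w n with hA
  have hφ : (1 : ℝ) ≤ Q.totient := by exact_mod_cast Nat.totient_pos.2 (by omega)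
  have key : (Q.totient : ℂ) * A = ∑ χ : DirichletCharacter ℂ Q, χ ((r : ZMod Q))⁻¹ *
      (∑ n ∈ Icc 1 N, (if P n then χ (n : ZMod Q) * w n else 0) - l * ∑ n ∈ Icc 1 N, χ (n : ZMod Q) * w n) := by
    have e1 : ∑ χ : DirichletCharacter ℂ Q, χ ((r : ZMod Q))⁻¹ *
        (∑ n ∈ Icc 1 N, (if P n then χ (n : ZMod Q) * w n else 0)) =
        (Q.totient : ℂ) * ∑ n ∈ (Icc 1 N).filter (fun n => n % Q = r % Q ∧ P n), w n := by
      simp_rw [mul_sum]
      rw [sum_comm, sum_filter]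
      apply sum_congr rfl
      intro n _
      by_cases hPn : P n
      · simp only [hPn, if_true, and_true]
        have : ∀ χ : DirichletCharacter ℂ Q, χ ((r : ZMod Q))⁻¹ * (χ (n : ZMod Q) * w n) =
            (χ ((r : ZMod Q))⁻¹ * χ (n : ZMod Q)) * w n := fun χ => by ring
        rw [sum_congr rfl (fun χ _ => this χ), ← sum_mul, horth]
        split_ifs <;> simp
      · simp only [hPn, if_false, and_false, mul_zero, sum_const_zero]
    have e2 : ∑ χ : DirichletCharacter ℂ Q, χ ((r : ZMod Q))⁻¹ *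
        (l * ∑ n ∈ Icc 1 N, χ (n : ZMod Q) * w n) =
        (Q.totient : ℂ) * (l * ∑ n ∈ (Icc 1 N).filter (fun n => n % Q = r % Q), w n) := by
      simp_rw [mul_sum]
      rw [sum_comm, sum_filter]
      apply sum_congr rfl
      intro n _
      have : ∀ χ : DirichletCharacter ℂ Q, χ ((r : ZMod Q))⁻¹ * (l * (χ (n : ZMod Q) * w n)) =
          (χ ((r : ZMod Q))⁻¹ * χ (n : ZMod Q)) * (l * w n) := fun χ => by ring
      rw [sum_congr rfl (fun χ _ => this χ), ← sum_mul, horth]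
      split_ifs <;> simp
    simp_rw [mul_sub]
    rw [sum_sub_distrib, e1, e2, hA]
    ring
  have hH0 : 0 ≤ ∑ n ∈ Icc 1 N, h n := sum_nonneg fun n _ => (h01 n).1
  have h1 : ‖(Q.totient : ℂ) * A‖ ≤ K * (ε / K * ∑ n ∈ Icc 1 N, h n) := by
    rw [key]
    refine (norm_sum_le _ _).trans ?_
    calc ∑ χ : DirichletCharacter ℂ Q, ‖χ ((r : ZMod Q))⁻¹ * (∑ n ∈ Icc 1 N, (if P n then χ (n : ZMod Q) * w n else 0) -
          l * ∑ n ∈ Icc 1 N, χ (n : ZMod Q) * w n)‖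
        ≤ ∑ χ : DirichletCharacter ℂ Q, ε / K * ∑ n ∈ Icc 1 N, h n := by
          apply sum_le_sum
          intro χ _
          rw [norm_mul]
          calc _ ≤ 1 * ‖(∑ n ∈ Icc 1 N, (if P n then χ (n : ZMod Q) * w n else 0) -
                l * ∑ n ∈ Icc 1 N, χ (n : ZMod Q) * w n)‖ :=
                mul_le_mul_of_nonneg_right (DirichletCharacter.norm_le_one χ _) (norm_nonneg _)
            _ ≤ _ := by rw [one_mul]; exact hχ χ
      _ = K * (ε / K * ∑ n ∈ Icc 1 N, h n) := by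
          rw [sum_const, card_univ, nsmul_eq_mul]
  have e3 : K * (ε / K * ∑ n ∈ Icc 1 N, h n) = ε * ∑ n ∈ Icc 1 N, h n := by field_simp
  rw [e3, norm_mul, Complex.norm_natCast] at h1
  have h2 := norm_nonneg A
  nlinarith

/-- the form for multiplicative sets -/
theorem RA_sets {P : ℕ → Prop} {l : ℝ} (hP : RA P l) (d : ℕ) (c : ℝ) (x₀ : ℕ) (ε : ℝ) (Q r : ℕ) (hc : 0 < c)
    (hε : 0 < ε) (hQ : 1 ≤ Q) (hr : r.Coprime Q) : ∃ N₀ : ℕ, ∀ N : ℕ, N₀ ≤ N → ∀ E : Set ℕ,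
      (0 ∉ E ∧ 1 ∈ E ∧ ∀ m n : ℕ, m.Coprime n → (m * n ∈ E ↔ m ∈ E ∧ n ∈ E)) →
      (∀ x : ℕ, x₀ ≤ x → c * (x / Real.log x) ≤ {p : ℕ | p.Prime ∧ p ≤ x ∧ p ∈ E}.ncard) →
      ∀ f : Fin d → ℕ → ℝ, (∀ j, ∀ m n : ℕ, m.Coprime n → f j (m * n) = f j m + f j n) →
      ∀ J : Fin d → Set ℝ, (∀ j, (J j).OrdConnected) →
      |({n : ℕ | n ≤ N ∧ n ∈ E ∧ n % Q = r % Q ∧ (∀ j, f j n ∈ J j) ∧ P n}.ncard : ℝ) -
        l * {n : ℕ | n ≤ N ∧ n ∈ E ∧ n % Q = r % Q ∧ ∀ j, f j n ∈ J j}.ncard| ≤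
        ε * {n : ℕ | n ≤ N ∧ n ∈ E}.ncard := by
  obtain ⟨N0, h0⟩ := RA_full hP d c x₀ ε Q r hc hε hQ hr
  refine ⟨N0, fun N hN E hE hp f hf J hJ => ?_⟩
  obtain ⟨hE0, hE1, hE⟩ := hE
  set h : ArithmeticFunction ℝ := ⟨fun n => if n ∈ E then 1 else 0, if_neg hE0⟩ with hh
  have hv : ∀ n, h n = if n ∈ E then 1 else 0 := fun n => rfl
  have h01 : ∀ n, 0 ≤ h n ∧ h n ≤ 1 := fun n => by rw [hv]; split_ifs <;> norm_num
  have hmul : ∀ m n : ℕ, Nat.Coprime m n → h (m * n) = h m * h n := by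
    intro m n hmn
    rw [hv, hv, hv]
    have h1 := hE m n hmn
    by_cases hm : m ∈ E
    · by_cases hn : n ∈ E
      · rw [if_pos (h1.2 ⟨hm, hn⟩), if_pos hm, if_pos hn, mul_one]
      · rw [if_neg (fun h2 => hn (h1.1 h2).2), if_neg hn, mul_zero]
    · rw [if_neg (fun h2 => hm (h1.1 h2).1), if_neg hm, zero_mul]
  have hM : h.IsMultiplicative := ⟨by rw [hv, if_pos hE1], fun {m n} hmn => hmul m n hmn⟩
  set g : ArithmeticFunction ℂ := ⟨fun n => (h n : ℂ), by rw [hv, if_neg hE0]; simp⟩ with hg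
  have gv : ∀ n, g n = (h n : ℂ) := fun n => rfl
  have gM : g.IsMultiplicative := ⟨by rw [gv, hv, if_pos hE1]; simp, fun {m n} hmn => by
    rw [gv, gv, gv, hmul m n hmn]; push_cast; rfl⟩
  have hyp : ∀ x : ℕ, x₀ ≤ x → c * (x / Real.log x) ≤ ∑ p ∈ (Icc 1 x).filter Nat.Prime, h p := by
    intro x hx
    refine (hp x hx).trans (le_of_eq ?_)
    have e : {p : ℕ | p.Prime ∧ p ≤ x ∧ p ∈ E} = (((Icc 1 x).filter Nat.Prime).filter (fun p => p ∈ E) : Finset ℕ) := by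
      ext p
      rw [mem_coe, mem_filter, mem_filter, mem_Icc]
      simp only [Set.mem_ofPred_eq]
      constructor
      · rintro ⟨h1, h2, h3⟩; exact ⟨⟨⟨h1.one_lt.le, h2⟩, h1⟩, h3⟩
      · rintro ⟨⟨⟨_, h1⟩, h2⟩, h3⟩; exact ⟨h2, h1, h3⟩
    rw [e, Set.ncard_coe_finset, card_filter]
    push_cast
    rfl
  have h1 := h0 N hN h hM h01 hyp g gM (fun n => by
    rw [gv, Complex.norm_real, Real.norm_eq_abs, abs_of_nonneg (h01 n).1]) f hf J hJ
  have cntE : ∀ S : ℕ → Prop, (({n : ℕ | n ≤ N ∧ n ∈ E ∧ S n}.ncard : ℕ) : ℝ) = ∑ n ∈ (Icc 1 N).filter S, h n := by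
    intro S
    have e : {n : ℕ | n ≤ N ∧ n ∈ E ∧ S n} = (((Icc 1 N).filter S).filter (fun n => n ∈ E) : Finset ℕ) := by
      ext n
      rw [mem_coe, mem_filter, mem_filter, mem_Icc]
      simp only [Set.mem_ofPred_eq]
      constructor
      · rintro ⟨h1, h2, h3⟩
        refine ⟨⟨⟨?_, h1⟩, h3⟩, h2⟩
        rcases Nat.eq_zero_or_pos n with h | h
        · rw [h] at h2; exact absurd h2 hE0
        · exact h
      · rintro ⟨⟨⟨_, h1⟩, h3⟩, h2⟩; exact ⟨h1, h2, h3⟩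
    rw [e, Set.ncard_coe_finset, card_filter]
    push_cast
    rfl
  have e0 : (({n : ℕ | n ≤ N ∧ n ∈ E}.ncard : ℕ) : ℝ) = ∑ n ∈ Icc 1 N, h n := by
    have h2 := cntE (fun _ => True)
    simpa using h2
  rw [cntE (fun n => n % Q = r % Q ∧ (∀ j, f j n ∈ J j) ∧ P n),
    cntE (fun n => n % Q = r % Q ∧ ∀ j, f j n ∈ J j), e0]
  have e4 : ∑ n ∈ (Icc 1 N).filter (fun n => n % Q = r % Q ∧ (∀ j, f j n ∈ J j) ∧ P n), g n -
        l * ∑ n ∈ (Icc 1 N).filter (fun n => n % Q = r % Q ∧ ∀ j, f j n ∈ J j), g n =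
      ((∑ n ∈ (Icc 1 N).filter (fun n => n % Q = r % Q ∧ (∀ j, f j n ∈ J j) ∧ P n), h n -
        l * ∑ n ∈ (Icc 1 N).filter (fun n => n % Q = r % Q ∧ ∀ j, f j n ∈ J j), h n : ℝ) : ℂ) := by
    simp only [gv]
    push_cast
    rfl
  rw [e4, Complex.norm_real, Real.norm_eq_abs] at h1
  convert h1

/-- all integers -/
theorem RA_nat {P : ℕ → Prop} {l : ℝ} (hP : RA P l) (d : ℕ) {ε : ℝ} (hε : 0 < ε) :
    ∃ N₀ : ℕ, ∀ N : ℕ, N₀ ≤ N →
      ∀ f : Fin d → ℕ → ℝ, (∀ j, ∀ m n : ℕ, m.Coprime n → f j (m * n) = f j m + f j n) →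
      ∀ J : Fin d → Set ℝ, (∀ j, (J j).OrdConnected) →
      |cnt (fun n => (∀ j, f j n ∈ J j) ∧ P n) N - l * cnt (fun n => ∀ j, f j n ∈ J j) N| ≤ ε * N := by
  obtain ⟨c, hc, x0, hx0⟩ := thick_ap (q := 1) (a := 1) le_rfl (by norm_num)
  obtain ⟨N0, h0⟩ := RA_sets hP d c x0 ε 1 1 hc hε le_rfl (by norm_num)
  refine ⟨N0, fun N hN f hf J hJ => ?_⟩
  have h1 := h0 N hN {n | 1 ≤ n} ⟨by simp, by simp, fun m n _ => by
    simp only [Set.mem_ofPred_eq]
    constructor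
    · intro h; exact ⟨Nat.pos_of_mul_pos_right h, Nat.pos_of_mul_pos_left h⟩
    · rintro ⟨h1, h2⟩; exact Nat.mul_pos h1 h2⟩ (fun x hx => by
    refine (hx0 x hx).trans (le_of_eq ?_)
    have e : {p : ℕ | p.Prime ∧ p ≤ x ∧ p ∈ {n : ℕ | 1 ≤ n}} =
        ((Icc 1 x).filter (fun p => p.Prime ∧ p % 1 = 1 % 1) : Finset ℕ) := by
      ext p
      rw [mem_coe, mem_filter, mem_Icc]
      simp only [Set.mem_ofPred_eq, Nat.mod_one]
      tauto
    rw [e, Set.ncard_coe_finset]) f hf J hJ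
  have e1 : {n : ℕ | n ≤ N ∧ n ∈ {n : ℕ | 1 ≤ n} ∧ n % 1 = 1 % 1 ∧ (∀ j, f j n ∈ J j) ∧ P n} =
      {n : ℕ | 1 ≤ n ∧ n ≤ N ∧ ((∀ j, f j n ∈ J j) ∧ P n)} := by
    ext n
    simp only [Set.mem_ofPred_eq, Nat.mod_one, true_and]
    tauto
  have e2 : {n : ℕ | n ≤ N ∧ n ∈ {n : ℕ | 1 ≤ n} ∧ n % 1 = 1 % 1 ∧ ∀ j, f j n ∈ J j} =
      {n : ℕ | 1 ≤ n ∧ n ≤ N ∧ ∀ j, f j n ∈ J j} := by
    ext n
    simp only [Set.mem_ofPred_eq, Nat.mod_one, true_and]
    tauto
  have e3 : {n : ℕ | n ≤ N ∧ n ∈ {n : ℕ | 1 ≤ n}} = ((Icc 1 N : Finset ℕ) : Set ℕ) := by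
    ext n
    rw [mem_coe, mem_Icc]
    simp only [Set.mem_ofPred_eq]
    tauto
  rw [e1, e2, e3, Set.ncard_coe_finset, Nat.card_Icc, Nat.add_sub_cancel] at h1
  exact h1

theorem om_add (m n : ℕ) (h : m.Coprime n) :
    ((m * n).primeFactors.card : ℝ) = (m.primeFactors.card : ℝ) + n.primeFactors.card := by
  rw [Nat.Coprime.primeFactors_mul h, card_union_of_disjoint h.disjoint_primeFactors]
  push_cast
  rfl

/-- THE JOINT LAW with the number of prime factors, thresholds depending on `N` -/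
theorem RA_ekN {P : ℕ → Prop} {l : ℝ} (hP : RA P l) (y : ℝ) :
    Tendsto (fun N : ℕ => cnt (fun n => P n ∧ (n.primeFactors.card : ℝ) ≤ Real.log (Real.log N) +
      y * Real.sqrt (Real.log (Real.log N))) N / N) atTop (𝓝 (l * EK.Phi y)) := by
  have h1 := (ek y).const_mul l
  have h2 : Tendsto (fun N : ℕ => cnt (fun n => P n ∧ (n.primeFactors.card : ℝ) ≤ Real.log (Real.log N) +
      y * Real.sqrt (Real.log (Real.log N))) N / N - l * (({n : ℕ | 1 ≤ n ∧ n ≤ N ∧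
      (n.primeFactors.card : ℝ) ≤ Real.log (Real.log N) + y * Real.sqrt (Real.log (Real.log N))}.ncard : ℝ) / N))
      atTop (𝓝 0) := by
    rw [Metric.tendsto_atTop]
    intro ε hε
    obtain ⟨N0, h0⟩ := RA_nat hP 1 (show 0 < ε / 2 by positivity)
    refine ⟨N0 + 1, fun N hN => ?_⟩
    have h3 := h0 N (by omega) (fun _ n => (n.primeFactors.card : ℝ)) (fun _ m n hmn => om_add m n hmn)
      (fun _ => Set.Iic (Real.log (Real.log N) + y * Real.sqrt (Real.log (Real.log N))))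
      (fun _ => Set.ordConnected_Iic)
    have hN0 : (0 : ℝ) < N := by exact_mod_cast (by omega : 0 < N)
    have e1 : cnt (fun n => (∀ _ : Fin 1, (n.primeFactors.card : ℝ) ∈
        Set.Iic (Real.log (Real.log N) + y * Real.sqrt (Real.log (Real.log N)))) ∧ P n) N =
        cnt (fun n => P n ∧ (n.primeFactors.card : ℝ) ≤ Real.log (Real.log N) +
      y * Real.sqrt (Real.log (Real.log N))) N := by
      unfold cnt
      congr 2
      ext n
      simp only [Set.mem_ofPred_eq, Set.mem_Iic, forall_const]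
      tauto
    have e2 : cnt (fun n => ∀ _ : Fin 1, (n.primeFactors.card : ℝ) ∈
        Set.Iic (Real.log (Real.log N) + y * Real.sqrt (Real.log (Real.log N)))) N =
        ({n : ℕ | 1 ≤ n ∧ n ≤ N ∧
      (n.primeFactors.card : ℝ) ≤ Real.log (Real.log N) + y * Real.sqrt (Real.log (Real.log N))}.ncard : ℝ) := by
      unfold cnt
      congr 2
      ext n
      simp only [Set.mem_ofPred_eq, Set.mem_Iic, forall_const]
    rw [e1, e2] at h3
    rw [Real.dist_eq, sub_zero, ← mul_div_assoc, ← sub_div, abs_div, abs_of_pos hN0, div_lt_iff₀ hN0]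
    refine lt_of_le_of_lt h3 ?_
    exact mul_lt_mul_of_pos_right (by linarith) hN0
  have h3 := h2.add h1
  rw [zero_add] at h3
  refine h3.congr fun N => ?_
  ring

theorem EKPhi_cont : Continuous EK.Phi := by
  have e : EK.Phi = Pool.Agent.H499R2.ND.Phi := by
    funext x
    rw [Pool.Agent.H499R2.ND.phi_cdf]
    rfl
  rw [e]
  exact Pool.Agent.H499R2.ND.Phi_continuous

/-- THE JOINT LAW with the number of prime factors -/
theorem RA_ek {P : ℕ → Prop} {l : ℝ} (hP : RA P l) (y : ℝ) :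
    Dn (fun n => P n ∧ (n.primeFactors.card : ℝ) ≤ Real.log (Real.log n) + y * Real.sqrt (Real.log (Real.log n)))
      (l * EK.Phi y) := by
  have hc : Tendsto (fun η : ℝ => l * EK.Phi (y + η)) (𝓝 0) (𝓝 (l * EK.Phi y)) := by
    have : Continuous (fun η : ℝ => l * EK.Phi (y + η)) :=
      continuous_const.mul (EKPhi_cont.comp (continuous_const.add continuous_id))
    have h := this.tendsto 0
    simpa using h
  unfold Dn
  rw [Metric.tendsto_atTop]
  intro ε hε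
  obtain ⟨η, hη0, hη⟩ : ∃ η : ℝ, 0 < η ∧ |l * EK.Phi (y + η) - l * EK.Phi y| < ε / 4 ∧
      |l * EK.Phi (y - η) - l * EK.Phi y| < ε / 4 := by
    obtain ⟨θ, h1, h2⟩ := Metric.tendsto_nhds_nhds.1 hc (ε / 4) (by positivity)
    refine ⟨θ / 2, by positivity, ?_, ?_⟩
    · have := h2 (x := θ / 2) (by rw [Real.dist_eq, sub_zero, abs_of_pos (by positivity)]; linarith)
      rwa [Real.dist_eq] at this
    · have := h2 (x := -(θ / 2)) (by rw [Real.dist_eq, sub_zero, abs_neg, abs_of_pos (by positivity)]; linarith)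
      rwa [Real.dist_eq] at this
  obtain ⟨hη1, hη2⟩ := hη
  obtain ⟨N1, k1⟩ := Metric.tendsto_atTop.1 (RA_ekN hP (y + η)) (ε / 4) (by positivity)
  obtain ⟨N2, k2⟩ := Metric.tendsto_atTop.1 (RA_ekN hP (y - η)) (ε / 4) (by positivity)
  -- large N
  have tl : Tendsto (fun N : ℕ => Real.log N) atTop atTop :=
    Real.tendsto_log_atTop.comp tendsto_natCast_atTop_atTop
  have tll : Tendsto (fun N : ℕ => Real.log (Real.log N)) atTop atTop := Real.tendsto_log_atTop.comp tl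
  have ts : Tendsto (fun N : ℕ => Real.sqrt (Real.log (Real.log N))) atTop atTop :=
    Real.tendsto_sqrt_atTop.comp tll
  have tq : Tendsto (fun N : ℕ => Real.sqrt N) atTop atTop :=
    Real.tendsto_sqrt_atTop.comp tendsto_natCast_atTop_atTop
  obtain ⟨N3, hN3⟩ := eventually_atTop.1 ((tl.eventually_ge_atTop 2).and
    ((tll.eventually_ge_atTop 2).and ((ts.eventually_ge_atTop ((1 + |y|) * 1 / η)).and
      (tq.eventually_ge_atTop (4 / ε + 1)))))
  refine ⟨max (max N1 N2) (max N3 1), fun N hN => ?_⟩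
  have hNN1 : N1 ≤ N := by omega
  have hNN2 : N2 ≤ N := by omega
  obtain ⟨g1, g2, g3, g4⟩ := hN3 N (by omega)
  have hN0 : (0 : ℝ) < N := by exact_mod_cast (by omega : 0 < N)
  have u1 := k1 N hNN1
  have u2 := k2 N hNN2
  rw [Real.dist_eq] at u1 u2
  set T := Real.log (Real.log N) with hT
  set s := Real.sqrt T with hs
  have hs1 : 1 ≤ s := Real.one_le_sqrt.2 (by linarith)
  have hss : s * s = T := Real.mul_self_sqrt (by linarith)
  rw [div_le_iff₀ hη0] at g3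
  -- the thresholds
  have hthr : ∀ n : ℕ, Real.sqrt N < n → n ≤ N →
      T + (y - η) * s ≤ Real.log (Real.log n) + y * Real.sqrt (Real.log (Real.log n)) ∧
      Real.log (Real.log n) + y * Real.sqrt (Real.log (Real.log n)) ≤ T + (y + η) * s := by
    intro n h1 h2
    have hsN : 0 < Real.sqrt N := Real.sqrt_pos.2 hN0
    have hn0 : (0 : ℝ) < n := hsN.trans h1
    have a1 : Real.log N / 2 ≤ Real.log n := by
      have := Real.log_le_log hsN h1.le
      rwa [Real.log_sqrt hN0.le] at this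
    have a2 : Real.log n ≤ Real.log N := Real.log_le_log hn0 (by exact_mod_cast h2)
    have a3 : 0 < Real.log N / 2 := by linarith
    have a4 : T - 1 ≤ Real.log (Real.log n) := by
      have h3 := Real.log_le_log a3 a1
      rw [Real.log_div (by linarith) (by norm_num)] at h3
      have h4 := Real.log_two_lt_d9
      linarith
    have a5 : Real.log (Real.log n) ≤ T := Real.log_le_log (by linarith) a2
    set t := Real.log (Real.log n) with ht
    have a6 : 0 ≤ t := by linarith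
    have a7 := Real.mul_self_sqrt a6
    have a8 := Real.sqrt_nonneg t
    have a9 : Real.sqrt t ≤ s := Real.sqrt_le_sqrt a5
    have a10 : s - Real.sqrt t ≤ 1 := by
      have : (s - Real.sqrt t) * (s + Real.sqrt t) ≤ 1 := by nlinarith
      nlinarith
    have b1 : |y * (s - Real.sqrt t)| ≤ |y| := by
      rw [abs_mul, abs_of_nonneg (sub_nonneg.2 a9)]
      exact mul_le_of_le_one_right (abs_nonneg _) a10
    obtain ⟨b2, b3⟩ := abs_le.1 b1
    constructor
    · nlinarith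
    · nlinarith
  -- counting
  have hsq : Real.sqrt N * Real.sqrt N = N := Real.mul_self_sqrt hN0.le
  have hsmall : cnt (fun n : ℕ => (n : ℝ) ≤ Real.sqrt N) N ≤ ε / 4 * N := by
    have h1 : cnt (fun n : ℕ => (n : ℝ) ≤ Real.sqrt N) N ≤ Real.sqrt N := by
      rw [cnt_eq]
      have h2 : ((Icc 1 N).filter (fun n : ℕ => (n : ℝ) ≤ Real.sqrt N)).card ≤ (Icc 1 ⌊Real.sqrt N⌋₊).card := by
        apply card_le_card
        intro n hn
        rw [mem_filter, mem_Icc] at hn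
        rw [mem_Icc]
        exact ⟨hn.1.1, Nat.le_floor hn.2⟩
      rw [Nat.card_Icc, Nat.add_sub_cancel] at h2
      calc (((Icc 1 N).filter (fun n : ℕ => (n : ℝ) ≤ Real.sqrt N)).card : ℝ) ≤ (⌊Real.sqrt N⌋₊ : ℝ) := by
            exact_mod_cast h2
        _ ≤ _ := Nat.floor_le (Real.sqrt_nonneg _)
    refine h1.trans ?_
    have h3 : 4 / ε ≤ Real.sqrt N := by linarith
    rw [div_le_iff₀ hε] at h3
    have h4 : 0 ≤ Real.sqrt N := Real.sqrt_nonneg _
    nlinarith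
  have hmono : ∀ (A B : ℕ → Prop), (∀ n, 1 ≤ n → n ≤ N → Real.sqrt N < n → A n → B n) →
      cnt A N ≤ cnt B N + cnt (fun n : ℕ => (n : ℝ) ≤ Real.sqrt N) N := by
    intro A B hAB
    rw [cnt_eq, cnt_eq, cnt_eq]
    have h1 : (Icc 1 N).filter A ⊆ (Icc 1 N).filter B ∪ (Icc 1 N).filter (fun n : ℕ => (n : ℝ) ≤ Real.sqrt N) := by
      intro n hn
      rw [mem_filter, mem_Icc] at hn
      rw [mem_union, mem_filter, mem_filter, mem_Icc]
      by_cases h2 : (n : ℝ) ≤ Real.sqrt N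
      · exact Or.inr ⟨hn.1, h2⟩
      · exact Or.inl ⟨hn.1, hAB n hn.1.1 hn.1.2 (lt_of_not_ge h2) hn.2⟩
    have h2 := (card_le_card h1).trans (card_union_le _ _)
    exact_mod_cast h2
  have c1 := hmono (fun n => P n ∧ (n.primeFactors.card : ℝ) ≤ Real.log (Real.log n) +
      y * Real.sqrt (Real.log (Real.log n))) (fun n => P n ∧ (n.primeFactors.card : ℝ) ≤ T + (y + η) * s)
    (fun n _ h2 h3 h4 => ⟨h4.1, h4.2.trans (hthr n h3 h2).2⟩)
  have c2 := hmono (fun n => P n ∧ (n.primeFactors.card : ℝ) ≤ T + (y - η) * s)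
    (fun n => P n ∧ (n.primeFactors.card : ℝ) ≤ Real.log (Real.log n) +
      y * Real.sqrt (Real.log (Real.log n)))
    (fun n _ h2 h3 h4 => ⟨h4.1, h4.2.trans (hthr n h3 h2).1⟩)
  set X := cnt (fun n => P n ∧ (n.primeFactors.card : ℝ) ≤ Real.log (Real.log n) +
      y * Real.sqrt (Real.log (Real.log n))) N with hX
  obtain ⟨v1, v2⟩ := abs_lt.1 u1
  obtain ⟨v3, v4⟩ := abs_lt.1 u2
  obtain ⟨v5, v6⟩ := abs_lt.1 hη1
  obtain ⟨v7, v8⟩ := abs_lt.1 hη2
  have d1 : X / N ≤ cnt (fun n => P n ∧ (n.primeFactors.card : ℝ) ≤ T + (y + η) * s) N / N + ε / 4 := by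
    rw [div_add' _ _ _ hN0.ne', div_le_div_iff_of_pos_right hN0]
    linarith
  have d2 : cnt (fun n => P n ∧ (n.primeFactors.card : ℝ) ≤ T + (y - η) * s) N / N - ε / 4 ≤ X / N := by
    rw [div_sub' hN0.ne', div_le_div_iff_of_pos_right hN0]
    linarith
  rw [Real.dist_eq, abs_lt]
  constructor <;> linarith

end Pool.Agent.X62.AD
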