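import Mathlib
import Pool.Agent.X62.AD.Final
import Pool.Agent.H499R2.HL.A

/-! The laws for odd integers. -/

set_option autoImplicit false

namespace Pool.Agent.X62.AD

open Finset Filter Topology
open Pool.Agent.H499R2.ND (Dn cnt cnt_eq)
open Pool.Agent.H499R2.LT (Dn_iff)
open Pool.Agent.X62.EK (LL tL ek)
open scoped Classical

/-- the threshold -/
noncomputable def tr (y : ℝ) (n : ℕ) : ℝ :=
  Real.log (Real.log n) + y * Real.sqrt (Real.log (Real.log n))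

theorem tr_comp (y : ℝ) {η : ℝ} (hη0 : 0 < η) : ∀ᶠ N : ℕ in atTop, ∀ n : ℕ, Real.sqrt N < n → n ≤ N →
    tr (y - η) N ≤ tr y n ∧ tr y n ≤ tr (y + η) N := by
  have tl : Tendsto (fun N : ℕ => Real.log N) atTop atTop :=
    Real.tendsto_log_atTop.comp tendsto_natCast_atTop_atTop
  have tll : Tendsto (fun N : ℕ => Real.log (Real.log N)) atTop atTop := Real.tendsto_log_atTop.comp tl
  have ts : Tendsto (fun N : ℕ => Real.sqrt (Real.log (Real.log N))) atTop atTop :=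
    Real.tendsto_sqrt_atTop.comp tll
  filter_upwards [tl.eventually_ge_atTop 2, tll.eventually_ge_atTop 2,
    ts.eventually_ge_atTop ((1 + |y|) * 1 / η), eventually_ge_atTop 1] with N g1 g2 g3 g5 n h1 h2
  have hN0 : (0 : ℝ) < N := by exact_mod_cast g5
  unfold tr
  set T := Real.log (Real.log N) with hT
  set s := Real.sqrt T with hs
  have hs1 : 1 ≤ s := Real.one_le_sqrt.2 (by linarith)
  have hss : s * s = T := Real.mul_self_sqrt (by linarith)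
  rw [div_le_iff₀ hη0] at g3
  have hsN : 0 < Real.sqrt N := Real.sqrt_pos.2 hN0
  have hn0 : (0 : ℝ) < n := hsN.trans h1
  have a1 : Real.log N / 2 ≤ Real.log n := by
    have := Real.log_le_log hsN h1.le
    rwa [Real.log_sqrt hN0.le] at this
  have a2 : Real.log n ≤ Real.log N := Real.log_le_log hn0 (by exact_mod_cast h2)
  have a3 : 0 < Real.log N / 2 := by linarith
  have a4 : T - 1 ≤ Real.log (Real.log n) := by
    have h3 := Real.log_le_log a3 a1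
    rw [Real.log_div (by linarith) (by norm_num)] at h3
    have h4 := Real.log_two_lt_d9
    linarith
  have a5 : Real.log (Real.log n) ≤ T := Real.log_le_log (by linarith) a2
  set t := Real.log (Real.log n) with ht
  have a6 : 0 ≤ t := by linarith
  have a7 := Real.mul_self_sqrt a6
  have a8 := Real.sqrt_nonneg t
  have a9 : Real.sqrt t ≤ s := Real.sqrt_le_sqrt a5
  have a10 : s - Real.sqrt t ≤ 1 := by
    have : (s - Real.sqrt t) * (s + Real.sqrt t) ≤ 1 := by nlinarith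
    nlinarith
  have b1 : |y * (s - Real.sqrt t)| ≤ |y| := by
    rw [abs_mul, abs_of_nonneg (sub_nonneg.2 a9)]
    exact mul_le_of_le_one_right (abs_nonneg _) a10
  obtain ⟨b2, b3⟩ := abs_le.1 b1
  constructor
  · nlinarith
  · nlinarith

/-- comparison of two counting functions which agree beyond `√N` -/
theorem sandwich {u : ℕ → ℝ} {L : ℝ → ℝ} (hL : Continuous L) (y : ℝ)
    (H : ∀ η : ℝ, 0 < η → ∃ (a b : ℕ → ℝ), Tendsto a atTop (𝓝 (L (y - η))) ∧ Tendsto b atTop (𝓝 (L (y + η))) ∧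
      ∀ᶠ N : ℕ in atTop, a N - η ≤ u N ∧ u N ≤ b N + η) : Tendsto u atTop (𝓝 (L y)) := by
  rw [Metric.tendsto_atTop]
  intro ε hε
  have hc : Tendsto (fun η : ℝ => L (y + η)) (𝓝 0) (𝓝 (L y)) := by
    have : Continuous (fun η : ℝ => L (y + η)) := hL.comp (continuous_const.add continuous_id)
    have h := this.tendsto 0
    simpa using h
  obtain ⟨θ, h1, h2⟩ := Metric.tendsto_nhds_nhds.1 hc (ε / 4) (by positivity)
  set η : ℝ := min (θ / 2) (ε / 4) with hη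
  have hη0 : 0 < η := lt_min (by positivity) (by positivity)
  have hηθ : η ≤ θ / 2 := min_le_left _ _
  have hηε : η ≤ ε / 4 := min_le_right _ _
  have k1 : |L (y + η) - L y| < ε / 4 := by
    have := h2 (x := η) (by rw [Real.dist_eq, sub_zero, abs_of_pos hη0]; linarith)
    rwa [Real.dist_eq] at this
  have k2 : |L (y - η) - L y| < ε / 4 := by
    have := h2 (x := -η) (by rw [Real.dist_eq, sub_zero, abs_neg, abs_of_pos hη0]; linarith)
    rwa [Real.dist_eq] at this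
  obtain ⟨a, b, ha, hb, hab⟩ := H η hη0
  obtain ⟨N1, n1⟩ := Metric.tendsto_atTop.1 ha (ε / 4) (by positivity)
  obtain ⟨N2, n2⟩ := Metric.tendsto_atTop.1 hb (ε / 4) (by positivity)
  obtain ⟨N3, n3⟩ := eventually_atTop.1 hab
  refine ⟨max N1 (max N2 N3), fun N hN => ?_⟩
  have u1 := n1 N (by omega)
  have u2 := n2 N (by omega)
  obtain ⟨u3, u4⟩ := n3 N (by omega)
  rw [Real.dist_eq] at u1 u2 ⊢
  rw [abs_lt] at u1 u2 k1 k2 ⊢
  constructor <;> linarith [u1.1, u1.2, u2.1, u2.2, k1.1, k1.2, k2.1, k2.2]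

theorem small_sqrt {η : ℝ} (hη : 0 < η) : ∀ᶠ N : ℕ in atTop, 1 ≤ N ∧
    cnt (fun n : ℕ => (n : ℝ) ≤ Real.sqrt N) N / N ≤ η := by
  have tq : Tendsto (fun N : ℕ => Real.sqrt N) atTop atTop :=
    Real.tendsto_sqrt_atTop.comp tendsto_natCast_atTop_atTop
  filter_upwards [tq.eventually_ge_atTop (1 / η), eventually_ge_atTop 1] with N g4 hN1
  refine ⟨hN1, ?_⟩
  have hN0 : (0 : ℝ) < N := by exact_mod_cast hN1
  have hsq : Real.sqrt N * Real.sqrt N = N := Real.mul_self_sqrt hN0.le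
  rw [div_le_iff₀ hN0]
  have h1 : cnt (fun n : ℕ => (n : ℝ) ≤ Real.sqrt N) N ≤ Real.sqrt N := by
    rw [cnt_eq]
    have h2 : ((Icc 1 N).filter (fun n : ℕ => (n : ℝ) ≤ Real.sqrt N)).card ≤ (Icc 1 ⌊Real.sqrt N⌋₊).card := by
      apply card_le_card
      intro n hn
      rw [mem_filter, mem_Icc] at hn
      rw [mem_Icc]
      exact ⟨hn.1.1, Nat.le_floor hn.2⟩
    rw [Nat.card_Icc, Nat.add_sub_cancel] at h2
    calc (((Icc 1 N).filter (fun n : ℕ => (n : ℝ) ≤ Real.sqrt N)).card : ℝ) ≤ (⌊Real.sqrt N⌋₊ : ℝ) := by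
          exact_mod_cast h2
      _ ≤ _ := Nat.floor_le (Real.sqrt_nonneg _)
  refine h1.trans ?_
  rw [div_le_iff₀ hη] at g4
  have h4 : 0 ≤ Real.sqrt N := Real.sqrt_nonneg _
  nlinarith

theorem cnt_beyond {N : ℕ} {A B : ℕ → Prop}
    (hAB : ∀ n, 1 ≤ n → n ≤ N → Real.sqrt N < n → A n → B n) :
    cnt A N ≤ cnt B N + cnt (fun n : ℕ => (n : ℝ) ≤ Real.sqrt N) N := by
  rw [cnt_eq, cnt_eq, cnt_eq]
  have h1 : (Icc 1 N).filter A ⊆ (Icc 1 N).filter B ∪ (Icc 1 N).filter (fun n : ℕ => (n : ℝ) ≤ Real.sqrt N) := by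
    intro n hn
    rw [mem_filter, mem_Icc] at hn
    rw [mem_union, mem_filter, mem_filter, mem_Icc]
    by_cases h2 : (n : ℝ) ≤ Real.sqrt N
    · exact Or.inr ⟨hn.1, h2⟩
    · exact Or.inl ⟨hn.1, hAB n hn.1.1 hn.1.2 (lt_of_not_ge h2) hn.2⟩
  have h2 := (card_le_card h1).trans (card_union_le _ _)
  exact_mod_cast h2

theorem div_beyond {N : ℕ} {η : ℝ} (h : 1 ≤ N ∧ cnt (fun n : ℕ => (n : ℝ) ≤ Real.sqrt N) N / N ≤ η) {A B : ℕ → Prop}
    (hAB : ∀ n, 1 ≤ n → n ≤ N → Real.sqrt N < n → A n → B n) : cnt A N / N ≤ cnt B N / N + η := by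
  have hN0 : (0 : ℝ) < N := by exact_mod_cast h.1
  have h1 := cnt_beyond hAB
  have h2 : cnt A N / N ≤ (cnt B N + cnt (fun n : ℕ => (n : ℝ) ≤ Real.sqrt N) N) / N :=
    (div_le_div_iff_of_pos_right hN0).2 h1
  rw [add_div] at h2
  linarith [h.2]

/-- from thresholds at `N` to thresholds at `n` -/
theorem thr_fwd {A : ℕ → Prop} {w : ℕ → ℝ} {L : ℝ → ℝ} (hL : Continuous L)
    (h : ∀ y, Tendsto (fun N : ℕ => cnt (fun n => A n ∧ w n ≤ tr y N) N / N) atTop (𝓝 (L y))) (y : ℝ) :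
    Dn (fun n => A n ∧ w n ≤ tr y n) (L y) := by
  refine sandwich hL y fun η hη => ⟨_, _, h (y - η), h (y + η), ?_⟩
  filter_upwards [tr_comp y hη, small_sqrt hη] with N h1 h2
  have h3 := div_beyond h2 (A := fun n => A n ∧ w n ≤ tr y n) (B := fun n => A n ∧ w n ≤ tr (y + η) N)
    fun n _ h4 h5 h6 => ⟨h6.1, h6.2.trans (h1 n h5 h4).2⟩
  have h4 := div_beyond h2 (A := fun n => A n ∧ w n ≤ tr (y - η) N) (B := fun n => A n ∧ w n ≤ tr y n)
    fun n _ h4 h5 h6 => ⟨h6.1, h6.2.trans (h1 n h5 h4).1⟩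
  exact ⟨by linarith, h3⟩

/-- from thresholds at `n` to thresholds at `N` -/
theorem thr_bwd {A : ℕ → Prop} {w : ℕ → ℝ} {L : ℝ → ℝ} (hL : Continuous L)
    (h : ∀ y, Dn (fun n => A n ∧ w n ≤ tr y n) (L y)) (y : ℝ) :
    Tendsto (fun N : ℕ => cnt (fun n => A n ∧ w n ≤ tr y N) N / N) atTop (𝓝 (L y)) := by
  refine sandwich hL y fun η hη => ⟨_, _, h (y - η), h (y + η), ?_⟩
  filter_upwards [tr_comp (y - η) hη, tr_comp (y + η) hη, small_sqrt hη] with N h1 h1' h2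
  have h3 := div_beyond h2 (A := fun n => A n ∧ w n ≤ tr y N) (B := fun n => A n ∧ w n ≤ tr (y + η) n)
    fun n _ h4 h5 h6 => ⟨h6.1, h6.2.trans (by
      have := (h1' n h5 h4).1
      rwa [add_sub_cancel_right] at this)⟩
  have h4 := div_beyond h2 (A := fun n => A n ∧ w n ≤ tr (y - η) n) (B := fun n => A n ∧ w n ≤ tr y N)
    fun n _ h4 h5 h6 => ⟨h6.1, h6.2.trans (by
      have := (h1 n h5 h4).2
      rwa [sub_add_cancel] at this)⟩
  exact ⟨by linarith, h3⟩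

theorem ek_n (y : ℝ) : Dn (fun n => (n.primeFactors.card : ℝ) ≤ tr y n) (EK.Phi y) := by
  have h := RA_ek (RA_true (R := fun _ => True) fun _ => trivial) y
  rw [one_mul] at h
  refine Dn_iff (fun n _ => ?_) h
  unfold tr
  tauto

theorem om_two (n : ℕ) (hn : 1 ≤ n) : n.primeFactors.card ≤ (2 * n).primeFactors.card ∧
    (2 * n).primeFactors.card ≤ n.primeFactors.card + 1 := by
  rw [Nat.primeFactors_mul (by norm_num) (by omega)]
  constructor
  · exact card_le_card subset_union_right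
  · refine (card_union_le _ _).trans ?_
    rw [Nat.Prime.primeFactors Nat.prime_two, card_singleton]
    omega

/-- the theorem of Erdős and Kac for odd integers -/
theorem ek_odd (y : ℝ) : Dn (fun n => n % 2 = 1 ∧ (n.primeFactors.card : ℝ) ≤ tr y n) (EK.Phi y / 2) := by
  refine Pool.Agent.H499R2.HL.dn_odd (ek_n y) ?_
  refine sandwich EKPhi_cont y fun η hη => ⟨_, _, ek_n (y - η), ek_n (y + η), ?_⟩
  -- the thresholds at `n` and `2 n`
  have tl : Tendsto (fun N : ℕ => Real.log N) atTop atTop :=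
    Real.tendsto_log_atTop.comp tendsto_natCast_atTop_atTop
  have tll : Tendsto (fun N : ℕ => Real.log (Real.log N)) atTop atTop := Real.tendsto_log_atTop.comp tl
  have ts : Tendsto (fun N : ℕ => Real.sqrt (Real.log (Real.log N))) atTop atTop :=
    Real.tendsto_sqrt_atTop.comp tll
  have hev : ∀ᶠ n : ℕ in atTop, tr (y - η) n + 1 ≤ tr y (2 * n) ∧ tr y (2 * n) ≤ tr (y + η) n := by
    filter_upwards [tl.eventually_ge_atTop 2, tll.eventually_ge_atTop 2,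
      ts.eventually_ge_atTop ((2 + |y|) * 1 / η), eventually_ge_atTop 1] with n g1 g2 g3 g5
    have hn0 : (0 : ℝ) < n := by exact_mod_cast g5
    unfold tr
    push_cast
    rw [Real.log_mul (by norm_num) hn0.ne']
    set Λ := Real.log n with hΛ
    have l2 := Real.log_two_lt_d9
    have l2' := Real.log_two_gt_d9
    have h1 : Real.log (Real.log 2 + Λ) ≤ Real.log Λ + 1 := by
      have h2 : Real.log 2 + Λ ≤ 2 * Λ := by linarith
      have h3 := Real.log_le_log (by linarith) h2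
      rw [Real.log_mul (by norm_num) (by linarith)] at h3
      linarith
    have h2 : Real.log Λ ≤ Real.log (Real.log 2 + Λ) := Real.log_le_log (by linarith) (by linarith)
    set T := Real.log Λ with hT
    set T' := Real.log (Real.log 2 + Λ) with hT'
    set s := Real.sqrt T with hs
    have hs1 : 1 ≤ s := Real.one_le_sqrt.2 (by linarith)
    have hss : s * s = T := Real.mul_self_sqrt (by linarith)
    have hss' : Real.sqrt T' * Real.sqrt T' = T' := Real.mul_self_sqrt (by linarith)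
    have hsm : s ≤ Real.sqrt T' := Real.sqrt_le_sqrt h2
    have a10 : Real.sqrt T' - s ≤ 1 := by
      have : (Real.sqrt T' - s) * (Real.sqrt T' + s) ≤ 1 := by nlinarith
      nlinarith
    have b1 : |y * (Real.sqrt T' - s)| ≤ |y| := by
      rw [abs_mul, abs_of_nonneg (sub_nonneg.2 hsm)]
      exact mul_le_of_le_one_right (abs_nonneg _) a10
    obtain ⟨b2, b3⟩ := abs_le.1 b1
    rw [div_le_iff₀ hη] at g3
    constructor
    · nlinarith
    · nlinarith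
  obtain ⟨n0, hn0⟩ := eventually_atTop.1 hev
  have tq : Tendsto (fun N : ℕ => Real.sqrt N) atTop atTop :=
    Real.tendsto_sqrt_atTop.comp tendsto_natCast_atTop_atTop
  filter_upwards [small_sqrt hη, tq.eventually_ge_atTop (n0 : ℝ)] with N h2 h3
  have hlarge : ∀ n : ℕ, Real.sqrt N < n → n0 ≤ n := by
    intro n hn
    have : (n0 : ℝ) < n := lt_of_le_of_lt h3 hn
    exact_mod_cast this.le
  have h4 := div_beyond h2 (A := fun n => ((2 * n).primeFactors.card : ℝ) ≤ tr y (2 * n))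
    (B := fun n => (n.primeFactors.card : ℝ) ≤ tr (y + η) n) fun n h1 _ h5 h6 => by
      have h7 : (n.primeFactors.card : ℝ) ≤ (2 * n).primeFactors.card := by exact_mod_cast (om_two n h1).1
      exact h7.trans (h6.trans (hn0 n (hlarge n h5)).2)
  have h5 := div_beyond h2 (B := fun n => ((2 * n).primeFactors.card : ℝ) ≤ tr y (2 * n))
    (A := fun n => (n.primeFactors.card : ℝ) ≤ tr (y - η) n) fun n h1 _ h5 h6 => by
      have h7 : ((2 * n).primeFactors.card : ℝ) ≤ n.primeFactors.card + 1 := by exact_mod_cast (om_two n h1).2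
      have h8 := (hn0 n (hlarge n h5)).1
      linarith
  exact ⟨by linarith, h4⟩

/-- the law for majorants supported on the odd integers -/
theorem AO_full {P P' : ℕ → Prop} {l : ℝ} (hP' : RA P' l) (n0 : ℕ)
    (hiff : ∀ n, n0 ≤ n → Odd n → (P' n ↔ P n)) (d : ℕ) (c : ℝ) (x₀ : ℕ) (ε : ℝ) (Q r : ℕ) (hc : 0 < c)
    (hε : 0 < ε) (hQ : 1 ≤ Q) (hr : r.Coprime Q) : ∃ N₀ : ℕ, ∀ N : ℕ, N₀ ≤ N →
      ∀ h : ArithmeticFunction ℝ, h.IsMultiplicative → (∀ n, 0 ≤ h n ∧ h n ≤ 1) → (∀ n, Even n → h n = 0) →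
      (∀ x : ℕ, x₀ ≤ x → c * (x / Real.log x) ≤ ∑ p ∈ (Icc 1 x).filter Nat.Prime, h p) →
      ∀ g : ArithmeticFunction ℂ, g.IsMultiplicative → (∀ n, ‖g n‖ ≤ h n) →
      ∀ f : Fin d → ℕ → ℝ, (∀ j, ∀ m n : ℕ, m.Coprime n → f j (m * n) = f j m + f j n) →
      ∀ J : Fin d → Set ℝ, (∀ j, (J j).OrdConnected) →
      ‖∑ n ∈ (Icc 1 N).filter (fun n => n % Q = r % Q ∧ (∀ j, f j n ∈ J j) ∧ P n), g n -
        l * ∑ n ∈ (Icc 1 N).filter (fun n => n % Q = r % Q ∧ ∀ j, f j n ∈ J j), g n‖ ≤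
        ε * ∑ n ∈ Icc 1 N, h n := by
  have h2 : RA (fun n => (Odd n ∧ P n) ∨ (¬ Odd n ∧ P' n)) l := by
    refine RA_congr n0 (fun n hn => ?_) hP'
    by_cases ho : Odd n
    · have := hiff n hn ho
      tauto
    · tauto
  obtain ⟨N0, h0⟩ := RA_full h2 d c x₀ ε Q r hc hε hQ hr
  refine ⟨N0, fun N hN h hfm hf01 hfe hfp g hgm hg f hf J hJ => ?_⟩
  have h1 := h0 N hN h hfm hf01 hfp g hgm hg f hf J hJ
  have e : ∑ n ∈ (Icc 1 N).filter (fun n => n % Q = r % Q ∧ (∀ j, f j n ∈ J j) ∧ P n), g n =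
      ∑ n ∈ (Icc 1 N).filter (fun n => n % Q = r % Q ∧ (∀ j, f j n ∈ J j) ∧
        ((Odd n ∧ P n) ∨ (¬ Odd n ∧ P' n))), g n := by
    rw [sum_filter, sum_filter]
    apply sum_congr rfl
    intro n _
    by_cases ho : Odd n
    · have : (n % Q = r % Q ∧ (∀ j, f j n ∈ J j) ∧ P n) ↔
          (n % Q = r % Q ∧ (∀ j, f j n ∈ J j) ∧ ((Odd n ∧ P n) ∨ (¬ Odd n ∧ P' n))) := by tauto
      simp only [this]
    · have hg0 : g n = 0 := by
        have h3 := hg n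
        rw [hfe n (Nat.not_odd_iff_even.1 ho)] at h3
        exact norm_eq_zero.1 (le_antisymm h3 (norm_nonneg _))
      rw [hg0]; simp
  rw [e]
  convert h1

/-- sets of odd integers -/
theorem AO_sets {P P' : ℕ → Prop} {l : ℝ} (hP' : RA P' l) (n0 : ℕ)
    (hiff : ∀ n, n0 ≤ n → Odd n → (P' n ↔ P n)) (d : ℕ) (c : ℝ) (x₀ : ℕ) (ε : ℝ) (Q r : ℕ) (hc : 0 < c)
    (hε : 0 < ε) (hQ : 1 ≤ Q) (hr : r.Coprime Q) : ∃ N₀ : ℕ, ∀ N : ℕ, N₀ ≤ N → ∀ E : Set ℕ,
      ((∀ n ∈ E, Odd n) ∧ 1 ∈ E ∧ ∀ m n : ℕ, m.Coprime n → (m * n ∈ E ↔ m ∈ E ∧ n ∈ E)) →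
      (∀ x : ℕ, x₀ ≤ x → c * (x / Real.log x) ≤ {p : ℕ | p.Prime ∧ p ≤ x ∧ p ∈ E}.ncard) →
      ∀ f : Fin d → ℕ → ℝ, (∀ j, ∀ m n : ℕ, m.Coprime n → f j (m * n) = f j m + f j n) →
      ∀ J : Fin d → Set ℝ, (∀ j, (J j).OrdConnected) →
      |({n : ℕ | n ≤ N ∧ n ∈ E ∧ n % Q = r % Q ∧ (∀ j, f j n ∈ J j) ∧ P n}.ncard : ℝ) -
        l * {n : ℕ | n ≤ N ∧ n ∈ E ∧ n % Q = r % Q ∧ ∀ j, f j n ∈ J j}.ncard| ≤
        ε * {n : ℕ | n ≤ N ∧ n ∈ E}.ncard := by
  have h2 : RA (fun n => (Odd n ∧ P n) ∨ (¬ Odd n ∧ P' n)) l := by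
    refine RA_congr n0 (fun n hn => ?_) hP'
    by_cases ho : Odd n
    · have := hiff n hn ho
      tauto
    · tauto
  obtain ⟨N0, h0⟩ := RA_sets h2 d c x₀ ε Q r hc hε hQ hr
  refine ⟨N0, fun N hN E hE hEp f hf J hJ => ?_⟩
  have h1 := h0 N hN E ⟨fun h => by have := hE.1 0 h; exact absurd this (by decide), hE.2⟩ hEp f hf J hJ
  have e : {n : ℕ | n ≤ N ∧ n ∈ E ∧ n % Q = r % Q ∧ (∀ j, f j n ∈ J j) ∧ P n} =
      {n : ℕ | n ≤ N ∧ n ∈ E ∧ n % Q = r % Q ∧ (∀ j, f j n ∈ J j) ∧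
        ((Odd n ∧ P n) ∨ (¬ Odd n ∧ P' n))} := by
    ext n
    simp only [Set.mem_ofPred_eq]
    constructor
    · rintro ⟨a1, a2, a3, a4, a5⟩
      exact ⟨a1, a2, a3, a4, Or.inl ⟨hE.1 n a2, a5⟩⟩
    · rintro ⟨a1, a2, a3, a4, a5⟩
      rcases a5 with a5 | a5
      · exact ⟨a1, a2, a3, a4, a5.2⟩
      · exact absurd (hE.1 n a2) a5.1
  rw [e]
  exact h1

/-- all odd integers -/
theorem AO_nat {P P' : ℕ → Prop} {l : ℝ} (hP' : RA P' l) (n0 : ℕ)
    (hiff : ∀ n, n0 ≤ n → Odd n → (P' n ↔ P n)) (d : ℕ) {ε : ℝ} (hε : 0 < ε) :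
    ∃ N₀ : ℕ, ∀ N : ℕ, N₀ ≤ N →
      ∀ f : Fin d → ℕ → ℝ, (∀ j, ∀ m n : ℕ, m.Coprime n → f j (m * n) = f j m + f j n) →
      ∀ J : Fin d → Set ℝ, (∀ j, (J j).OrdConnected) →
      |cnt (fun n => n % 2 = 1 ∧ (∀ j, f j n ∈ J j) ∧ P n) N - l * cnt (fun n => n % 2 = 1 ∧ ∀ j, f j n ∈ J j) N|
        ≤ ε * N := by
  obtain ⟨c, hc, x0, hx0⟩ := Pool.Agent.Y964.SE.thick_ap (q := 2) (a := 1) (by norm_num) (by norm_num)
  obtain ⟨N0, h0⟩ := AO_sets hP' n0 hiff d c x0 ε 1 1 hc hε le_rfl (by norm_num)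
  refine ⟨N0, fun N hN f hf J hJ => ?_⟩
  have h1 := h0 N hN {n | Odd n} ⟨fun n hn => hn, odd_one, fun m n _ => Nat.odd_mul⟩ (fun x hx => by
    refine (hx0 x hx).trans (le_of_eq ?_)
    have e : {p : ℕ | p.Prime ∧ p ≤ x ∧ p ∈ {n : ℕ | Odd n}} =
        ((Icc 1 x).filter (fun p => p.Prime ∧ p % 2 = 1 % 2) : Finset ℕ) := by
      ext p
      rw [mem_coe, mem_filter, mem_Icc]
      simp only [Set.mem_ofPred_eq, Nat.odd_iff]
      constructor
      · rintro ⟨a1, a2, a3⟩; exact ⟨⟨a1.one_lt.le, a2⟩, a1, by omega⟩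
      · rintro ⟨⟨a1, a2⟩, a3, a4⟩; exact ⟨a3, a2, by omega⟩
    rw [e, Set.ncard_coe_finset]) f hf J hJ
  have e1 : {n : ℕ | n ≤ N ∧ n ∈ {n : ℕ | Odd n} ∧ n % 1 = 1 % 1 ∧ (∀ j, f j n ∈ J j) ∧ P n} =
      {n : ℕ | 1 ≤ n ∧ n ≤ N ∧ (n % 2 = 1 ∧ (∀ j, f j n ∈ J j) ∧ P n)} := by
    ext n
    simp only [Set.mem_ofPred_eq, Nat.mod_one, true_and, Nat.odd_iff]
    constructor
    · rintro ⟨a1, a2, a3⟩; exact ⟨by omega, a1, a2, a3⟩
    · rintro ⟨a1, a2, a3, a4⟩; exact ⟨a2, a3, a4⟩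
  have e2 : {n : ℕ | n ≤ N ∧ n ∈ {n : ℕ | Odd n} ∧ n % 1 = 1 % 1 ∧ ∀ j, f j n ∈ J j} =
      {n : ℕ | 1 ≤ n ∧ n ≤ N ∧ (n % 2 = 1 ∧ ∀ j, f j n ∈ J j)} := by
    ext n
    simp only [Set.mem_ofPred_eq, Nat.mod_one, true_and, Nat.odd_iff]
    constructor
    · rintro ⟨a1, a2, a3⟩; exact ⟨by omega, a1, a2, a3⟩
    · rintro ⟨a1, a2, a3, a4⟩; exact ⟨a2, a3, a4⟩
  have e3 : (({n : ℕ | n ≤ N ∧ n ∈ {n : ℕ | Odd n}}.ncard : ℕ) : ℝ) ≤ N := by
    have : {n : ℕ | n ≤ N ∧ n ∈ {n : ℕ | Odd n}} ⊆ ((Icc 1 N : Finset ℕ) : Set ℕ) := by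
      intro n hn
      rw [mem_coe, mem_Icc]
      simp only [Set.mem_ofPred_eq] at hn
      exact ⟨hn.2.pos, hn.1⟩
    have h3 := Set.ncard_le_ncard this (Finset.finite_toSet _)
    rw [Set.ncard_coe_finset, Nat.card_Icc, Nat.add_sub_cancel] at h3
    exact_mod_cast h3
  rw [e1, e2] at h1
  refine h1.trans (mul_le_mul_of_nonneg_left e3 hε.le)

/-- the joint law with the number of prime factors, for odd integers -/
theorem AO_ek {P P' : ℕ → Prop} {l : ℝ} (hP' : RA P' l) (n0 : ℕ)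
    (hiff : ∀ n, n0 ≤ n → Odd n → (P' n ↔ P n)) (y : ℝ) :
    Dn (fun n => (n % 2 = 1 ∧ P n) ∧ (n.primeFactors.card : ℝ) ≤ tr y n) (l * EK.Phi y / 2) := by
  refine thr_fwd (L := fun y => l * EK.Phi y / 2) ((continuous_const.mul EKPhi_cont).div_const 2) (fun y => ?_) y
  have h1 := (thr_bwd (A := fun n => n % 2 = 1) (w := fun n => (n.primeFactors.card : ℝ))
    (L := fun y => EK.Phi y / 2) (EKPhi_cont.div_const 2) ek_odd y).const_mul l
  have h2 : Tendsto (fun N : ℕ => cnt (fun n => (n % 2 = 1 ∧ P n) ∧ (n.primeFactors.card : ℝ) ≤ tr y N) N / N -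
      l * (cnt (fun n => n % 2 = 1 ∧ (n.primeFactors.card : ℝ) ≤ tr y N) N / N)) atTop (𝓝 0) := by
    rw [Metric.tendsto_atTop]
    intro ε hε
    obtain ⟨N0, h0⟩ := AO_nat hP' n0 hiff 1 (show 0 < ε / 2 by positivity)
    refine ⟨N0 + 1, fun N hN => ?_⟩
    have h3 := h0 N (by omega) (fun _ n => (n.primeFactors.card : ℝ)) (fun _ m n hmn => om_add m n hmn)
      (fun _ => Set.Iic (tr y N)) (fun _ => Set.ordConnected_Iic)
    have hN0 : (0 : ℝ) < N := by exact_mod_cast (by omega : 0 < N)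
    have e1 : cnt (fun n => n % 2 = 1 ∧ (∀ _ : Fin 1, (n.primeFactors.card : ℝ) ∈ Set.Iic (tr y N)) ∧ P n) N =
        cnt (fun n => (n % 2 = 1 ∧ P n) ∧ (n.primeFactors.card : ℝ) ≤ tr y N) N := by
      unfold cnt
      congr 2
      ext n
      simp only [Set.mem_ofPred_eq, Set.mem_Iic, forall_const]
      tauto
    have e2 : cnt (fun n => n % 2 = 1 ∧ ∀ _ : Fin 1, (n.primeFactors.card : ℝ) ∈ Set.Iic (tr y N)) N =
        cnt (fun n => n % 2 = 1 ∧ (n.primeFactors.card : ℝ) ≤ tr y N) N := by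
      unfold cnt
      congr 2
      ext n
      simp only [Set.mem_ofPred_eq, Set.mem_Iic, forall_const]
    rw [e1, e2] at h3
    rw [Real.dist_eq, sub_zero, ← mul_div_assoc, ← sub_div, abs_div, abs_of_pos hN0, div_lt_iff₀ hN0]
    refine lt_of_le_of_lt h3 ?_
    exact mul_lt_mul_of_pos_right (by linarith) hN0
  have h3 := h2.add h1
  rw [zero_add] at h3
  refine (h3.congr fun N => ?_).trans (le_of_eq ?_)
  · ring
  · congr 1
    ring

end Pool.Agent.X62.AD
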