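import Mathlib
import Pool.Agent.X62.AD.Odd

/-! The laws for the integers of sign `s`. -/

set_option autoImplicit false

namespace Pool.Agent.X62.AD

open Finset Filter Topology
open Pool.Agent.H499R2.ND (Dn cnt cnt_eq Inv)
open Pool.Agent.Y964.LW (HasD)
open scoped Classical

theorem side_dn {s : ℤ} (hs : s = 1 ∨ s = -1) {S : Set ℤ} {δ : ℝ} (h : Dn (fun n : ℕ => s * (n : ℤ) ∈ S) δ) :
    HasD s S δ := by
  have hss : s * s = 1 := by rcases hs with rfl | rfl <;> rfl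
  refine h.congr fun N => ?_
  unfold Pool.Agent.H499R2.ND.cnt
  congr 2
  have : {n : ℤ | 0 < s * n ∧ s * n ≤ N ∧ n ∈ S}
      = (fun n : ℕ => s * (n : ℤ)) '' {n : ℕ | 1 ≤ n ∧ n ≤ N ∧ s * (n : ℤ) ∈ S} := by
    ext x
    rw [Set.mem_image]
    constructor
    · rintro ⟨h1, h2, h3⟩
      have e : s * (((s * x).toNat : ℕ) : ℤ) = x := by
        rw [Int.toNat_of_nonneg h1.le, ← mul_assoc, hss, one_mul]
      refine ⟨(s * x).toNat, ⟨by omega, by omega, ?_⟩, e⟩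
      rw [e]; exact h3
    · rintro ⟨n, ⟨h1, h2, h3⟩, rfl⟩
      refine ⟨?_, ?_, h3⟩
      · rw [← mul_assoc, hss]; omega
      · rw [← mul_assoc, hss]; omega
  rw [this, Set.ncard_image_of_injective _ (fun a b hab => by
    have h5 : s * (s * (a : ℤ)) = s * (s * (b : ℤ)) := by rw [show s * (a : ℤ) = s * b from hab]
    rw [← mul_assoc, ← mul_assoc, hss, one_mul, one_mul] at h5
    exact_mod_cast h5)]

theorem natAbs_side {s : ℤ} (hs : s = 1 ∨ s = -1) (n : ℕ) : (s * (n : ℤ)).natAbs = n := by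
  rcases hs with rfl | rfl <;> simp

/-- positive frequency: every condition which holds often holds together with the property -/
theorem RA_hit {P : ℕ → Prop} {l : ℝ} (hP : RA P l) (hl : 0 < l) (d : ℕ) {κ : ℝ} (hκ : 0 < κ) :
    ∃ N₀ : ℕ, ∀ N : ℕ, N₀ ≤ N →
      ∀ f : Fin d → ℕ → ℝ, (∀ j, ∀ m n : ℕ, m.Coprime n → f j (m * n) = f j m + f j n) →
      ∀ J : Fin d → Set ℝ, (∀ j, (J j).OrdConnected) →
      κ * N ≤ ({n : ℕ | 1 ≤ n ∧ n ≤ N ∧ ∀ j, f j n ∈ J j}.ncard : ℝ) →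
      ∃ n : ℕ, 1 ≤ n ∧ n ≤ N ∧ (∀ j, f j n ∈ J j) ∧ P n := by
  obtain ⟨N0, h0⟩ := RA_nat hP d (show 0 < l * κ / 2 by positivity)
  refine ⟨N0 + 1, fun N hN f hf J hJ hc => ?_⟩
  have h1 := h0 N (by omega) f hf J hJ
  have hN0 : (0 : ℝ) < N := by exact_mod_cast (by omega : 0 < N)
  by_contra hcon
  push Not at hcon
  have h2 : cnt (fun n => (∀ j, f j n ∈ J j) ∧ P n) N = 0 := by
    rw [cnt_eq]
    have : (Icc 1 N).filter (fun n => (∀ j, f j n ∈ J j) ∧ P n) = ∅ := by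
      rw [filter_eq_empty_iff]
      intro n hn h3
      rw [mem_Icc] at hn
      exact hcon n hn.1 hn.2 h3.1 h3.2
    rw [this, card_empty, Nat.cast_zero]
  rw [h2, zero_sub, abs_neg] at h1
  have h3 : κ * N ≤ cnt (fun n => ∀ j, f j n ∈ J j) N := hc
  have h4 := mul_le_mul_of_nonneg_left h3 hl.le
  have h5 := (le_abs_self _).trans h1
  have h6 : 0 < l * κ * N := by positivity
  nlinarith

end Pool.Agent.X62.AD
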