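import Pool.Agent.X62.EK.Class
import Pool.Agent.Y964.LW.E5
import Pool.Agent.Y964.LW.C7

/-! The law of the maximum excursion with conditions on additive functions. -/

set_option autoImplicit false

namespace Pool.Agent.X62.AD

open Finset Filter Topology
open Pool.Agent.H499R2.ND (Bdd Bdd_inv Bdd_density Dn Tn cnt cnt_eq)
open Pool.Agent.H499R2.LT (Dn_iff)
open Pool.Agent.H828R3.Exc (PP)
open Pool.Agent.W36.SL (b b_pos b_lt_one s q s_sub_q q_le_s s_tendsto PP_mod)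
open Pool.Agent.Y964.LW (AbR SS Wt Wt_of law_sym sym_norm late_f set_weight card_safe SS_or SS_card)
open scoped Classical

theorem bdd_RA {β : ℝ} (hβ : Dn Bdd β) : RA Bdd β :=
  AbR_RA (R := 0) (fun n _ _ => Bdd_inv n) hβ

theorem cls_bdd {β : ℝ} (hβ : Dn Bdd β) (d : ℕ) {K : ℕ} (hK : 1 ≤ K) {c : ℝ} (hc : 0 < c) (x0 : ℕ) {ε : ℝ}
    (hε : 0 < ε) :
    ∃ N0 : ℕ, ∀ N : ℕ, N0 ≤ N → ∀ h : ArithmeticFunction ℝ, h.IsMultiplicative →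
      (∀ n, 0 ≤ h n ∧ h n ≤ 1) → (∀ n, Even n → h n = 0) →
      (∀ x : ℕ, x0 ≤ x → c * (x / Real.log x) ≤ ∑ p ∈ (Icc 1 x).filter Nat.Prime, h p) →
      ∀ g : ArithmeticFunction ℂ, g.IsMultiplicative → (∀ n, ‖g n‖ ≤ h n) →
      ∀ f : Fin d → ℕ → ℝ, (∀ j, ∀ m n : ℕ, m.Coprime n → f j (m * n) = f j m + f j n) →
      ∀ J : Fin d → Set ℝ, (∀ j, (J j).OrdConnected) → ∀ lam : ℝ,
      ‖∑ n ∈ (Icc 1 N).filter (fun n => (∀ j, f j n ∈ J j) ∧ Bdd n ∧ ¬ PP lam K n), g n -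
        β * ∑ n ∈ (Icc 1 N).filter (fun n => (∀ j, f j n ∈ J j) ∧ ¬ PP lam K n), g n‖ ≤
        ε * ∑ n ∈ Icc 1 N, h n := by
  have hQ : 1 ≤ 2 ^ K := Nat.one_le_two_pow
  have hq0 : (0 : ℝ) < 2 ^ K := by positivity
  have hex : ∀ a : ℕ, ∃ N₀ : ℕ, a % 2 = 1 → ∀ N : ℕ, N₀ ≤ N → ∀ h : ArithmeticFunction ℝ, h.IsMultiplicative →
      (∀ n, 0 ≤ h n ∧ h n ≤ 1) → (∀ n, Even n → h n = 0) →
      (∀ x : ℕ, x0 ≤ x → c * (x / Real.log x) ≤ ∑ p ∈ (Icc 1 x).filter Nat.Prime, h p) →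
      ∀ g : ArithmeticFunction ℂ, g.IsMultiplicative → (∀ n, ‖g n‖ ≤ h n) →
      ∀ f : Fin d → ℕ → ℝ, (∀ j, ∀ m n : ℕ, m.Coprime n → f j (m * n) = f j m + f j n) →
      ∀ J : Fin d → Set ℝ, (∀ j, (J j).OrdConnected) →
      ‖∑ n ∈ (Icc 1 N).filter (fun n => n % 2 ^ K = a % 2 ^ K ∧ (∀ j, f j n ∈ J j) ∧ Bdd n), g n -
        β * ∑ n ∈ (Icc 1 N).filter (fun n => n % 2 ^ K = a % 2 ^ K ∧ ∀ j, f j n ∈ J j), g n‖ ≤
        ε / 2 ^ K * ∑ n ∈ Icc 1 N, h n := by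
    intro a
    by_cases ha : a % 2 = 1
    · have hcop : Nat.Coprime a (2 ^ K) := by
        apply Nat.Coprime.pow_right
        rw [Nat.coprime_comm, Nat.Prime.coprime_iff_not_dvd Nat.prime_two]
        omega
      obtain ⟨N0, h0⟩ := AO_full (bdd_RA hβ) 0 (fun _ _ _ => Iff.rfl) d c x0 (ε / 2 ^ K) (2 ^ K) a hc (by positivity)
        hQ hcop
      exact ⟨N0, fun _ => h0⟩
    · exact ⟨0, fun h => absurd h ha⟩
  choose N0 hN0 using hex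
  refine ⟨(range (2 ^ K)).sup N0, fun N hN h hM h01 he hp g gM hg f hf J hJ lam => ?_⟩
  have hT : 0 ≤ ∑ n ∈ Icc 1 N, h n := sum_nonneg fun n _ => (h01 n).1
  set G : ℕ → ℂ := fun n => if ∀ j, f j n ∈ J j then g n else 0 with hG
  set F : ℕ → ℂ := fun n => (if Bdd n ∧ ¬ PP lam K n then G n else 0) - β * (if ¬ PP lam K n then G n else 0) with hF
  have e1 : ∑ n ∈ (Icc 1 N).filter (fun n => (∀ j, f j n ∈ J j) ∧ Bdd n ∧ ¬ PP lam K n), g n -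
      β * ∑ n ∈ (Icc 1 N).filter (fun n => (∀ j, f j n ∈ J j) ∧ ¬ PP lam K n), g n = ∑ n ∈ Icc 1 N, F n := by
    rw [sum_filter, sum_filter, mul_sum, ← sum_sub_distrib]
    apply sum_congr rfl
    intro n _
    simp only [hF, hG]
    by_cases a1 : ∀ j, f j n ∈ J j
    · have h1 : ((∀ j, f j n ∈ J j) ∧ Bdd n ∧ ¬ PP lam K n) ↔ (Bdd n ∧ ¬ PP lam K n) := and_iff_right a1
      have h2 : ((∀ j, f j n ∈ J j) ∧ ¬ PP lam K n) ↔ ¬ PP lam K n := and_iff_right a1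
      simp only [h1, h2, if_pos a1]
    · rw [if_neg (fun h => a1 h.1), if_neg (fun h => a1 h.1), if_neg a1]
      simp
  have e2 : ∑ n ∈ Icc 1 N, F n = ∑ a ∈ range (2 ^ K), ∑ n ∈ (Icc 1 N).filter (fun n => n % 2 ^ K = a), F n :=
    (sum_fiberwise_of_maps_to (fun n _ => mem_range.2 (Nat.mod_lt _ (by positivity))) _).symm
  rw [e1, e2]
  refine (norm_sum_le _ _).trans ?_
  have e3 : ∀ a ∈ range (2 ^ K), ‖∑ n ∈ (Icc 1 N).filter (fun n => n % 2 ^ K = a), F n‖ ≤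
      ε / 2 ^ K * ∑ n ∈ Icc 1 N, h n := by
    intro a ha
    have ha' := mem_range.1 ha
    by_cases ha2 : a % 2 = 1
    · by_cases hP : PP lam K a
      · have : ∑ n ∈ (Icc 1 N).filter (fun n => n % 2 ^ K = a), F n = 0 := by
          apply sum_eq_zero
          intro n hn
          rw [mem_filter] at hn
          have h4 : PP lam K n := by rw [← PP_mod, hn.2]; exact hP
          simp only [hF]
          rw [if_neg (fun h5 => h5.2 h4), if_neg (not_not.2 h4)]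
          simp
        rw [this, norm_zero]
        positivity
      · have h5 := hN0 a ha2 N ((Finset.le_sup (f := N0) ha).trans hN) h hM h01 he hp g gM hg f hf J hJ
        rw [Nat.mod_eq_of_lt ha'] at h5
        refine le_trans (le_of_eq ?_) h5
        congr 1
        have e4 : ∑ n ∈ (Icc 1 N).filter (fun n => n % 2 ^ K = a ∧ (∀ j, f j n ∈ J j) ∧ Bdd n), g n =
            ∑ n ∈ (Icc 1 N).filter (fun n => n % 2 ^ K = a), (if Bdd n then G n else 0) := by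
          rw [← filter_filter, sum_filter]
          apply sum_congr rfl
          intro n _
          simp only [hG]
          by_cases a1 : ∀ j, f j n ∈ J j <;> by_cases a2 : Bdd n
          · rw [if_pos ⟨a1, a2⟩, if_pos a2, if_pos a1]
          · rw [if_neg (fun h => a2 h.2), if_neg a2]
          · rw [if_neg (fun h => a1 h.1), if_pos a2, if_neg a1]
          · rw [if_neg (fun h => a1 h.1), if_neg a2]
        have e5 : ∑ n ∈ (Icc 1 N).filter (fun n => n % 2 ^ K = a ∧ ∀ j, f j n ∈ J j), g n =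
            ∑ n ∈ (Icc 1 N).filter (fun n => n % 2 ^ K = a), G n := by
          rw [← filter_filter, sum_filter]
        rw [e4, e5, mul_sum, ← sum_sub_distrib]
        apply sum_congr rfl
        intro n hn
        rw [mem_filter] at hn
        have h4 : ¬ PP lam K n := by rw [← PP_mod, hn.2]; exact hP
        simp only [hF]
        by_cases hb : Bdd n
        · rw [if_pos ⟨hb, h4⟩, if_pos h4, if_pos hb]
        · rw [if_neg (fun h5 => hb h5.1), if_pos h4, if_neg hb]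
    · have : ∑ n ∈ (Icc 1 N).filter (fun n => n % 2 ^ K = a), F n = 0 := by
        apply sum_eq_zero
        intro n hn
        rw [mem_filter] at hn
        have h6 : n % 2 = a % 2 := by
          rw [← Nat.mod_mod_of_dvd n (dvd_pow_self 2 (show K ≠ 0 by omega)), hn.2]
        have hg0 : g n = 0 := by
          have h3 := hg n
          rw [he n (Nat.even_iff.2 (by omega))] at h3
          exact norm_eq_zero.1 (le_antisymm h3 (norm_nonneg _))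
        simp only [hF, hG, hg0]
        simp
      rw [this, norm_zero]
      positivity
  refine (sum_le_sum e3).trans (le_of_eq ?_)
  rw [sum_const, card_range, nsmul_eq_mul]
  push_cast
  field_simp

theorem sym_norm' {h : ℕ → ℝ} {g : ℕ → ℂ} (h0 : ∀ n, 0 ≤ h n) (hg : ∀ n, ‖g n‖ ≤ h n) (N : ℕ) (A P Q : ℕ → Prop) :
    ‖∑ n ∈ (Icc 1 N).filter (fun n => A n ∧ P n), g n - ∑ n ∈ (Icc 1 N).filter (fun n => A n ∧ Q n), g n‖ ≤
      SS h N (fun n => ¬ (P n ↔ Q n)) := by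
  refine le_trans (le_of_eq ?_) ((sym_norm h0 hg N (fun n => A n ∧ P n) (fun n => A n ∧ Q n)).trans ?_)
  · congr!
  unfold SS
  apply sum_le_sum
  intro n _
  by_cases h1 : P n ↔ Q n
  · rw [if_neg (not_not.2 h1), if_neg (not_not.2 (by rw [h1]))]
  · rw [if_pos h1]
    split_ifs
    · exact le_rfl
    · exact h0 n

/-- THE LAW OF THE MAXIMUM EXCURSION -/
theorem exc_law {β : ℝ} (hβ : Dn Bdd β) {c : ℝ} (hc : 0 < c) (x0 : ℕ) : ∃ C : ℝ, 0 < C ∧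
    ∀ (d : ℕ) (lam : ℝ), 1 < lam → ∀ (K : ℕ) (ε : ℝ), 1 ≤ K → 0 < ε → ∃ N0 : ℕ, ∀ N : ℕ, N0 ≤ N →
      ∀ h : ArithmeticFunction ℝ, h.IsMultiplicative →
      (∀ n, 0 ≤ h n ∧ h n ≤ 1) → (∀ n, Even n → h n = 0) →
      (∀ x : ℕ, x0 ≤ x → c * (x / Real.log x) ≤ ∑ p ∈ (Icc 1 x).filter Nat.Prime, h p) →
      ∀ g : ArithmeticFunction ℂ, g.IsMultiplicative → (∀ n, ‖g n‖ ≤ h n) →
      ∀ f : Fin d → ℕ → ℝ, (∀ j, ∀ m n : ℕ, m.Coprime n → f j (m * n) = f j m + f j n) →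
      ∀ J : Fin d → Set ℝ, (∀ j, (J j).OrdConnected) →
      ‖∑ n ∈ (Icc 1 N).filter (fun n => (∀ j, f j n ∈ J j) ∧ ∀ k, ((Tn^[k] n : ℕ) : ℝ) ≤ lam * n), g n -
        β * ∑ n ∈ (Icc 1 N).filter (fun n => (∀ j, f j n ∈ J j) ∧ ¬ PP lam K n), g n‖ ≤
        (C * b ^ K + ε) * ∑ n ∈ Icc 1 N, h n := by
  obtain ⟨C, hC, h1⟩ := law_sym hβ hc x0
  refine ⟨C, hC, fun d lam hlam K ε hK hε => ?_⟩
  obtain ⟨N1, h2⟩ := h1 lam hlam K (ε / 2) (by positivity)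
  obtain ⟨N2, h3⟩ := cls_bdd hβ d hK hc x0 (show 0 < ε / 2 by positivity)
  refine ⟨max N1 N2, fun N hN h hM h01 he hp g gM hg f hf J hJ => ?_⟩
  have w := Wt_of hM h01 he hp
  have g1 := h2 N (by omega) h w
  have g2 := h3 N (by omega) h hM h01 he hp g gM hg f hf J hJ lam
  have g3 := sym_norm' w.nn hg N (fun n => ∀ j, f j n ∈ J j) (fun n => ∀ k, ((Tn^[k] n : ℕ) : ℝ) ≤ lam * n)
    (fun n => Bdd n ∧ ¬ PP lam K n)
  have e : ∑ n ∈ (Icc 1 N).filter (fun n => (∀ j, f j n ∈ J j) ∧ ∀ k, ((Tn^[k] n : ℕ) : ℝ) ≤ lam * n), g n -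
        β * ∑ n ∈ (Icc 1 N).filter (fun n => (∀ j, f j n ∈ J j) ∧ ¬ PP lam K n), g n =
      (∑ n ∈ (Icc 1 N).filter (fun n => (∀ j, f j n ∈ J j) ∧ ∀ k, ((Tn^[k] n : ℕ) : ℝ) ≤ lam * n), g n -
        ∑ n ∈ (Icc 1 N).filter (fun n => (∀ j, f j n ∈ J j) ∧ Bdd n ∧ ¬ PP lam K n), g n) +
      (∑ n ∈ (Icc 1 N).filter (fun n => (∀ j, f j n ∈ J j) ∧ Bdd n ∧ ¬ PP lam K n), g n -
        β * ∑ n ∈ (Icc 1 N).filter (fun n => (∀ j, f j n ∈ J j) ∧ ¬ PP lam K n), g n) := by ring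
  rw [e]
  refine (norm_add_le _ _).trans ?_
  have e2 : (C * b ^ K + ε) * ∑ n ∈ Icc 1 N, h n = (C * b ^ K + ε / 2) * Pool.Agent.Y964.LW.TT h N +
      ε / 2 * ∑ n ∈ Icc 1 N, h n := by
    unfold Pool.Agent.Y964.LW.TT; ring
  rw [e2]
  refine add_le_add (le_trans (le_of_eq ?_) (g3.trans g1)) g2
  congr!

/-- excursions up to `ψ n * n` -/
theorem exc_large {β : ℝ} (hβ : Dn Bdd β) (d : ℕ) {c : ℝ} (hc : 0 < c) (x0 : ℕ) {ψ : ℕ → ℝ}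
    (hψ : Tendsto ψ atTop atTop) {ε : ℝ} (hε : 0 < ε) {Q r : ℕ} (hQ : 1 ≤ Q) (hr : r.Coprime Q) :
    ∃ N0 : ℕ, ∀ N : ℕ, N0 ≤ N →
      ∀ h : ArithmeticFunction ℝ, h.IsMultiplicative →
      (∀ n, 0 ≤ h n ∧ h n ≤ 1) → (∀ n, Even n → h n = 0) →
      (∀ x : ℕ, x0 ≤ x → c * (x / Real.log x) ≤ ∑ p ∈ (Icc 1 x).filter Nat.Prime, h p) →
      ∀ g : ArithmeticFunction ℂ, g.IsMultiplicative → (∀ n, ‖g n‖ ≤ h n) →
      ∀ f : Fin d → ℕ → ℝ, (∀ j, ∀ m n : ℕ, m.Coprime n → f j (m * n) = f j m + f j n) →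
      ∀ J : Fin d → Set ℝ, (∀ j, (J j).OrdConnected) →
      ‖∑ n ∈ (Icc 1 N).filter (fun n => n % Q = r % Q ∧ (∀ j, f j n ∈ J j) ∧
          ∀ k, ((Tn^[k] n : ℕ) : ℝ) ≤ ψ n * n), g n -
        β * ∑ n ∈ (Icc 1 N).filter (fun n => n % Q = r % Q ∧ ∀ j, f j n ∈ J j), g n‖ ≤
        ε * ∑ n ∈ Icc 1 N, h n := by
  obtain ⟨N1, h1⟩ := late_f hβ hc x0 hψ (show 0 < ε / 2 by positivity)
  obtain ⟨N2, h2⟩ := AO_full (bdd_RA hβ) 0 (fun _ _ _ => Iff.rfl) d c x0 (ε / 2) Q r hc (by positivity) hQ hr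
  refine ⟨max N1 N2, fun N hN h hM h01 he hp g gM hg f hf J hJ => ?_⟩
  have w := Wt_of hM h01 he hp
  have g1 := h1 N (by omega) h w
  have g2 := h2 N (by omega) h hM h01 he hp g gM hg f hf J hJ
  have g3 := sym_norm' w.nn hg N (fun n => n % Q = r % Q ∧ ∀ j, f j n ∈ J j)
    (fun n => ∀ k, ((Tn^[k] n : ℕ) : ℝ) ≤ ψ n * n) Bdd
  have g4 : SS h N (fun n => ¬ ((∀ k, ((Tn^[k] n : ℕ) : ℝ) ≤ ψ n * n) ↔ Bdd n)) ≤
      SS h N (fun n => Bdd n ∧ ∃ k, ψ n * n < ((Tn^[k] n : ℕ) : ℝ)) := by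
    unfold SS
    apply sum_le_sum
    intro n _
    by_cases a1 : ¬ ((∀ k, ((Tn^[k] n : ℕ) : ℝ) ≤ ψ n * n) ↔ Bdd n)
    · rw [if_pos a1]
      by_cases a2 : ∀ k, ((Tn^[k] n : ℕ) : ℝ) ≤ ψ n * n
      · exact absurd ⟨fun _ => ⟨⌊ψ n * n⌋₊, fun k => Nat.le_floor (a2 k)⟩, fun _ => a2⟩ a1
      · have a3 : Bdd n := by
          by_contra a4
          exact a1 ⟨fun h => absurd h a2, fun h => absurd h a4⟩
        push Not at a2
        rw [if_pos ⟨a3, a2⟩]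
    · rw [if_neg a1]
      split_ifs
      · exact w.nn n
      · exact le_rfl
  simp only [and_assoc] at g3
  have e : ∑ n ∈ (Icc 1 N).filter (fun n => n % Q = r % Q ∧ (∀ j, f j n ∈ J j) ∧
          ∀ k, ((Tn^[k] n : ℕ) : ℝ) ≤ ψ n * n), g n -
        β * ∑ n ∈ (Icc 1 N).filter (fun n => n % Q = r % Q ∧ ∀ j, f j n ∈ J j), g n =
      (∑ n ∈ (Icc 1 N).filter (fun n => n % Q = r % Q ∧ (∀ j, f j n ∈ J j) ∧
          ∀ k, ((Tn^[k] n : ℕ) : ℝ) ≤ ψ n * n), g n -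
        ∑ n ∈ (Icc 1 N).filter (fun n => n % Q = r % Q ∧ (∀ j, f j n ∈ J j) ∧ Bdd n), g n) +
      (∑ n ∈ (Icc 1 N).filter (fun n => n % Q = r % Q ∧ (∀ j, f j n ∈ J j) ∧ Bdd n), g n -
        β * ∑ n ∈ (Icc 1 N).filter (fun n => n % Q = r % Q ∧ ∀ j, f j n ∈ J j), g n) := by ring
  rw [e]
  refine (norm_add_le _ _).trans ?_
  have g5 : SS h N (fun n => Bdd n ∧ ∃ k, ψ n * n < ((Tn^[k] n : ℕ) : ℝ)) ≤ ε / 2 * ∑ n ∈ Icc 1 N, h n := g1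
  have e3 : ε * ∑ n ∈ Icc 1 N, h n = ε / 2 * ∑ n ∈ Icc 1 N, h n + ε / 2 * ∑ n ∈ Icc 1 N, h n := by ring
  rw [e3]
  exact add_le_add (g3.trans (g4.trans g5)) g2

/-- the counting form -/
theorem exc_set {β : ℝ} (hβ : Dn Bdd β) {c : ℝ} (hc : 0 < c) (x0 : ℕ) : ∃ C : ℝ, 0 < C ∧
    ∀ (d : ℕ) (lam : ℝ), 1 < lam → ∀ (K : ℕ) (ε : ℝ), 1 ≤ K → 0 < ε → ∃ N0 : ℕ, ∀ N : ℕ, N0 ≤ N → ∀ E : Set ℕ,
      (0 ∉ E ∧ 1 ∈ E ∧ ∀ m n : ℕ, m.Coprime n → (m * n ∈ E ↔ m ∈ E ∧ n ∈ E)) → (∀ n ∈ E, Odd n) →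
      (∀ x : ℕ, x0 ≤ x → c * (x / Real.log x) ≤ {p : ℕ | p.Prime ∧ p ≤ x ∧ p ∈ E}.ncard) →
      ∀ f : Fin d → ℕ → ℝ, (∀ j, ∀ m n : ℕ, m.Coprime n → f j (m * n) = f j m + f j n) →
      ∀ J : Fin d → Set ℝ, (∀ j, (J j).OrdConnected) →
      |({n : ℕ | n ≤ N ∧ n ∈ E ∧ (∀ j, f j n ∈ J j) ∧ ∀ k, ((Tn^[k] n : ℕ) : ℝ) ≤ lam * n}.ncard : ℝ) -
        β * {n : ℕ | n ≤ N ∧ n ∈ E ∧ (∀ j, f j n ∈ J j) ∧ ¬ PP lam K n}.ncard| ≤
        (C * b ^ K + ε) * {n : ℕ | n ≤ N ∧ n ∈ E}.ncard := by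
  obtain ⟨C, hC, h1⟩ := exc_law hβ hc x0
  refine ⟨C, hC, fun d lam hlam K ε hK hε => ?_⟩
  obtain ⟨N0, h0⟩ := h1 d lam hlam K ε hK hε
  refine ⟨N0, fun N hN E hE ho hp f hf J hJ => ?_⟩
  obtain ⟨h, g, hv, gv, hM, gM, h01, hg, hyp, cntE, cnt0⟩ := set_weight hE hp
  have h1 := h0 N hN h hM h01 (fun n hn => by
    rw [hv, if_neg]
    intro h3
    exact (Nat.not_odd_iff_even.2 hn) (ho n h3)) hyp g gM hg f hf J hJ
  rw [cntE N (fun n => (∀ j, f j n ∈ J j) ∧ ∀ k, ((Tn^[k] n : ℕ) : ℝ) ≤ lam * n),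
    cntE N (fun n => (∀ j, f j n ∈ J j) ∧ ¬ PP lam K n), cnt0]
  have e4 : ∑ n ∈ (Icc 1 N).filter (fun n => (∀ j, f j n ∈ J j) ∧ ∀ k, ((Tn^[k] n : ℕ) : ℝ) ≤ lam * n), g n -
        β * ∑ n ∈ (Icc 1 N).filter (fun n => (∀ j, f j n ∈ J j) ∧ ¬ PP lam K n), g n =
      ((∑ n ∈ (Icc 1 N).filter (fun n => (∀ j, f j n ∈ J j) ∧ ∀ k, ((Tn^[k] n : ℕ) : ℝ) ≤ lam * n), h n -
        β * ∑ n ∈ (Icc 1 N).filter (fun n => (∀ j, f j n ∈ J j) ∧ ¬ PP lam K n), h n : ℝ) : ℂ) := by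
    simp only [gv]
    push_cast
    rfl
  rw [e4, Complex.norm_real, Real.norm_eq_abs] at h1
  convert h1

/-- all odd integers -/
theorem exc_nat {β : ℝ} (hβ : Dn Bdd β) : ∃ C : ℝ, 0 < C ∧
    ∀ (d : ℕ) (lam : ℝ), 1 < lam → ∀ (K : ℕ) (ε : ℝ), 1 ≤ K → 0 < ε → ∃ N0 : ℕ, ∀ N : ℕ, N0 ≤ N →
      ∀ f : Fin d → ℕ → ℝ, (∀ j, ∀ m n : ℕ, m.Coprime n → f j (m * n) = f j m + f j n) →
      ∀ J : Fin d → Set ℝ, (∀ j, (J j).OrdConnected) →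
      |cnt (fun n => n % 2 = 1 ∧ (∀ j, f j n ∈ J j) ∧ ∀ k, ((Tn^[k] n : ℕ) : ℝ) ≤ lam * n) N -
        β * cnt (fun n => n % 2 = 1 ∧ (∀ j, f j n ∈ J j) ∧ ¬ PP lam K n) N| ≤ (C * b ^ K + ε) * N := by
  obtain ⟨c, hc, x0, hx0⟩ := Pool.Agent.Y964.SE.thick_ap (q := 2) (a := 1) (by norm_num) (by norm_num)
  obtain ⟨C, hC, h1⟩ := exc_set hβ hc x0
  refine ⟨C, hC, fun d lam hlam K ε hK hε => ?_⟩
  obtain ⟨N0, h0⟩ := h1 d lam hlam K ε hK hε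
  refine ⟨N0, fun N hN f hf J hJ => ?_⟩
  have h1 := h0 N hN {n | Odd n} ⟨by simp, odd_one, fun m n _ => Nat.odd_mul⟩ (fun n hn => hn) (fun x hx => by
    refine (hx0 x hx).trans (le_of_eq ?_)
    have e : {p : ℕ | p.Prime ∧ p ≤ x ∧ p ∈ {n : ℕ | Odd n}} =
        ((Icc 1 x).filter (fun p => p.Prime ∧ p % 2 = 1 % 2) : Finset ℕ) := by
      ext p
      rw [mem_coe, mem_filter, mem_Icc]
      simp only [Set.mem_ofPred_eq, Nat.odd_iff]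
      constructor
      · rintro ⟨a1, a2, a3⟩; exact ⟨⟨a1.one_lt.le, a2⟩, a1, by omega⟩
      · rintro ⟨⟨a1, a2⟩, a3, a4⟩; exact ⟨a3, a2, by omega⟩
    rw [e, Set.ncard_coe_finset]) f hf J hJ
  have e1 : ∀ S : ℕ → Prop, {n : ℕ | n ≤ N ∧ n ∈ {n : ℕ | Odd n} ∧ S n} =
      {n : ℕ | 1 ≤ n ∧ n ≤ N ∧ (n % 2 = 1 ∧ S n)} := by
    intro S
    ext n
    simp only [Set.mem_ofPred_eq, Nat.odd_iff]
    constructor
    · rintro ⟨a1, a2, a3⟩; exact ⟨by omega, a1, a2, a3⟩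
    · rintro ⟨a1, a2, a3, a4⟩; exact ⟨a2, a3, a4⟩
  have e3 : (({n : ℕ | n ≤ N ∧ n ∈ {n : ℕ | Odd n}}.ncard : ℕ) : ℝ) ≤ N := by
    have : {n : ℕ | n ≤ N ∧ n ∈ {n : ℕ | Odd n}} ⊆ ((Icc 1 N : Finset ℕ) : Set ℕ) := by
      intro n hn
      rw [mem_coe, mem_Icc]
      simp only [Set.mem_ofPred_eq] at hn
      exact ⟨hn.2.pos, hn.1⟩
    have h3 := Set.ncard_le_ncard this (Finset.finite_toSet _)
    rw [Set.ncard_coe_finset, Nat.card_Icc, Nat.add_sub_cancel] at h3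
    exact_mod_cast h3
  rw [e1 (fun n => (∀ j, f j n ∈ J j) ∧ ∀ k, ((Tn^[k] n : ℕ) : ℝ) ≤ lam * n),
    e1 (fun n => (∀ j, f j n ∈ J j) ∧ ¬ PP lam K n)] at h1
  refine h1.trans (mul_le_mul_of_nonneg_left e3 ?_)
  have := pow_pos b_pos K
  positivity

/-- THE JOINT LAW of the maximum excursion and the number of prime factors -/
theorem exc_ek {β : ℝ} (hβ : Dn Bdd β) (hβ0 : 0 ≤ β) (hβ1 : β ≤ 1) {lam : ℝ} (hlam : 1 < lam) (y : ℝ) :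
    Dn (fun n => (n % 2 = 1 ∧ ∀ k, ((Tn^[k] n : ℕ) : ℝ) ≤ lam * n) ∧ (n.primeFactors.card : ℝ) ≤ tr y n)
      (β * q (2 * lam / 3) * EK.Phi y / 2) := by
  refine thr_fwd (L := fun y => β * q (2 * lam / 3) * EK.Phi y / 2)
    ((continuous_const.mul EKPhi_cont).div_const 2) (fun y => ?_) y
  obtain ⟨C, hC, h1⟩ := exc_nat hβ
  -- the safe classes
  have hsafe : ∀ J : ℕ, Tendsto (fun N : ℕ => cnt (fun n => n % 2 = 1 ∧ (n.primeFactors.card : ℝ) ≤ tr y N ∧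
      ¬ PP lam (J + 1) n) N / N) atTop (𝓝 (s J (2 * lam / 3) * EK.Phi y / 2)) := by
    intro J
    set R := (range (2 ^ (J + 1))).filter fun n => n % 2 = 1 ∧ ¬ PP lam (J + 1) n with hR
    have e1 : ∀ N : ℕ, cnt (fun n => n % 2 = 1 ∧ (n.primeFactors.card : ℝ) ≤ tr y N ∧ ¬ PP lam (J + 1) n) N =
        ∑ a ∈ R, cnt (fun n => n % 2 ^ (J + 1) = a % 2 ^ (J + 1) ∧ (n.primeFactors.card : ℝ) ≤ tr y N) N := by
      intro N
      rw [cnt_eq, card_eq_sum_card_fiberwise (f := fun n => n % 2 ^ (J + 1)) (t := R) (fun n hn => by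
        rw [mem_coe, mem_filter] at hn
        rw [mem_coe, hR, mem_filter, mem_range]
        refine ⟨Nat.mod_lt _ (by positivity), ?_, ?_⟩
        · rw [Nat.mod_mod_of_dvd _ (dvd_pow_self 2 (show J + 1 ≠ 0 by omega))]; exact hn.2.1
        · rw [PP_mod]; exact hn.2.2.2)]
      push_cast
      apply sum_congr rfl
      intro a ha
      rw [hR, mem_filter, mem_range] at ha
      rw [cnt_eq, filter_filter]
      congr 2
      ext n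
      rw [mem_filter, mem_filter, Nat.mod_eq_of_lt ha.1]
      refine and_congr_right fun _ => ⟨?_, ?_⟩
      · rintro ⟨⟨_, g2, _⟩, g4⟩; exact ⟨g4, g2⟩
      · rintro ⟨g1, g2⟩
        refine ⟨⟨?_, g2, ?_⟩, g1⟩
        · rw [← Nat.mod_mod_of_dvd n (dvd_pow_self 2 (show J + 1 ≠ 0 by omega)), g1]; exact ha.2.1
        · rw [← PP_mod, g1]; exact ha.2.2
    have e4 : s J (2 * lam / 3) * EK.Phi y / 2 = ∑ _a ∈ R, EK.Phi y / ((2 ^ (J + 1) : ℕ) : ℝ) := by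
      rw [sum_const, nsmul_eq_mul, hR, card_safe J hlam]
      push_cast
      rw [pow_succ]
      field_simp
    rw [e4]
    refine (tendsto_finsetSum R fun a ha => ?_).congr fun N => (by rw [e1, sum_div])
    rw [hR, mem_filter, mem_range] at ha
    exact EK.ek_class (Q := 2 ^ (J + 1)) (r := a) Nat.one_le_two_pow (by omega) ha.1.le y
  rw [Metric.tendsto_atTop]
  intro ε hε
  have t1 : Tendsto (fun J : ℕ => C * b ^ (J + 1)) atTop (𝓝 0) := by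
    have := ((tendsto_pow_atTop_nhds_zero_of_lt_one b_pos.le b_lt_one).comp (tendsto_add_atTop_nat 1)).const_mul C
    simpa using this
  have t2 : Tendsto (fun J : ℕ => |s J (2 * lam / 3) * EK.Phi y / 2 - q (2 * lam / 3) * EK.Phi y / 2|) atTop (𝓝 0) := by
    have := ((((s_tendsto (2 * lam / 3)).mul_const (EK.Phi y)).div_const 2).sub_const
      (q (2 * lam / 3) * EK.Phi y / 2)).abs
    simpa using this
  obtain ⟨J, hJ1, hJ2⟩ := ((t1.eventually (gt_mem_nhds (show (0 : ℝ) < ε / 8 by positivity))).and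
    (t2.eventually (gt_mem_nhds (show (0 : ℝ) < ε / 8 by positivity)))).exists
  obtain ⟨N1, g1⟩ := h1 1 lam hlam (J + 1) (ε / 8) (by omega) (by positivity)
  obtain ⟨N2, g2⟩ := Metric.tendsto_atTop.1 (hsafe J) (ε / 8) (by positivity)
  refine ⟨max N1 N2 + 1, fun N hN => ?_⟩
  have hN0 : (0 : ℝ) < N := by exact_mod_cast (by omega : 0 < N)
  have f1 := g1 N (by omega) (fun _ n => (n.primeFactors.card : ℝ)) (fun _ m n hmn => om_add m n hmn)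
      (fun _ => Set.Iic (tr y N)) (fun _ => Set.ordConnected_Iic)
  have f2 := g2 N (by omega)
  rw [Real.dist_eq] at f2 ⊢
  have e1 : cnt (fun n => n % 2 = 1 ∧ (∀ _ : Fin 1, (n.primeFactors.card : ℝ) ∈ Set.Iic (tr y N)) ∧
      ∀ k, ((Tn^[k] n : ℕ) : ℝ) ≤ lam * n) N =
      cnt (fun n => (n % 2 = 1 ∧ ∀ k, ((Tn^[k] n : ℕ) : ℝ) ≤ lam * n) ∧ (n.primeFactors.card : ℝ) ≤ tr y N) N := by
    unfold cnt
    congr 2
    ext n
    simp only [Set.mem_ofPred_eq, Set.mem_Iic, forall_const]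
    tauto
  have e2 : cnt (fun n => n % 2 = 1 ∧ (∀ _ : Fin 1, (n.primeFactors.card : ℝ) ∈ Set.Iic (tr y N)) ∧
      ¬ PP lam (J + 1) n) N =
      cnt (fun n => n % 2 = 1 ∧ (n.primeFactors.card : ℝ) ≤ tr y N ∧ ¬ PP lam (J + 1) n) N := by
    unfold cnt
    congr 2
    ext n
    simp only [Set.mem_ofPred_eq, Set.mem_Iic, forall_const]
  rw [e1, e2] at f1
  set X : ℝ := cnt (fun n => (n % 2 = 1 ∧ ∀ k, ((Tn^[k] n : ℕ) : ℝ) ≤ lam * n) ∧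
    (n.primeFactors.card : ℝ) ≤ tr y N) N
  set Y : ℝ := cnt (fun n => n % 2 = 1 ∧ (n.primeFactors.card : ℝ) ≤ tr y N ∧ ¬ PP lam (J + 1) n) N
  have f3 : |X / N - β * (Y / N)| ≤ ε / 8 + ε / 8 := by
    have e : X / N - β * (Y / N) = (X - β * Y) / N := by field_simp
    rw [e, abs_div, abs_of_pos hN0, div_le_iff₀ hN0]
    refine f1.trans ?_
    apply mul_le_mul_of_nonneg_right _ hN0.le
    linarith
  have f4 : |β * (Y / N) - β * q (2 * lam / 3) * EK.Phi y / 2| ≤ ε / 8 + ε / 8 := by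
    have e : β * (Y / N) - β * q (2 * lam / 3) * EK.Phi y / 2 = β * (Y / N - q (2 * lam / 3) * EK.Phi y / 2) := by ring
    rw [e, abs_mul, abs_of_nonneg hβ0]
    have f5 : |Y / N - q (2 * lam / 3) * EK.Phi y / 2| ≤ ε / 8 + ε / 8 := by
      calc |Y / N - q (2 * lam / 3) * EK.Phi y / 2| = |(Y / N - s J (2 * lam / 3) * EK.Phi y / 2) +
            (s J (2 * lam / 3) * EK.Phi y / 2 - q (2 * lam / 3) * EK.Phi y / 2)| := by
            congr 1; ring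
        _ ≤ _ := (abs_add_le _ _).trans (add_le_add f2.le hJ2.le)
    calc β * |Y / N - q (2 * lam / 3) * EK.Phi y / 2| ≤ 1 * (ε / 8 + ε / 8) :=
          mul_le_mul hβ1 f5 (abs_nonneg _) zero_le_one
      _ = _ := one_mul _
  calc |X / N - β * q (2 * lam / 3) * EK.Phi y / 2| = |(X / N - β * (Y / N)) +
        (β * (Y / N) - β * q (2 * lam / 3) * EK.Phi y / 2)| := by
        congr 1; ring
    _ ≤ (ε / 8 + ε / 8) + (ε / 8 + ε / 8) := (abs_add_le _ _).trans (add_le_add f3 f4)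
    _ < ε := by linarith

/-- the counting form of `exc_large` -/
theorem exc_large_set {β : ℝ} (hβ : Dn Bdd β) (d : ℕ) {c : ℝ} (hc : 0 < c) (x0 : ℕ) {ψ : ℕ → ℝ}
    (hψ : Tendsto ψ atTop atTop) {ε : ℝ} (hε : 0 < ε) {Q r : ℕ} (hQ : 1 ≤ Q) (hr : r.Coprime Q) :
    ∃ N0 : ℕ, ∀ N : ℕ, N0 ≤ N → ∀ E : Set ℕ,
      ((∀ n ∈ E, Odd n) ∧ 1 ∈ E ∧ ∀ m n : ℕ, m.Coprime n → (m * n ∈ E ↔ m ∈ E ∧ n ∈ E)) →
      (∀ x : ℕ, x0 ≤ x → c * (x / Real.log x) ≤ {p : ℕ | p.Prime ∧ p ≤ x ∧ p ∈ E}.ncard) →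
      ∀ f : Fin d → ℕ → ℝ, (∀ j, ∀ m n : ℕ, m.Coprime n → f j (m * n) = f j m + f j n) →
      ∀ J : Fin d → Set ℝ, (∀ j, (J j).OrdConnected) →
      |({n : ℕ | n ≤ N ∧ n ∈ E ∧ n % Q = r % Q ∧ (∀ j, f j n ∈ J j) ∧
          ∀ k, ((Tn^[k] n : ℕ) : ℝ) ≤ ψ n * n}.ncard : ℝ) -
        β * {n : ℕ | n ≤ N ∧ n ∈ E ∧ n % Q = r % Q ∧ ∀ j, f j n ∈ J j}.ncard| ≤
        ε * {n : ℕ | n ≤ N ∧ n ∈ E}.ncard := by
  obtain ⟨N0, h0⟩ := exc_large hβ d hc x0 hψ hε hQ hr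
  refine ⟨N0, fun N hN E hE hp f hf J hJ => ?_⟩
  obtain ⟨h, g, hv, gv, hM, gM, h01, hg, hyp, cntE, cnt0⟩ := set_weight (E := E)
    ⟨fun h => by have := hE.1 0 h; exact absurd this (by decide), hE.2⟩ hp
  have h1 := h0 N hN h hM h01 (fun n hn => by
    rw [hv, if_neg]
    intro h3
    exact (Nat.not_odd_iff_even.2 hn) (hE.1 n h3)) hyp g gM hg f hf J hJ
  rw [cntE N (fun n => n % Q = r % Q ∧ (∀ j, f j n ∈ J j) ∧ ∀ k, ((Tn^[k] n : ℕ) : ℝ) ≤ ψ n * n),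
    cntE N (fun n => n % Q = r % Q ∧ ∀ j, f j n ∈ J j), cnt0]
  have e4 : ∑ n ∈ (Icc 1 N).filter (fun n => n % Q = r % Q ∧ (∀ j, f j n ∈ J j) ∧
          ∀ k, ((Tn^[k] n : ℕ) : ℝ) ≤ ψ n * n), g n -
        β * ∑ n ∈ (Icc 1 N).filter (fun n => n % Q = r % Q ∧ ∀ j, f j n ∈ J j), g n =
      ((∑ n ∈ (Icc 1 N).filter (fun n => n % Q = r % Q ∧ (∀ j, f j n ∈ J j) ∧
          ∀ k, ((Tn^[k] n : ℕ) : ℝ) ≤ ψ n * n), h n -
        β * ∑ n ∈ (Icc 1 N).filter (fun n => n % Q = r % Q ∧ ∀ j, f j n ∈ J j), h n : ℝ) : ℂ) := by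
    simp only [gv]
    push_cast
    rfl
  rw [e4, Complex.norm_real, Real.norm_eq_abs] at h1
  convert h1

/-- all odd integers -/
theorem exc_large_nat {β : ℝ} (hβ : Dn Bdd β) (d : ℕ) {ψ : ℕ → ℝ}
    (hψ : Tendsto ψ atTop atTop) {ε : ℝ} (hε : 0 < ε) :
    ∃ N0 : ℕ, ∀ N : ℕ, N0 ≤ N →
      ∀ f : Fin d → ℕ → ℝ, (∀ j, ∀ m n : ℕ, m.Coprime n → f j (m * n) = f j m + f j n) →
      ∀ J : Fin d → Set ℝ, (∀ j, (J j).OrdConnected) →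
      |cnt (fun n => n % 2 = 1 ∧ (∀ j, f j n ∈ J j) ∧ ∀ k, ((Tn^[k] n : ℕ) : ℝ) ≤ ψ n * n) N -
        β * cnt (fun n => n % 2 = 1 ∧ ∀ j, f j n ∈ J j) N| ≤ ε * N := by
  obtain ⟨c, hc, x0, hx0⟩ := Pool.Agent.Y964.SE.thick_ap (q := 2) (a := 1) (by norm_num) (by norm_num)
  obtain ⟨N0, h0⟩ := exc_large_set hβ d hc x0 hψ hε (Q := 1) (r := 1) le_rfl (by norm_num)
  refine ⟨N0, fun N hN f hf J hJ => ?_⟩
  have h1 := h0 N hN {n | Odd n} ⟨fun n hn => hn, odd_one, fun m n _ => Nat.odd_mul⟩ (fun x hx => by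
    refine (hx0 x hx).trans (le_of_eq ?_)
    have e : {p : ℕ | p.Prime ∧ p ≤ x ∧ p ∈ {n : ℕ | Odd n}} =
        ((Icc 1 x).filter (fun p => p.Prime ∧ p % 2 = 1 % 2) : Finset ℕ) := by
      ext p
      rw [mem_coe, mem_filter, mem_Icc]
      simp only [Set.mem_ofPred_eq, Nat.odd_iff]
      constructor
      · rintro ⟨a1, a2, a3⟩; exact ⟨⟨a1.one_lt.le, a2⟩, a1, by omega⟩
      · rintro ⟨⟨a1, a2⟩, a3, a4⟩; exact ⟨a3, a2, by omega⟩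
    rw [e, Set.ncard_coe_finset]) f hf J hJ
  have e1 : ∀ S : ℕ → Prop, {n : ℕ | n ≤ N ∧ n ∈ {n : ℕ | Odd n} ∧ n % 1 = 1 % 1 ∧ S n} =
      {n : ℕ | 1 ≤ n ∧ n ≤ N ∧ (n % 2 = 1 ∧ S n)} := by
    intro S
    ext n
    simp only [Set.mem_ofPred_eq, Nat.odd_iff, Nat.mod_one, true_and]
    constructor
    · rintro ⟨a1, a2, a3⟩; exact ⟨by omega, a1, a2, a3⟩
    · rintro ⟨a1, a2, a3, a4⟩; exact ⟨a2, a3, a4⟩
  have e3 : (({n : ℕ | n ≤ N ∧ n ∈ {n : ℕ | Odd n}}.ncard : ℕ) : ℝ) ≤ N := by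
    have : {n : ℕ | n ≤ N ∧ n ∈ {n : ℕ | Odd n}} ⊆ ((Icc 1 N : Finset ℕ) : Set ℕ) := by
      intro n hn
      rw [mem_coe, mem_Icc]
      simp only [Set.mem_ofPred_eq] at hn
      exact ⟨hn.2.pos, hn.1⟩
    have h3 := Set.ncard_le_ncard this (Finset.finite_toSet _)
    rw [Set.ncard_coe_finset, Nat.card_Icc, Nat.add_sub_cancel] at h3
    exact_mod_cast h3
  rw [e1 (fun n => (∀ j, f j n ∈ J j) ∧ ∀ k, ((Tn^[k] n : ℕ) : ℝ) ≤ ψ n * n),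
    e1 (fun n => ∀ j, f j n ∈ J j)] at h1
  exact h1.trans (mul_le_mul_of_nonneg_left e3 hε.le)

/-- the joint law for large levels -/
theorem exc_large_ek {β : ℝ} (hβ : Dn Bdd β) {ψ : ℕ → ℝ} (hψ : Tendsto ψ atTop atTop) (y : ℝ) :
    Dn (fun n => (n % 2 = 1 ∧ ∀ k, ((Tn^[k] n : ℕ) : ℝ) ≤ ψ n * n) ∧ (n.primeFactors.card : ℝ) ≤ tr y n)
      (β * EK.Phi y / 2) := by
  refine thr_fwd (L := fun y => β * EK.Phi y / 2) ((continuous_const.mul EKPhi_cont).div_const 2) (fun y => ?_) y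
  have h1 := (thr_bwd (A := fun n => n % 2 = 1) (w := fun n => (n.primeFactors.card : ℝ))
    (L := fun y => EK.Phi y / 2) (EKPhi_cont.div_const 2) ek_odd y).const_mul β
  have h2 : Tendsto (fun N : ℕ => cnt (fun n => (n % 2 = 1 ∧ ∀ k, ((Tn^[k] n : ℕ) : ℝ) ≤ ψ n * n) ∧
      (n.primeFactors.card : ℝ) ≤ tr y N) N / N -
      β * (cnt (fun n => n % 2 = 1 ∧ (n.primeFactors.card : ℝ) ≤ tr y N) N / N)) atTop (𝓝 0) := by
    rw [Metric.tendsto_atTop]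
    intro ε hε
    obtain ⟨N0, h0⟩ := exc_large_nat hβ 1 hψ (show 0 < ε / 2 by positivity)
    refine ⟨N0 + 1, fun N hN => ?_⟩
    have h3 := h0 N (by omega) (fun _ n => (n.primeFactors.card : ℝ)) (fun _ m n hmn => om_add m n hmn)
      (fun _ => Set.Iic (tr y N)) (fun _ => Set.ordConnected_Iic)
    have hN0 : (0 : ℝ) < N := by exact_mod_cast (by omega : 0 < N)
    have e1 : cnt (fun n => n % 2 = 1 ∧ (∀ _ : Fin 1, (n.primeFactors.card : ℝ) ∈ Set.Iic (tr y N)) ∧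
        ∀ k, ((Tn^[k] n : ℕ) : ℝ) ≤ ψ n * n) N =
        cnt (fun n => (n % 2 = 1 ∧ ∀ k, ((Tn^[k] n : ℕ) : ℝ) ≤ ψ n * n) ∧
          (n.primeFactors.card : ℝ) ≤ tr y N) N := by
      unfold cnt
      congr 2
      ext n
      simp only [Set.mem_ofPred_eq, Set.mem_Iic, forall_const]
      tauto
    have e2 : cnt (fun n => n % 2 = 1 ∧ ∀ _ : Fin 1, (n.primeFactors.card : ℝ) ∈ Set.Iic (tr y N)) N =
        cnt (fun n => n % 2 = 1 ∧ (n.primeFactors.card : ℝ) ≤ tr y N) N := by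
      unfold cnt
      congr 2
      ext n
      simp only [Set.mem_ofPred_eq, Set.mem_Iic, forall_const]
    rw [e1, e2] at h3
    rw [Real.dist_eq, sub_zero, ← mul_div_assoc, ← sub_div, abs_div, abs_of_pos hN0, div_lt_iff₀ hN0]
    refine lt_of_le_of_lt h3 ?_
    exact mul_lt_mul_of_pos_right (by linarith) hN0
  have h3 := h2.add h1
  rw [zero_add] at h3
  refine (h3.congr fun N => ?_).trans (le_of_eq ?_)
  · ring
  · congr 1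
    ring

end Pool.Agent.X62.AD
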