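import Mathlib

/-! Finite nets for boxes: the traces of all boxes of `ℝ^d` on a finite set of points are
approximated, up to few points, by boundedly many sets. -/

set_option autoImplicit false

namespace Pool.Agent.X62.AD

open Finset
open scoped Classical

theorem idx_close {a b q k : ℕ} (hab : a ≤ b) (hb : b ≤ q) (h : k * a / q = k * b / q) : (b - a) * k ≤ q := by
  rcases Nat.eq_zero_or_pos q with hq | hq
  · have : b = 0 := by omega
    rw [this]; simp
  · have h1 : k * b < q * (k * b / q + 1) := Nat.lt_mul_div_succ _ hq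
    have h2 : q * (k * a / q) ≤ k * a := Nat.mul_div_le _ _
    rw [← h] at h1
    have h3 : k * b < k * a + q := by
      have : q * (k * a / q + 1) = q * (k * a / q) + q := by ring
      omega
    have h4 : (b - a) * k + k * a = k * b := by
      obtain ⟨c, rfl⟩ := Nat.exists_eq_add_of_le hab
      rw [Nat.add_sub_cancel_left]; ring
    omega

/-- nets for the lower sets -/
theorem net_lower (Q : Finset ℕ) (x : ℕ → ℝ) (k : ℕ) :
    ∃ rep : ℕ → Finset ℕ, ∀ U : Set ℝ, IsLowerSet U → ∃ i ≤ k,
      #(symmDiff (Q.filter (fun p => x p ∈ U)) (rep i)) * k ≤ #Q := by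
  set tr : Set ℝ → Finset ℕ := fun U => Q.filter (fun p => x p ∈ U) with htr
  set idx : Set ℝ → ℕ := fun U => k * #(tr U) / #Q with hidx
  refine ⟨fun i => if h : ∃ U : Set ℝ, IsLowerSet U ∧ idx U = i then tr h.choose else ∅, fun U hU => ?_⟩
  have hle : ∀ U, #(tr U) ≤ #Q := fun U => card_le_card (filter_subset _ _)
  refine ⟨idx U, ?_, ?_⟩
  · simp only [hidx]
    apply Nat.div_le_of_le_mul
    rw [mul_comm (#Q)]
    exact Nat.mul_le_mul_left _ (hle U)
  · have hex : ∃ U' : Set ℝ, IsLowerSet U' ∧ idx U' = idx U := ⟨U, hU, rfl⟩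
    beta_reduce
    rw [dif_pos hex]
    obtain ⟨h1, h2⟩ := hex.choose_spec
    set U' := hex.choose with hU'
    have key : ∀ {V W : Set ℝ}, V ⊆ W → idx V = idx W → #(symmDiff (tr V) (tr W)) * k ≤ #Q := by
      intro V W hVW hi
      have hsub : tr V ⊆ tr W := by
        intro p hp
        simp only [htr, mem_filter] at hp ⊢
        exact ⟨hp.1, hVW hp.2⟩
      have e : symmDiff (tr V) (tr W) = tr W \ tr V := by
        rw [symmDiff_def]
        have : tr V \ tr W = ∅ := sdiff_eq_empty_iff_subset.2 hsub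
        rw [this]
        simp
      rw [e, card_sdiff_of_subset hsub]
      exact idx_close (card_le_card hsub) (hle W) hi
    rcases IsLowerSet.total hU h1 with h | h
    · exact key h h2.symm
    · rw [symmDiff_comm]
      exact key h h2

/-- the lower closure of an interval and its complement in it -/
theorem ord_lower {I : Set ℝ} (hI : I.OrdConnected) : ∃ U W : Set ℝ, IsLowerSet U ∧ IsLowerSet W ∧
    ∀ t, t ∈ I ↔ t ∈ U ∧ t ∉ W := by
  refine ⟨{t | ∃ s ∈ I, t ≤ s}, {t | (∃ s ∈ I, t ≤ s) ∧ t ∉ I}, ?_, ?_, ?_⟩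
  · rintro a b hba ⟨s, hs, has⟩
    exact ⟨s, hs, hba.trans has⟩
  · rintro a b hba ⟨⟨s, hs, has⟩, ha⟩
    refine ⟨⟨s, hs, hba.trans has⟩, fun hb => ha ?_⟩
    exact hI.out hb hs ⟨hba, has⟩
  · intro t
    constructor
    · intro h
      exact ⟨⟨t, h, le_rfl⟩, fun h' => h'.2 h⟩
    · rintro ⟨h1, h2⟩
      by_contra h
      exact h2 ⟨h1, h⟩

/-- nets for the boxes -/
theorem net_box {d : ℕ} (Q : Finset ℕ) (x : Fin d → ℕ → ℝ) (k : ℕ) :
    ∃ 𝒱 : Finset (Finset ℕ), #𝒱 ≤ (k + 1) ^ (2 * d) ∧ ∀ I : Fin d → Set ℝ, (∀ j, (I j).OrdConnected) →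
      ∃ V ∈ 𝒱, #(symmDiff (Q.filter (fun p => ∀ j, x j p ∈ I j)) V) * k ≤ 2 * d * #Q := by
  choose rep hrep using fun j => net_lower Q (x j) k
  set VV : (Fin d → Fin (k + 1) × Fin (k + 1)) → Finset ℕ := fun φ =>
    Q.filter (fun p => ∀ j, p ∈ rep j (φ j).1 ∧ p ∉ rep j (φ j).2) with hVV
  refine ⟨univ.image VV, ?_, fun I hI => ?_⟩
  · refine card_image_le.trans (le_of_eq ?_)
    rw [card_univ]
    simp only [Fintype.card_pi, Fintype.card_prod, Fintype.card_fin, prod_const, card_univ]
    rw [pow_mul, sq]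
  · choose U W hU hW hUW using fun j => ord_lower (hI j)
    choose a ha ha' using fun j => hrep j (U j) (hU j)
    choose b hb hb' using fun j => hrep j (W j) (hW j)
    set φ : Fin d → Fin (k + 1) × Fin (k + 1) := fun j =>
      (⟨a j, Nat.lt_succ_of_le (ha j)⟩, ⟨b j, Nat.lt_succ_of_le (hb j)⟩) with hφ
    refine ⟨VV φ, mem_image_of_mem _ (mem_univ _), ?_⟩
    have hsub : symmDiff (Q.filter (fun p => ∀ j, x j p ∈ I j)) (VV φ) ⊆
        univ.biUnion (fun j => symmDiff (Q.filter (fun p => x j p ∈ U j)) (rep j (a j)) ∪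
          symmDiff (Q.filter (fun p => x j p ∈ W j)) (rep j (b j))) := by
      intro p hp
      rw [mem_symmDiff] at hp
      by_contra hno
      have hno' : ∀ j, (p ∈ Q.filter (fun p => x j p ∈ U j) ↔ p ∈ rep j (a j)) ∧
          (p ∈ Q.filter (fun p => x j p ∈ W j) ↔ p ∈ rep j (b j)) := by
        intro j
        have h1 : p ∉ symmDiff (Q.filter (fun p => x j p ∈ U j)) (rep j (a j)) ∪
          symmDiff (Q.filter (fun p => x j p ∈ W j)) (rep j (b j)) := fun h =>
            hno (mem_biUnion.2 ⟨j, mem_univ _, h⟩)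
        rw [mem_union, not_or, mem_symmDiff, mem_symmDiff] at h1
        constructor
        · constructor
          · intro h; by_contra h'; exact h1.1 (Or.inl ⟨h, h'⟩)
          · intro h; by_contra h'; exact h1.1 (Or.inr ⟨h, h'⟩)
        · constructor
          · intro h; by_contra h'; exact h1.2 (Or.inl ⟨h, h'⟩)
          · intro h; by_contra h'; exact h1.2 (Or.inr ⟨h, h'⟩)
      have hQ : p ∈ Q := by
        rcases hp with h | h
        · exact (mem_filter.1 h.1).1
        · exact (mem_filter.1 h.1).1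
      have hiff : p ∈ Q.filter (fun p => ∀ j, x j p ∈ I j) ↔ p ∈ VV φ := by
        simp only [hVV, mem_filter, hQ, true_and]
        apply forall_congr'
        intro j
        rw [hUW j]
        have h2 := hno' j
        simp only [mem_filter, hQ, true_and] at h2
        simp only [hφ]
        rw [h2.1, h2.2]
      rcases hp with h | h
      · exact h.2 (hiff.1 h.1)
      · exact h.2 (hiff.2 h.1)
    have h1 := (card_le_card hsub).trans card_biUnion_le
    calc #(symmDiff (Q.filter (fun p => ∀ j, x j p ∈ I j)) (VV φ)) * k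
        ≤ (∑ j : Fin d, #(symmDiff (Q.filter (fun p => x j p ∈ U j)) (rep j (a j)) ∪
          symmDiff (Q.filter (fun p => x j p ∈ W j)) (rep j (b j)))) * k := Nat.mul_le_mul_right _ h1
      _ = ∑ j : Fin d, #(symmDiff (Q.filter (fun p => x j p ∈ U j)) (rep j (a j)) ∪
          symmDiff (Q.filter (fun p => x j p ∈ W j)) (rep j (b j))) * k := sum_mul _ _ _
      _ ≤ ∑ _j : Fin d, 2 * #Q := by
          apply sum_le_sum
          intro j _
          have h2 := Nat.mul_le_mul_right k (card_union_le (symmDiff (Q.filter (fun p => x j p ∈ U j)) (rep j (a j)))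
            (symmDiff (Q.filter (fun p => x j p ∈ W j)) (rep j (b j))))
          have h3 := ha' j
          have h4 := hb' j
          rw [add_mul] at h2
          omega
      _ = 2 * d * #Q := by rw [sum_const, card_univ, Fintype.card_fin, smul_eq_mul]; ring

end Pool.Agent.X62.AD
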