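import Pool.Agent.Y964.LW.B3
import Pool.Agent.Y964.SE.Core
import Pool.Agent.X62.AD.Net

/-! The sum over a cell with conditions on several functions of the prime which depend on the
cofactor. -/

set_option autoImplicit false

namespace Pool.Agent.X62.AD

open Finset Pool.Agent.H320R2.PD Pool.Agent.H499R2.ND Pool.Agent.H499R2.CO Pool.Agent.H376R2.MR
  Pool.Agent.W41.FU Pool.Agent.W41 Pool.Agent.W41.MU Pool.Agent.TH926.BL Pool.Agent.Y964.SE Pool.Agent.Y964.LW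
open scoped Classical

/-- replacing a set by a member of the net -/
theorem net_step {C E V : Finset ℕ} (a : ℕ → ℂ) (ha : ∀ p, ‖a p‖ ≤ 1) :
    ‖∑ p ∈ C, (if p ∈ E then a p else 0)‖ ≤
      ‖∑ p ∈ C, (if p ∈ V then a p else 0)‖ + (#(symmDiff E V) : ℝ) := by
  have e : ∑ p ∈ C, (if p ∈ E then a p else 0) = ∑ p ∈ C, (if p ∈ V then a p else 0) +
      ∑ p ∈ C, ((if p ∈ E then a p else 0) - (if p ∈ V then a p else 0)) := by
    rw [sum_sub_distrib]; ring
  rw [e]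
  refine (norm_add_le _ _).trans (add_le_add le_rfl ?_)
  have h1 : ∀ p ∈ C, ‖(if p ∈ E then a p else 0) - (if p ∈ V then a p else 0)‖ ≤
      if p ∈ symmDiff E V then (1 : ℝ) else 0 := by
    intro p _
    by_cases h1 : p ∈ E <;> by_cases h2 : p ∈ V
    · rw [if_pos h1, if_pos h2, sub_self, norm_zero]; split_ifs <;> norm_num
    · rw [if_pos h1, if_neg h2, sub_zero, if_pos (mem_symmDiff.2 (Or.inl ⟨h1, h2⟩))]; exact ha p
    · rw [if_neg h1, if_pos h2, zero_sub, norm_neg, if_pos (mem_symmDiff.2 (Or.inr ⟨h2, h1⟩))]; exact ha p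
    · rw [if_neg h1, if_neg h2, sub_self, norm_zero]; split_ifs <;> norm_num
  refine (norm_sum_le _ _).trans ((sum_le_sum h1).trans ?_)
  rw [← sum_filter, sum_const, nsmul_eq_mul, mul_one]
  have : C.filter (fun p => p ∈ symmDiff E V) ⊆ symmDiff E V := fun p hp => (mem_filter.1 hp).2
  exact_mod_cast card_le_card this

theorem cell_box (R0 R1 : ℕ) {s : ℤ} (hs : s = 1 ∨ s = -1) (d : ℕ) : ∃ K : ℝ, 1 ≤ K ∧ ∀ k : ℕ, 1 ≤ k →
    ∀ ε : ℝ, 0 < ε → ε ≤ 1 → ∀ H : ℕ, 10 ≤ H →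
    ∃ ϑ : ℝ, 0 < ϑ ∧ ϑ ≤ 1 / 64 ∧ ∀ θ1 : ℝ, 0 < θ1 → ∃ N0 : ℕ, 2 ≤ N0 ∧ ∃ μ : ℝ, 0 < μ ∧ μ ≤ 1 ∧
    ∀ N : ℕ, N0 ≤ N → ∀ f ∈ SameR R0 s, MN f (16 * R1) μ N →
    ∀ v : ℕ, θ1 * Real.log N ≤ (v : ℝ) / H → ((v : ℝ) + 1) / H ≤ ϑ * Real.log N →
    ∀ r : ℕ, r % 2 = 1 → r ≤ R1 → ∀ (A : Set ℕ) (g : ℕ → ℂ), (∀ p, ‖g p‖ ≤ 1) →
    ∀ (x : Fin d → ℕ → ℝ) (I : ℕ → Fin d → Set ℝ), (∀ m j, (I m j).OrdConnected) →
    ∑ m ∈ FA A N, ‖∑ p ∈ (cell H v).filter (fun p => p ∈ A ∧ p * m ≤ N),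
      (if ∀ j, x j p ∈ I m j then g p * (f ((p * (r * m) : ℕ) : ℤ) : ℂ) else 0)‖ ≤
      (((k : ℝ) + 1) ^ (2 * d) * (2 * ε + K / H) + K * d / k) * (kap A N * (N * mm H v)) := by
  obtain ⟨K1, hK1, N1, hN12, hcount⟩ := count_int
  obtain ⟨K2, hK2, hnorm⟩ := cell_norm R0 R1 hs
  refine ⟨max K2 (6 * K1), hK2.trans (le_max_left _ _), fun k hk ε hε hε1 H hH => ?_⟩
  obtain ⟨ϑ, h0, h01, hmain⟩ := hnorm ε hε hε1 H hH
  refine ⟨ϑ, h0, h01, fun θ1 hθ1 => ?_⟩
  obtain ⟨N2, hN22, μ, hμ0, hμ1, hN2⟩ := hmain θ1 hθ1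
  refine ⟨max (max N1 N2) 16, by omega, μ, hμ0, hμ1,
    fun N hN f hfS hmean v hv1 hv2 r hr hrR A g hg x I hI => ?_⟩
  have hNN1 : N1 ≤ N := ((le_max_left _ _).trans (le_max_left _ _)).trans hN
  have hNN2 : N2 ≤ N := ((le_max_right _ _).trans (le_max_left _ _)).trans hN
  have hN16 : 16 ≤ N := (le_max_right _ _).trans hN
  clear hN
  have hfa := hfS.1
  have hNp : (0 : ℝ) < N := by exact_mod_cast (by omega : 0 < N)
  have hN1 : (1 : ℝ) ≤ N := by exact_mod_cast (by omega : 1 ≤ N)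
  have hlog : 0 < Real.log N := Real.log_pos (by exact_mod_cast (by omega : 1 < N))
  have hH0 : (0 : ℝ) < H := by exact_mod_cast (by omega : 0 < H)
  have hk0 : (0 : ℝ) < k := by exact_mod_cast hk
  have hκ0 := kap_pos A N
  have hmm0 := mm_nonneg H v
  set P := Real.exp ((v : ℝ) / H) with hP
  have hP0 : 0 < P := Real.exp_pos _
  have hcellp : ∀ p ∈ cell H v, P ≤ (p : ℝ) ∧ (p : ℝ) ≤ 3 * P := by
    intro p hp
    have h1 := cell_lt hp
    have hp0 : (0 : ℝ) < p := by exact_mod_cast h1.1.pos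
    constructor
    · rw [hP, ← Real.exp_log hp0]; exact Real.exp_le_exp.2 h1.2.1
    · have h2 : (p : ℝ) < Real.exp (((v : ℝ) + 1) / H) := by
        rw [← Real.exp_log hp0]; exact Real.exp_lt_exp.2 h1.2.2
      have h3 : Real.exp (((v : ℝ) + 1) / H) = P * Real.exp (1 / H) := by
        rw [hP, ← Real.exp_add, add_div]
      have h4 : Real.exp (1 / H) ≤ 3 := by
        have h5 : (1 : ℝ) / H ≤ 1 := by
          rw [div_le_one hH0]; exact_mod_cast (by omega : 1 ≤ H)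
        exact (Real.exp_le_exp.2 h5).trans (by linarith [Real.exp_one_lt_d9])
      rw [h3] at h2
      nlinarith
  -- the number of the elements of the cell
  have hcard : (#(cell H v) : ℝ) ≤ 3 * P * mm H v := by
    unfold mm
    rw [mul_sum, ← nsmul_one, ← sum_const]
    apply sum_le_sum
    intro p hp
    have h1 := hcellp p hp
    have hp0 : (0 : ℝ) < p := hP0.trans_le h1.1
    rw [mul_one_div, le_div_iff₀ hp0, one_mul]
    exact h1.2
  -- the cofactors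
  have hFA : (#((FA A N).filter (fun m : ℕ => P * m ≤ N)) : ℝ) ≤ K1 * kap A N * (N / P) := by
    have hPN : P ≤ (N : ℝ) ^ (1 / 4 : ℝ) := by
      rw [hP, Real.rpow_def_of_pos hNp]
      apply Real.exp_le_exp.2
      have h1 : (v : ℝ) / H ≤ ((v : ℝ) + 1) / H := div_le_div_of_nonneg_right (by linarith) hH0.le
      nlinarith
    have hq : (N : ℝ) ^ (1 / 2 : ℝ) ≤ (⌊(N : ℝ) / P⌋₊ : ℝ) := by
      have h1 : (N : ℝ) ^ (3 / 4 : ℝ) ≤ N / P := by
        rw [le_div_iff₀ hP0]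
        calc (N : ℝ) ^ (3 / 4 : ℝ) * P ≤ (N : ℝ) ^ (3 / 4 : ℝ) * (N : ℝ) ^ (1 / 4 : ℝ) :=
              mul_le_mul_of_nonneg_left hPN (by positivity)
          _ = N := by rw [← Real.rpow_add hNp]; norm_num
      have h2 : (N : ℝ) ^ (3 / 4 : ℝ) = (N : ℝ) ^ (1 / 2 : ℝ) * (N : ℝ) ^ (1 / 4 : ℝ) := by
        rw [← Real.rpow_add hNp]; norm_num
      have h3 : (2 : ℝ) ≤ (N : ℝ) ^ (1 / 4 : ℝ) := by
        have h4 : ((2 : ℝ) ^ 4) ^ (1 / 4 : ℝ) ≤ (N : ℝ) ^ (1 / 4 : ℝ) :=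
          Real.rpow_le_rpow (by positivity) (by norm_num; exact_mod_cast hN16) (by norm_num)
        have h5 : ((2 : ℝ) ^ 4) ^ (1 / 4 : ℝ) = 2 := by
          rw [← Real.rpow_natCast, ← Real.rpow_mul (by norm_num)]; norm_num
        linarith
      have h6 : 1 ≤ (N : ℝ) ^ (1 / 2 : ℝ) := Real.one_le_rpow hN1 (by norm_num)
      have h7 : (N : ℝ) / P < ⌊(N : ℝ) / P⌋₊ + 1 := Nat.lt_floor_add_one _
      nlinarith
    have h1 := hcount N hNN1 A 1 ⌊(N : ℝ) / P⌋₊ hq ((FA A N).filter (fun m : ℕ => P * m ≤ N)) (by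
      intro m hm
      rw [mem_filter, mem_FA_nat] at hm
      rw [mem_Ico]
      refine ⟨hm.1.2.1, ?_⟩
      have h2 : (m : ℝ) ≤ N / P := by
        rw [le_div_iff₀ hP0, mul_comm]; exact hm.2
      have h3 : m ≤ ⌊(N : ℝ) / P⌋₊ := Nat.le_floor h2
      omega) (fun m hm => (mem_FA_nat.1 (mem_filter.1 hm).1).2)
    refine h1.trans (mul_le_mul_of_nonneg_left (Nat.floor_le (by positivity)) (by positivity))
  obtain ⟨𝒱, hV1, hV2⟩ := net_box (cell H v) x k
  -- one cofactor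
  have key : ∀ m ∈ FA A N, ‖∑ p ∈ (cell H v).filter (fun p => p ∈ A ∧ p * m ≤ N),
      (if ∀ j, x j p ∈ I m j then g p * (f ((p * (r * m) : ℕ) : ℤ) : ℂ) else 0)‖ ≤
      ∑ V ∈ 𝒱, ‖∑ p ∈ (cell H v).filter (fun p => p ∈ A ∧ p * m ≤ N),
        (if p ∈ V then g p else 0) * (f ((p * (r * m) : ℕ) : ℤ) : ℂ)‖ +
      (if P * m ≤ N then 2 * d * (3 * P * mm H v) / k else 0) := by
    intro m _
    by_cases hm : P * m ≤ N
    · rw [if_pos hm]
      obtain ⟨V, hV, hVk⟩ := hV2 (I m) (hI m)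
      set a : ℕ → ℂ := fun p => g p * (f ((p * (r * m) : ℕ) : ℤ) : ℂ) with ha
      have ha1 : ∀ p, ‖a p‖ ≤ 1 := fun p => by
        simp only [ha]
        rw [norm_mul, Complex.norm_real, Real.norm_eq_abs]
        exact mul_le_one₀ (hg p) (abs_nonneg _) (hfa _)
      have h1 := net_step (C := (cell H v).filter (fun p => p ∈ A ∧ p * m ≤ N))
        (E := (cell H v).filter (fun p => ∀ j, x j p ∈ I m j)) (V := V) a ha1
      have e1 : ∑ p ∈ (cell H v).filter (fun p => p ∈ A ∧ p * m ≤ N),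
          (if ∀ j, x j p ∈ I m j then g p * (f ((p * (r * m) : ℕ) : ℤ) : ℂ) else 0) =
          ∑ p ∈ (cell H v).filter (fun p => p ∈ A ∧ p * m ≤ N),
            (if p ∈ (cell H v).filter (fun p => ∀ j, x j p ∈ I m j) then a p else 0) := by
        apply sum_congr rfl
        intro p hp
        have hpc := (mem_filter.1 hp).1
        have : p ∈ (cell H v).filter (fun p => ∀ j, x j p ∈ I m j) ↔ ∀ j, x j p ∈ I m j := by
          rw [mem_filter]; exact ⟨fun h => h.2, fun h => ⟨hpc, h⟩⟩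
        simp only [this, ha]
      rw [e1]
      refine h1.trans (add_le_add ?_ ?_)
      · have e2 : ∑ p ∈ (cell H v).filter (fun p => p ∈ A ∧ p * m ≤ N), (if p ∈ V then a p else 0) =
            ∑ p ∈ (cell H v).filter (fun p => p ∈ A ∧ p * m ≤ N),
              (if p ∈ V then g p else 0) * (f ((p * (r * m) : ℕ) : ℤ) : ℂ) := by
          apply sum_congr rfl
          intro p _
          simp only [ha]
          split_ifs
          · rfl
          · rw [zero_mul]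
        rw [e2]
        exact single_le_sum (f := fun V => ‖∑ p ∈ (cell H v).filter (fun p => p ∈ A ∧ p * m ≤ N),
          (if p ∈ V then g p else 0) * (f ((p * (r * m) : ℕ) : ℤ) : ℂ)‖) (fun _ _ => norm_nonneg _) hV
      · rw [le_div_iff₀ hk0]
        have h2 : (#(symmDiff ((cell H v).filter (fun p => ∀ j, x j p ∈ I m j)) V) : ℝ) * k ≤
            2 * d * #(cell H v) := by exact_mod_cast hVk
        refine h2.trans ?_
        exact mul_le_mul_of_nonneg_left hcard (by positivity)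
    · rw [if_neg hm, add_zero]
      have hemp : (cell H v).filter (fun p => p ∈ A ∧ p * m ≤ N) = ∅ := by
        rw [filter_eq_empty_iff]
        rintro p hp ⟨_, h2⟩
        apply hm
        have h3 : ((p * m : ℕ) : ℝ) ≤ N := by exact_mod_cast h2
        push_cast at h3
        exact (mul_le_mul_of_nonneg_right (hcellp p hp).1 (Nat.cast_nonneg _)).trans h3
      rw [hemp, sum_empty, norm_zero]
      exact sum_nonneg fun _ _ => norm_nonneg _
  refine (sum_le_sum key).trans ?_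
  rw [sum_add_distrib, sum_comm]
  have t1 : ∑ V ∈ 𝒱, ∑ m ∈ FA A N, ‖∑ p ∈ (cell H v).filter (fun p => p ∈ A ∧ p * m ≤ N),
        (if p ∈ V then g p else 0) * (f ((p * (r * m) : ℕ) : ℤ) : ℂ)‖ ≤
      ((k : ℝ) + 1) ^ (2 * d) * ((2 * ε + K2 / H) * (kap A N * (N * mm H v))) := by
    have h1 : ∀ V ∈ 𝒱, ∑ m ∈ FA A N, ‖∑ p ∈ (cell H v).filter (fun p => p ∈ A ∧ p * m ≤ N),
        (if p ∈ V then g p else 0) * (f ((p * (r * m) : ℕ) : ℤ) : ℂ)‖ ≤
        (2 * ε + K2 / H) * (kap A N * (N * mm H v)) := by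
      intro V _
      apply hN2 N hNN2 f hfS hmean v hv1 hv2 r hr hrR A (fun p => if p ∈ V then g p else 0)
      intro p
      show ‖if p ∈ V then g p else 0‖ ≤ 1
      split_ifs
      · exact hg p
      · rw [norm_zero]; exact zero_le_one
    refine (sum_le_sum h1).trans ?_
    rw [sum_const, nsmul_eq_mul]
    apply mul_le_mul_of_nonneg_right _ (by positivity)
    have : ((#𝒱 : ℕ) : ℝ) ≤ (((k + 1) ^ (2 * d) : ℕ) : ℝ) := by exact_mod_cast hV1
    push_cast at this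
    exact this
  have t2 : ∑ m ∈ FA A N, (if P * m ≤ N then 2 * d * (3 * P * mm H v) / k else 0) ≤
      6 * K1 * d / k * (kap A N * (N * mm H v)) := by
    rw [← sum_filter, sum_const, nsmul_eq_mul]
    calc (#((FA A N).filter (fun m : ℕ => P * m ≤ N)) : ℝ) * (2 * d * (3 * P * mm H v) / k)
        ≤ K1 * kap A N * (N / P) * (2 * d * (3 * P * mm H v) / k) :=
          mul_le_mul_of_nonneg_right hFA (by positivity)
      _ = _ := by field_simp; ring
  have hmax1 : K2 ≤ max K2 (6 * K1) := le_max_left _ _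
  have hmax2 : 6 * K1 ≤ max K2 (6 * K1) := le_max_right _ _
  have h5 : 0 ≤ kap A N * (N * mm H v) := by positivity
  refine (add_le_add t1 t2).trans ?_
  rw [← mul_assoc, ← add_mul]
  apply mul_le_mul_of_nonneg_right _ h5
  have h6 : K2 / H ≤ max K2 (6 * K1) / H := div_le_div_of_nonneg_right hmax1 hH0.le
  have h7 : 6 * K1 * d / k ≤ max K2 (6 * K1) * d / k := by
    apply div_le_div_of_nonneg_right _ hk0.le
    exact mul_le_mul_of_nonneg_right hmax2 (Nat.cast_nonneg _)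
  have h8 : ((k : ℝ) + 1) ^ (2 * d) * (2 * ε + K2 / H) ≤
      ((k : ℝ) + 1) ^ (2 * d) * (2 * ε + max K2 (6 * K1) / H) :=
    mul_le_mul_of_nonneg_left (by linarith) (by positivity)
  linarith

end Pool.Agent.X62.AD
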