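import Pool.Agent.X62.AD.Core
import Pool.Agent.Y964.LW.B7

/-! The relative theorem with conditions on additive functions. -/

set_option autoImplicit false

namespace Pool.Agent.X62.AD

open Finset Pool.Agent.H320R2.PD Pool.Agent.H499R2.ND Pool.Agent.H499R2.CO Pool.Agent.H376R2.MR
  Pool.Agent.W41.FU Pool.Agent.W41 Pool.Agent.W41.MU Pool.Agent.TH926.BL Pool.Agent.Y964.SE
open Pool.Agent.Y964.LW (SameR MN sameR_two)
open scoped Classical

/-- THEOREM D: multiplicative functions dominated by the product over the prime factors. -/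
theorem thmD (d R0 R1 : ℕ) {s : ℤ} (hs : s = 1 ∨ s = -1) : ∃ K : ℝ, 1 ≤ K ∧ ∀ (I : ℕ) (ε : ℝ), 0 < ε →
    ∃ H : ℕ, 10 ≤ H ∧ ∃ ϑ : ℝ, 0 < ϑ ∧ ϑ ≤ 1 ∧ ∃ v0 : ℕ → ℕ, Filter.Tendsto v0 Filter.atTop Filter.atTop ∧
    ∃ N0 : ℕ, 2 ≤ N0 ∧ (∀ N : ℕ, N0 ≤ N → ((4 ^ I * v0 N : ℕ) : ℝ) / H ≤ Real.log N / 4) ∧
    ∃ μ : ℝ, 0 < μ ∧ μ ≤ 1 ∧ ∀ N : ℕ, N0 ≤ N → ∀ f ∈ SameR R0 s, MN f (16 * R1) μ N →
    ∀ r : ℕ, r % 2 = 1 → r ≤ R1 → ∀ h : ℕ → ℝ, (∀ p, 0 ≤ h p) → (∀ p, h p ≤ 1) →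
    ∀ g : ℕ → ℂ, TT d (hf h) g →
    ‖∑ n ∈ Icc 1 N, (f ((r * n : ℕ) : ℤ) : ℂ) * g n‖ ≤
      ε * (kh h N * N) + K * (kh (fun p => if p ∈ RN H (v0 N) (4 ^ I * v0 N) then 0 else h p) N * N) := by
  obtain ⟨K, hK, hcore⟩ := core d R0 R1 hs
  refine ⟨K, hK, fun I ε hε => ?_⟩
  obtain ⟨H, hH, ϑ, h0, h01, v0, tv, N0, hN02, hN0l, μ, hμ0, hμ1, hN0⟩ := hcore I ε hε
  refine ⟨H, hH, ϑ, h0, h01, v0, tv, N0, hN02, hN0l, μ, hμ0, hμ1,
    fun N hN f hfS hmean r hr hrN h hh0 hh1 G hG => ?_⟩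
  obtain ⟨g, x, J, hg, hgm, hx, hJ, hgJ⟩ := hG
  set g1 : ℕ → ℂ := fun n => g n / (hf h n : ℂ) with hg1
  have hg1n : ∀ n, ‖g1 n‖ ≤ 1 := by
    intro n
    simp only [hg1]
    rw [norm_div, Complex.norm_real, Real.norm_eq_abs, abs_of_nonneg (hf_nonneg hh0 n)]
    exact div_le_one_of_le₀ (hg n) (hf_nonneg hh0 n)
  have hg1m : ∀ m n : ℕ, Nat.Coprime m n → g1 (m * n) = g1 m * g1 n := by
    intro m n hmn
    simp only [hg1]
    rw [hgm m n hmn, hf_mul h hmn]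
    push_cast
    rw [mul_div_mul_comm]
  have hgg : ∀ n, g n = (hf h n : ℂ) * g1 n := by
    intro n
    simp only [hg1]
    by_cases hz : hf h n = 0
    · have := hg n
      rw [hz] at this
      have h3 : g n = 0 := norm_le_zero_iff.1 this
      rw [h3]; simp
    · have : (hf h n : ℂ) ≠ 0 := by exact_mod_cast hz
      field_simp
  set G1 : ℕ → ℂ := fun n => if ∀ j, x j n ∈ J j then g1 n else 0 with hG1
  have hG1T : TT d (fun _ => 1) G1 := ⟨g1, x, J, hg1n, hg1m, hx, hJ, fun n => rfl⟩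
  have hGG : ∀ n, G n = (hf h n : ℂ) * G1 n := by
    intro n
    rw [hgJ n]
    simp only [hG1]
    split_ifs
    · exact hgg n
    · rw [mul_zero]
  have e1 : ∑ n ∈ Icc 1 N, (f ((r * n : ℕ) : ℤ) : ℂ) * G n =
      ∑ A ∈ (PN N).powerset, pw h N A • ∑ m ∈ FA {p | p ∈ A} (N : ℝ), (f ((r * m : ℕ) : ℤ) : ℂ) * G1 m := by
    rw [avg_sum h le_rfl, Nat.floor_natCast]
    apply sum_congr rfl
    intro n _
    rw [hGG n, Complex.real_smul]
    ring
  rw [e1]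
  refine (norm_sum_le _ _).trans ?_
  have e2 : ∀ A ∈ (PN N).powerset, ‖pw h N A • ∑ m ∈ FA {p | p ∈ A} (N : ℝ),
      (f ((r * m : ℕ) : ℤ) : ℂ) * G1 m‖ ≤ ε * N * (pw h N A * kap {p | p ∈ A} N) +
      K * N * (pw h N A * kap ({p | p ∈ A} \ {p | p ∈ RN H (v0 N) (4 ^ I * v0 N)}) N) := by
    intro A _
    have hp := pw_nonneg hh0 hh1 N A
    rw [norm_smul, Real.norm_eq_abs, abs_of_nonneg hp]
    refine (mul_le_mul_of_nonneg_left (hN0 N hN f hfS hmean r hr hrN {p | p ∈ A} G1 hG1T) hp).trans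
      (le_of_eq ?_)
    ring
  refine (sum_le_sum e2).trans (le_of_eq ?_)
  rw [sum_add_distrib, ← mul_sum, ← mul_sum, avg_kap, avg_kap_R]
  ring

/-- one squarefull number: the main estimate -/
theorem one_q (d R0 : ℕ) {s : ℤ} (hs : s = 1 ∨ s = -1) {c : ℝ} (hc : 0 < c) (x0 : ℕ) (Q0 : ℕ) (hQ0 : 1 ≤ Q0) {η : ℝ} (hη : 0 < η) :
    ∃ N0 : ℕ, 2 ≤ N0 ∧ ∃ μ : ℝ, 0 < μ ∧ μ ≤ 1 ∧ ∀ N : ℕ, N0 ≤ N → ∀ f ∈ SameR R0 s,
    (∀ e ≤ Q0, MN (fun x => f (2 ^ e * x)) (16 * Q0) μ N) →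
    ∀ h : ℕ → ℝ, (∀ n, 0 ≤ h n) → (∀ n, h n ≤ 1) → h 1 = 1 →
    (∀ m n : ℕ, Nat.Coprime m n → h (m * n) = h m * h n) → HypD c x0 h →
    ∀ g : ℕ → ℂ, TT d h g →
    ∀ q : ℕ, 1 ≤ q → q ≤ Q0 →
    ‖∑ m ∈ (Icc 1 (N / q)).filter (fun m => Squarefree m ∧ Nat.Coprime q m),
      (f ((q * m : ℕ) : ℤ) : ℂ) * g (q * m)‖ ≤ η * (kh h N * N) := by
  obtain ⟨Kd, hKd, hD⟩ := thmD d R0 Q0 hs
  obtain ⟨Cr, hCr, hratio⟩ := kh_ratio
  obtain ⟨c3, hc3, hrn⟩ := rn_low hc x0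
  have te : Filter.Tendsto (fun I : ℕ => Real.exp (-(c3 * I))) Filter.atTop (nhds 0) := by
    apply Real.tendsto_exp_neg_atTop_nhds_zero.comp
    exact tendsto_natCast_atTop_atTop.const_mul_atTop hc3
  obtain ⟨I, hI⟩ := (te.eventually_lt_const (show 0 < η / (4 * Cr * Kd) by positivity)).exists
  set ε1 : ℝ := η / (4 * Cr) with hε1
  have hε10 : 0 < ε1 := by positivity
  obtain ⟨H, hH, ϑ, h0, h01, v0, tv, N1, hN12, hN1l, μ, hμ0, hμ1, hmain⟩ := hD I ε1 hε10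
  have hH1 : 1 ≤ H := by omega
  have hH0 : (0 : ℝ) < H := by exact_mod_cast hH1
  obtain ⟨u0, hu0, hlow⟩ := hrn H hH1
  have tn := tendsto_natCast_atTop_atTop (R := ℝ)
  have ev : ∀ᶠ M : ℕ in Filter.atTop, (u0 ≤ v0 M ∧ ⌈(H : ℝ) * Real.log Q0⌉₊ + 1 ≤ v0 M) ∧
      ((Q0 : ℝ) ≤ (M : ℝ) ^ ϑ ∧ N1 ≤ M) := by
    refine ((tv.eventually_ge_atTop _).and (tv.eventually_ge_atTop _)).and (Filter.Eventually.and ?_
      (Filter.eventually_ge_atTop _))
    exact ((tendsto_rpow_atTop h0).comp tn).eventually_ge_atTop _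
  obtain ⟨M0, hM0⟩ := Filter.eventually_atTop.1 ev
  have hQ0R : (1 : ℝ) ≤ Q0 := by exact_mod_cast hQ0
  refine ⟨Q0 * (M0 + 2) + 4 * Q0 ^ 2 + 2, by omega, μ / (2 * Q0), by positivity,
    (div_le_self hμ0.le (by linarith)).trans hμ1,
    fun N hN f hfS hmean h hh0 hh1 hone hm hyp G hG q hq hqQ => ?_⟩
  obtain ⟨g, x, J, hg, hgm, hx, hJ, hgJ⟩ := hG
  have hNp : (0 : ℝ) < N := by exact_mod_cast (by omega : 0 < N)
  -- the range
  set N' : ℕ := N / q with hN'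
  have hN'0 : M0 + 2 ≤ N' := by
    rw [hN', Nat.le_div_iff_mul_le (by omega)]
    have : (M0 + 2) * q ≤ (M0 + 2) * Q0 := Nat.mul_le_mul_left _ hqQ
    nlinarith
  have hN'N : N' ≤ N := Nat.div_le_self _ _
  obtain ⟨⟨y1, y2⟩, y3, y4⟩ := hM0 N' (by omega)
  have hN'2 : 2 ≤ N' := by omega
  have hN'p : (0 : ℝ) < N' := by exact_mod_cast (by omega : 0 < N')
  have hlogN' : 0 < Real.log N' := Real.log_pos (by exact_mod_cast (by omega : 1 < N'))
  have hsq : N ≤ N' * N' := by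
    have h1 : N < (N' + 1) * q := by
      have := Nat.lt_div_mul_add (a := N) (b := q) (by omega)
      rw [← hN'] at this
      rw [Nat.add_mul, one_mul]; omega
    have h2 : N < (N' + 1) * Q0 := h1.trans_le (Nat.mul_le_mul_left _ hqQ)
    have h3 : 2 * Q0 ≤ N' := by
      rw [hN', Nat.le_div_iff_mul_le (by omega)]
      have : 2 * Q0 * q ≤ 2 * Q0 * Q0 := Nat.mul_le_mul_left _ hqQ
      nlinarith
    nlinarith
  have hlogr : Real.log N / Real.log N' ≤ 2 := by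
    rw [div_le_iff₀ hlogN']
    have h1 : (N : ℝ) ≤ (N' : ℝ) ^ 2 := by
      rw [sq]; exact_mod_cast hsq
    have h2 := Real.log_le_log hNp h1
    rw [Real.log_pow] at h2
    exact_mod_cast h2
  -- the odd part
  obtain ⟨e, r, hr, hqr⟩ := Nat.exists_eq_two_pow_mul_odd (n := q) (by omega)
  have hrq : r ≤ q := by
    rw [hqr]; exact Nat.le_mul_of_pos_left _ (by positivity)
  have hr' : r % 2 = 1 := Nat.odd_iff.1 hr
  have hrN : r ≤ Q0 := hrq.trans hqQ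
  have heQ : e ≤ Q0 := by
    have h1 : e < 2 ^ e := Nat.lt_two_pow_self
    have h2 : 2 ^ e ≤ q := by
      rw [hqr]; exact Nat.le_mul_of_pos_right _ (by omega)
    omega
  have hmean' : MN (fun x => f (2 ^ e * x)) (16 * Q0) μ N' := by
    intro n hn
    refine (hmean e heQ n (hn.trans (Nat.mul_le_mul_left _ hN'N))).trans ?_
    have h1 : N ≤ 2 * Q0 * N' := by
      have h2 : N < (N' + 1) * q := by
        have := Nat.lt_div_mul_add (a := N) (b := q) (by omega)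
        rw [← hN'] at this
        rw [Nat.add_mul, one_mul]; omega
      have h3 : (N' + 1) * q ≤ (2 * N') * Q0 := Nat.mul_le_mul (by omega) hqQ
      have h4 : 2 * N' * Q0 = 2 * Q0 * N' := by ring
      omega
    have h1R : (N : ℝ) ≤ 2 * Q0 * N' := by exact_mod_cast h1
    rw [div_mul_eq_mul_div, div_le_iff₀ (by positivity)]
    calc μ * N ≤ μ * (2 * Q0 * N') := mul_le_mul_of_nonneg_left h1R hμ0.le
      _ = _ := by ring
  -- the functions
  set hq' : ℕ → ℝ := fun p => if p ∣ q then 0 else h p with hhq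
  have hq0 : ∀ p, 0 ≤ hq' p := fun p => by simp only [hhq]; split_ifs; exacts [le_rfl, hh0 p]
  have hq1 : ∀ p, hq' p ≤ 1 := fun p => by simp only [hhq]; split_ifs; exacts [zero_le_one, hh1 p]
  have hqh : ∀ p, hq' p ≤ h p := fun p => by simp only [hhq]; split_ifs; exacts [hh0 p, le_rfl]
  set gq : ℕ → ℂ := fun m => if Squarefree m ∧ Nat.Coprime q m then g m else 0 with hgq
  have hgqn : ∀ n, ‖gq n‖ ≤ hf hq' n := by
    intro n
    simp only [hgq]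
    split_ifs with h1
    · refine (hg n).trans (le_of_eq ?_)
      rw [mul_sqf hone hm h1.1]
      unfold hf
      apply prod_congr rfl
      intro p hp
      have hpp := Nat.prime_of_mem_primeFactors hp
      simp only [hhq]
      rw [if_neg]
      intro h2
      have h3 := Nat.dvd_gcd h2 (Nat.dvd_of_mem_primeFactors hp)
      rw [h1.2] at h3
      exact hpp.ne_one (Nat.dvd_one.1 h3)
    · rw [norm_zero]; exact hf_nonneg hq0 n
  have hgqm : ∀ m n : ℕ, Nat.Coprime m n → gq (m * n) = gq m * gq n := by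
    intro m n hmn
    simp only [hgq]
    have e0 : (Squarefree (m * n) ∧ Nat.Coprime q (m * n)) ↔
        ((Squarefree m ∧ Squarefree n) ∧ (Nat.Coprime q m ∧ Nat.Coprime q n)) :=
      and_congr (Nat.squarefree_mul hmn) Nat.coprime_mul_iff_right
    by_cases h1 : Squarefree m ∧ Nat.Coprime q m
    · by_cases h2 : Squarefree n ∧ Nat.Coprime q n
      · rw [if_pos (e0.2 ⟨⟨h1.1, h2.1⟩, h1.2, h2.2⟩), if_pos h1, if_pos h2, hgm m n hmn]
      · rw [if_neg (fun h3 => h2 ⟨(e0.1 h3).1.2, (e0.1 h3).2.2⟩), if_neg h2, mul_zero]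
    · rw [if_neg (fun h3 => h1 ⟨(e0.1 h3).1.1, (e0.1 h3).2.1⟩), if_neg h1, zero_mul]
  set Gq : ℕ → ℂ := fun m => if ∀ j, x j m ∈ {t : ℝ | t + x j q ∈ J j} then gq m else 0 with hGq
  have hGqT : TT d (hf hq') Gq := ⟨gq, x, fun j => {t : ℝ | t + x j q ∈ J j}, hgqn, hgqm, hx,
    fun j => shift_ord (hJ j) _, fun n => rfl⟩
  have key := hmain N' y4 _ (sameR_two hfS e) hmean' r hr' hrN hq' hq0 hq1 Gq hGqT
  -- the sum
  have e1 : ∑ m ∈ (Icc 1 N').filter (fun m => Squarefree m ∧ Nat.Coprime q m),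
      (f ((q * m : ℕ) : ℤ) : ℂ) * G (q * m) =
      g q * ∑ n ∈ Icc 1 N', ((fun x : ℤ => f (2 ^ e * x)) ((r * n : ℕ) : ℤ) : ℂ) * Gq n := by
    rw [sum_filter, mul_sum]
    apply sum_congr rfl
    intro m _
    simp only [hGq, hgq]
    by_cases h1 : Squarefree m ∧ Nat.Coprime q m
    · rw [if_pos h1, if_pos h1, hgJ (q * m), hgm q m h1.2]
      have e2 : ((q * m : ℕ) : ℤ) = 2 ^ e * ((r * m : ℕ) : ℤ) := by rw [hqr]; push_cast; ring
      have e3 : (∀ j, x j (q * m) ∈ J j) ↔ ∀ j, x j m ∈ {t : ℝ | t + x j q ∈ J j} := by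
        apply forall_congr'
        intro j
        rw [hx j q m h1.2, add_comm]
        rfl
      rw [e2]
      simp only [e3]
      split_ifs
      · ring
      · ring
    · rw [if_neg h1, if_neg h1, ite_self]; ring
  rw [e1, norm_mul]
  have hgq1 : ‖g q‖ ≤ 1 := (hg q).trans (hh1 q)
  refine (mul_le_of_le_one_left (norm_nonneg _) hgq1).trans (key.trans ?_)
  -- the densities
  set R := RN H (v0 N') (4 ^ I * v0 N') with hR
  have hRsub : R ⊆ PN N' := by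
    intro p hp
    have h1 := (mem_RN hH1).1 hp
    rw [mem_PN]
    refine ⟨?_, h1.1⟩
    have hp0 : (0 : ℝ) < p := by exact_mod_cast h1.1.pos
    have h2 := (mem_cell.1 ((mem_cell_ix (v := ix H p) hH1).2 ⟨h1.1, rfl⟩)).2.2
    have h3 : ((ix H p : ℝ) + 1) / H ≤ ((4 ^ I * v0 N' : ℕ) : ℝ) / H := by
      apply div_le_div_of_nonneg_right _ hH0.le
      exact_mod_cast h1.2.2
    have h4 := hN1l N' y4
    have h5 : Real.log p ≤ Real.log N' := by linarith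
    have h6 := (Real.log_le_log_iff hp0 hN'p).1 h5
    exact_mod_cast h6
  have hRq : ∀ p ∈ R, hq' p = h p := by
    intro p hp
    have h1 := (mem_RN hH1).1 hp
    simp only [hhq]
    rw [if_neg]
    intro h2
    have h3 : p ≤ Q0 := (Nat.le_of_dvd (by omega) h2).trans hqQ
    have h4 : (ix H p : ℝ) ≤ H * Real.log Q0 := by
      refine (Nat.floor_le (mul_nonneg hH0.le (Real.log_natCast_nonneg p))).trans ?_
      apply mul_le_mul_of_nonneg_left _ hH0.le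
      exact Real.log_le_log (by exact_mod_cast h1.1.pos) (by exact_mod_cast h3)
    have h5 := Nat.le_ceil ((H : ℝ) * Real.log Q0)
    have h6 : ix H p ≤ ⌈(H : ℝ) * Real.log Q0⌉₊ := by exact_mod_cast h4.trans h5
    omega
  have k1 : kh hq' N' ≤ 2 * Cr * kh h N := by
    refine (kh_mono hq0 hq1 hqh N').trans ((hratio h hh0 hh1 N' N hN'2 hN'N).trans ?_)
    apply mul_le_mul_of_nonneg_right _ (kh_pos hh0 hh1 N).le
    calc Cr * (Real.log N / Real.log N') ≤ Cr * 2 := mul_le_mul_of_nonneg_left hlogr (by linarith)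
      _ = 2 * Cr := by ring
  have k2 : kh (fun p => if p ∈ R then 0 else hq' p) N' ≤ 2 * Cr * kh h N * (η / (4 * Cr * Kd)) := by
    refine (kh_R hq0 hq1 N' hRsub).trans ?_
    apply mul_le_mul k1 _ (Real.exp_pos _).le (by have := kh_pos hh0 hh1 N; positivity)
    refine le_trans (Real.exp_le_exp.2 ?_) hI.le
    have h2 := hlow h hh0 hh1 hyp (v0 N') y1 I
    rw [neg_le_neg_iff]
    refine h2.trans (le_of_eq ?_)
    apply sum_congr rfl
    intro p hp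
    rw [hRq p hp]
  have hk0 := kh_pos hh0 hh1 N
  have hN'R : (N' : ℝ) ≤ N := by exact_mod_cast hN'N
  have t1 : ε1 * (kh hq' N' * N') ≤ ε1 * ((2 * Cr * kh h N) * N) := by
    apply mul_le_mul_of_nonneg_left _ hε10.le
    exact mul_le_mul k1 hN'R hN'p.le (by positivity)
  have t2 : Kd * (kh (fun p => if p ∈ R then 0 else hq' p) N' * N') ≤
      Kd * ((2 * Cr * kh h N * (η / (4 * Cr * Kd))) * N) := by
    apply mul_le_mul_of_nonneg_left _ (by linarith)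
    exact mul_le_mul k2 hN'R hN'p.le (by positivity)
  refine (add_le_add t1 t2).trans (le_of_eq ?_)
  rw [hε1]
  field_simp
  ring

/-- the trivial bound for the sum belonging to one squarefull number -/
theorem one_q_triv {f : ℤ → ℝ} (hfa : ∀ x, |f x| ≤ 1)
    {h : ℕ → ℝ} (hh0 : ∀ n, 0 ≤ h n) (hh1 : ∀ n, h n ≤ 1) (hone : h 1 = 1)
    (hm : ∀ m n : ℕ, Nat.Coprime m n → h (m * n) = h m * h n)
    {g : ℕ → ℂ} (hg : ∀ n, ‖g n‖ ≤ h n) (N q : ℕ) :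
    ‖∑ m ∈ (Icc 1 (N / q)).filter (fun m => Squarefree m ∧ Nat.Coprime q m),
      (f ((q * m : ℕ) : ℤ) : ℂ) * g (q * m)‖ ≤ ∑ m ∈ Icc 1 (N / q), hf h m := by
  refine (norm_sum_le _ _).trans ?_
  rw [sum_filter]
  apply sum_le_sum
  intro m _
  split_ifs with h1
  · rw [norm_mul, Complex.norm_real, Real.norm_eq_abs]
    have h2 : ‖g (q * m)‖ ≤ hf h m := by
      refine (hg _).trans ?_
      rw [hm q m h1.2, mul_sqf hone hm h1.1]
      exact mul_le_of_le_one_left (hf_nonneg hh0 m) (hh1 q)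
    calc |f ((q * m : ℕ) : ℤ)| * ‖g (q * m)‖ ≤ 1 * ‖g (q * m)‖ :=
          mul_le_mul_of_nonneg_right (hfa _) (norm_nonneg _)
      _ ≤ hf h m := by rw [one_mul]; exact h2
  · exact hf_nonneg hh0 m

/-- THE RELATIVE THEOREM for functions constant on coalescing trajectories above a fixed height:
multiplicative functions `g` dominated by a multiplicative function `h` with
values in `[0, 1]` whose mean value on the primes is bounded below. -/
theorem main_f (d R0 : ℕ) {s : ℤ} (hs : s = 1 ∨ s = -1) {c : ℝ} (hc : 0 < c) (x0 : ℕ) {ε : ℝ} (hε : 0 < ε) :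
    ∃ E N0 : ℕ, ∃ μ : ℝ, 0 < μ ∧ μ ≤ 1 ∧ ∀ N : ℕ, N0 ≤ N → ∀ f ∈ SameR R0 s,
    (∀ e ≤ E, MN (fun x => f (2 ^ e * x)) E μ N) →
    ∀ h : ℕ → ℝ, (∀ n, 0 ≤ h n) → (∀ n, h n ≤ 1) → h 1 = 1 →
    (∀ m n : ℕ, Nat.Coprime m n → h (m * n) = h m * h n) → HypD c x0 h →
    ∀ g : ℕ → ℂ, TT d h g →
    ‖∑ n ∈ Icc 1 N, (f ((n : ℕ) : ℤ) : ℂ) * g n‖ ≤ ε * ∑ n ∈ Icc 1 N, h n := by
  obtain ⟨Cs, hCs, hsf⟩ := sf_tail
  obtain ⟨Ku, hKu, Nu, hNu2, hup⟩ := hf_upper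
  obtain ⟨c4, hc4, N4, hN42, hlow⟩ := sum_low hc x0
  obtain ⟨Cm, hCm, hkl⟩ := kh_lower
  set η : ℝ := ε * c4 / 4 with hη
  have hη0 : 0 < η := by positivity
  have tn := tendsto_natCast_atTop_atTop (R := ℝ)
  -- the cut
  have tq : Filter.Tendsto (fun Q : ℕ => Ku * Cs * (Q : ℝ) ^ (-(1 / 8) : ℝ)) Filter.atTop (nhds 0) := by
    have := ((tendsto_rpow_neg_atTop (show (0 : ℝ) < 1 / 8 by norm_num)).comp tn).const_mul (Ku * Cs)
    rw [mul_zero] at this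
    exact this
  obtain ⟨Q0, hQ0a, hQ0⟩ := ((tq.eventually_lt_const hη0).and (Filter.eventually_ge_atTop 1)).exists
  have hQ0R : (1 : ℝ) ≤ Q0 := by exact_mod_cast hQ0
  obtain ⟨N1, hN12, μ, hμ0, hμ1, hone⟩ := one_q d R0 hs hc x0 Q0 hQ0 (show 0 < η / Q0 by positivity)
  -- large squarefull numbers
  have tl : Filter.Tendsto (fun N : ℕ => Cs * Cm * (Real.log N * (N : ℝ) ^ (-(1 / 32) : ℝ))) Filter.atTop (nhds 0) := by
    have h1 : Filter.Tendsto (fun x : ℝ => Real.log x / x ^ (1 / 32 : ℝ)) Filter.atTop (nhds 0) :=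
      (isLittleO_log_rpow_atTop (by norm_num)).tendsto_div_nhds_zero
    have h2 := (h1.comp tn).const_mul (Cs * Cm)
    rw [mul_zero] at h2
    refine h2.congr' ?_
    filter_upwards [Filter.eventually_ge_atTop 1] with N hN
    simp only [Function.comp]
    rw [Real.rpow_neg (Nat.cast_nonneg _), ← div_eq_mul_inv]
  obtain ⟨N2, hN2⟩ := Filter.eventually_atTop.1 (tl.eventually_lt_const hη0)
  refine ⟨16 * Q0, max (max N1 N2) (max (max N4 Nu) (2 ^ 8)), μ, hμ0, hμ1,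
    fun N hN f hfS hmean h hh0 hh1 hh hm hyp g hgT => ?_⟩
  have hg := hgT.norm
  have hNN1 : N1 ≤ N := ((le_max_left _ _).trans (le_max_left _ _)).trans hN
  have hNN2 : N2 ≤ N := ((le_max_right _ _).trans (le_max_left _ _)).trans hN
  have hNN4 : N4 ≤ N := (((le_max_left _ _).trans (le_max_left _ _)).trans (le_max_right _ _)).trans hN
  have hNNu : Nu ≤ N := (((le_max_right _ _).trans (le_max_left _ _)).trans (le_max_right _ _)).trans hN
  have hN256 : 2 ^ 8 ≤ N := ((le_max_right _ _).trans (le_max_right _ _)).trans hN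
  clear hN
  have hNp : (0 : ℝ) < N := by exact_mod_cast (by omega : 0 < N)
  have hN1' : (1 : ℝ) ≤ N := by exact_mod_cast (by omega : 1 ≤ N)
  have hlog : 0 < Real.log N := Real.log_pos (by exact_mod_cast (by omega : 1 < N))
  have hk0 := kh_pos hh0 hh1 N
  set T : ℕ → ℂ := fun q => ∑ m ∈ (Icc 1 (N / q)).filter (fun m => Squarefree m ∧ Nat.Coprime q m),
    (f ((q * m : ℕ) : ℤ) : ℂ) * g (q * m) with hT
  have htriv : ∀ q, ‖T q‖ ≤ ∑ m ∈ Icc 1 (N / q), hf h m := fun q => one_q_triv hfS.1 hh0 hh1 hh hm hg N q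
  -- small
  have s1 : ∑ q ∈ (Icc 1 N).filter (fun q => SFl q ∧ q ≤ Q0), ‖T q‖ ≤ η * (kh h N * N) := by
    have h1 : ∀ q ∈ (Icc 1 N).filter (fun q => SFl q ∧ q ≤ Q0), ‖T q‖ ≤ η / Q0 * (kh h N * N) := by
      intro q hq
      rw [mem_filter, mem_Icc] at hq
      exact hone N hNN1 f hfS (fun e he => hmean e (by omega)) h hh0 hh1 hh hm hyp g hgT q hq.1.1 hq.2.2
    refine (sum_le_sum h1).trans ?_
    rw [sum_const, nsmul_eq_mul]
    have h2 : #((Icc 1 N).filter (fun q => SFl q ∧ q ≤ Q0)) ≤ Q0 := by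
      have : (Icc 1 N).filter (fun q => SFl q ∧ q ≤ Q0) ⊆ Icc 1 Q0 := by
        intro q hq
        rw [mem_filter, mem_Icc] at hq
        exact mem_Icc.2 ⟨hq.1.1, hq.2.2⟩
      have h3 := card_le_card this
      rwa [Nat.card_Icc, Nat.add_sub_cancel] at h3
    have h2R : (#((Icc 1 N).filter (fun q => SFl q ∧ q ≤ Q0)) : ℝ) ≤ Q0 := by exact_mod_cast h2
    calc (#((Icc 1 N).filter (fun q => SFl q ∧ q ≤ Q0)) : ℝ) * (η / Q0 * (kh h N * N))
        ≤ Q0 * (η / Q0 * (kh h N * N)) := mul_le_mul_of_nonneg_right h2R (by positivity)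
      _ = _ := by field_simp
  -- medium
  have s2 : ∑ q ∈ (Icc 1 N).filter (fun q => (SFl q ∧ Q0 < q) ∧ (2 * q) ^ 2 ≤ N), ‖T q‖ ≤ η * (kh h N * N) := by
    have h1 : ∀ q ∈ (Icc 1 N).filter (fun q => (SFl q ∧ Q0 < q) ∧ (2 * q) ^ 2 ≤ N),
        ‖T q‖ ≤ Ku * kh h N * N * (1 / q) := by
      intro q hq
      rw [mem_filter, mem_Icc] at hq
      obtain ⟨⟨q1, q2⟩, q3, q4⟩ := hq
      have hq0 : (0 : ℝ) < q := by exact_mod_cast q1
      refine (htriv q).trans ((hup N hNNu h hh0 hh1 (N / q) (Nat.div_le_self _ _) ?_).trans ?_)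
      · have h2 : (2 * (q : ℝ)) ^ 2 ≤ N := by exact_mod_cast q4
        have h3 : 2 * (q : ℝ) ≤ (N : ℝ) ^ (1 / 2 : ℝ) := by
          rw [← Real.sqrt_eq_rpow]
          exact Real.le_sqrt_of_sq_le h2
        have h4 : 2 * (N : ℝ) ^ (1 / 2 : ℝ) ≤ N / q := by
          rw [le_div_iff₀ hq0]
          have h5 : (N : ℝ) ^ (1 / 2 : ℝ) * (N : ℝ) ^ (1 / 2 : ℝ) = N := by
            rw [← Real.rpow_add hNp]; norm_num
          have h6 : 0 < (N : ℝ) ^ (1 / 2 : ℝ) := by positivity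
          nlinarith
        have h5 : (N : ℝ) / q < ((N / q : ℕ) : ℝ) + 1 := by
          rw [div_lt_iff₀ hq0]
          have h3 : N < (N / q + 1) * q := by
            have := Nat.lt_div_mul_add (a := N) (b := q) q1
            rw [Nat.add_mul, one_mul]; omega
          exact_mod_cast h3
        have h6 : 1 ≤ (N : ℝ) ^ (1 / 2 : ℝ) := Real.one_le_rpow hN1' (by norm_num)
        linarith
      · have h2 : ((N / q : ℕ) : ℝ) ≤ N / q := Nat.cast_div_le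
        refine (mul_le_mul_of_nonneg_left h2 (by positivity)).trans (le_of_eq ?_)
        ring
    refine (sum_le_sum h1).trans ?_
    rw [← mul_sum]
    have h2 : ∑ q ∈ (Icc 1 N).filter (fun q => (SFl q ∧ Q0 < q) ∧ (2 * q) ^ 2 ≤ N), 1 / (q : ℝ) ≤
        Cs * (Q0 : ℝ) ^ (-(1 / 8) : ℝ) := by
      refine le_trans ?_ (hsf Q0 N hQ0)
      apply sum_le_sum_of_subset_of_nonneg
      · intro q hq
        rw [mem_filter] at hq ⊢
        exact ⟨hq.1, hq.2.1⟩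
      · intro _ _ _; positivity
    calc Ku * kh h N * N * ∑ q ∈ (Icc 1 N).filter (fun q => (SFl q ∧ Q0 < q) ∧ (2 * q) ^ 2 ≤ N), 1 / (q : ℝ)
        ≤ Ku * kh h N * N * (Cs * (Q0 : ℝ) ^ (-(1 / 8) : ℝ)) := mul_le_mul_of_nonneg_left h2 (by positivity)
      _ = (Ku * Cs * (Q0 : ℝ) ^ (-(1 / 8) : ℝ)) * (kh h N * N) := by ring
      _ ≤ _ := mul_le_mul_of_nonneg_right hQ0a.le (by positivity)
  -- large
  have s3 : ∑ q ∈ (Icc 1 N).filter (fun q => (SFl q ∧ Q0 < q) ∧ ¬ (2 * q) ^ 2 ≤ N), ‖T q‖ ≤ η * (kh h N * N) := by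
    set Q1 := Nat.sqrt (N / 4) with hQ1
    have hQ1a : 1 ≤ Q1 := by
      rw [hQ1, Nat.le_sqrt']
      omega
    have hQ1b : (N : ℝ) ^ (1 / 4 : ℝ) ≤ Q1 := by
      have h1 : N / 4 < (Q1 + 1) ^ 2 := Nat.lt_succ_sqrt' _
      have h2 : N < 4 * (Q1 + 1) ^ 2 := by omega
      have h3 : (N : ℝ) < 4 * ((Q1 : ℝ) + 1) ^ 2 := by exact_mod_cast h2
      have h4 : (N : ℝ) ^ (1 / 2 : ℝ) ≤ 2 * (Q1 + 1) := by
        rw [← Real.sqrt_eq_rpow]
        apply Real.sqrt_le_iff.2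
        refine ⟨by positivity, ?_⟩
        linarith
      have h5 : (N : ℝ) ^ (1 / 2 : ℝ) = (N : ℝ) ^ (1 / 4 : ℝ) * (N : ℝ) ^ (1 / 4 : ℝ) := by
        rw [← Real.rpow_add hNp]; norm_num
      have h6 : (4 : ℝ) ≤ (N : ℝ) ^ (1 / 4 : ℝ) := by
        have h7 : ((2 : ℝ) ^ 8) ^ (1 / 4 : ℝ) ≤ (N : ℝ) ^ (1 / 4 : ℝ) :=
          Real.rpow_le_rpow (by positivity) (by exact_mod_cast hN256) (by norm_num)
        have h8 : ((2 : ℝ) ^ 8) ^ (1 / 4 : ℝ) = 4 := by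
          rw [← Real.rpow_natCast, ← Real.rpow_mul (by norm_num)]; norm_num
        linarith
      nlinarith
    have h1 : ∀ q ∈ (Icc 1 N).filter (fun q => (SFl q ∧ Q0 < q) ∧ ¬ (2 * q) ^ 2 ≤ N), ‖T q‖ ≤ N * (1 / q) := by
      intro q hq
      refine (htriv q).trans ((sum_le_sum fun m _ => hf_le_one hh0 hh1 m).trans ?_)
      rw [sum_const, Nat.card_Icc, Nat.add_sub_cancel, nsmul_eq_mul, mul_one]
      refine (Nat.cast_div_le).trans (le_of_eq ?_)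
      ring
    refine (sum_le_sum h1).trans ?_
    rw [← mul_sum]
    have h2 : ∑ q ∈ (Icc 1 N).filter (fun q => (SFl q ∧ Q0 < q) ∧ ¬ (2 * q) ^ 2 ≤ N), 1 / (q : ℝ) ≤
        Cs * (Q1 : ℝ) ^ (-(1 / 8) : ℝ) := by
      refine le_trans ?_ (hsf Q1 N hQ1a)
      apply sum_le_sum_of_subset_of_nonneg
      · intro q hq
        rw [mem_filter] at hq ⊢
        refine ⟨hq.1, hq.2.1.1, ?_⟩
        rw [hQ1, Nat.sqrt_lt']
        have h3 := hq.2.2
        push Not at h3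
        have h4 : (2 * q) ^ 2 = 4 * q ^ 2 := by ring
        rw [h4] at h3
        omega
      · intro _ _ _; positivity
    have h3 : (Q1 : ℝ) ^ (-(1 / 8) : ℝ) ≤ (N : ℝ) ^ (-(1 / 32) : ℝ) := by
      have e : (N : ℝ) ^ (-(1 / 32) : ℝ) = ((N : ℝ) ^ (1 / 4 : ℝ)) ^ (-(1 / 8) : ℝ) := by
        rw [← Real.rpow_mul hNp.le]; norm_num
      rw [e]
      apply Real.rpow_le_rpow_of_nonpos (by positivity) hQ1b (by norm_num)
    have h4 := hN2 N hNN2
    have h5 := hkl h hh0 hh1 N (by omega)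
    have h6 : Cs * (N : ℝ) ^ (-(1 / 32) : ℝ) ≤ η * kh h N := by
      have h7 : Cs * (N : ℝ) ^ (-(1 / 32) : ℝ) = (Cs * Cm * (Real.log N * (N : ℝ) ^ (-(1 / 32) : ℝ))) *
          (1 / (Cm * Real.log N)) := by
        have : Cm ≠ 0 := by linarith
        field_simp
      rw [h7]
      exact mul_le_mul h4.le h5 (by positivity) hη0.le
    calc (N : ℝ) * ∑ q ∈ (Icc 1 N).filter (fun q => (SFl q ∧ Q0 < q) ∧ ¬ (2 * q) ^ 2 ≤ N), 1 / (q : ℝ)
        ≤ N * (Cs * (N : ℝ) ^ (-(1 / 32) : ℝ)) := by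
          apply mul_le_mul_of_nonneg_left _ hNp.le
          exact h2.trans (mul_le_mul_of_nonneg_left h3 (by linarith))
      _ ≤ N * (η * kh h N) := mul_le_mul_of_nonneg_left h6 hNp.le
      _ = _ := by ring
  -- the end
  have e1 : ∑ n ∈ Icc 1 N, (f ((n : ℕ) : ℤ) : ℂ) * g n = ∑ q ∈ (Icc 1 N).filter SFl, T q :=
    decomp N (fun n => (f ((n : ℕ) : ℤ) : ℂ) * g n)
  have e2 : ∑ q ∈ (Icc 1 N).filter SFl, ‖T q‖ =
      ∑ q ∈ (Icc 1 N).filter (fun q => SFl q ∧ q ≤ Q0), ‖T q‖ +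
      (∑ q ∈ (Icc 1 N).filter (fun q => (SFl q ∧ Q0 < q) ∧ (2 * q) ^ 2 ≤ N), ‖T q‖ +
      ∑ q ∈ (Icc 1 N).filter (fun q => (SFl q ∧ Q0 < q) ∧ ¬ (2 * q) ^ 2 ≤ N), ‖T q‖) := by
    rw [← sum_filter_add_sum_filter_not ((Icc 1 N).filter SFl) (fun q => q ≤ Q0), filter_filter, filter_filter,
      ← filter_filter (fun q => SFl q ∧ Q0 < q), ← filter_filter (fun q => SFl q ∧ Q0 < q),
      sum_filter_add_sum_filter_not]
    simp only [not_le]
  rw [e1]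
  refine (norm_sum_le _ _).trans ?_
  rw [e2]
  have h9 := hlow h hh0 hh1 hh hm hyp N hNN4
  have h10 : ε * (c4 * (kh h N * N)) ≤ ε * ∑ n ∈ Icc 1 N, h n := mul_le_mul_of_nonneg_left h9 hε.le
  have h11 : ε * (c4 * (kh h N * N)) = 4 * (η * (kh h N * N)) := by rw [hη]; ring
  have h12 : 0 ≤ η * (kh h N * N) := by positivity
  linarith

end Pool.Agent.X62.AD
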