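import Pool.Agent.X62.AD.Main
import Pool.Agent.Y964.LW.G1

/-! Relative laws with conditions on additive functions. -/

set_option autoImplicit false

namespace Pool.Agent.X62.AD

open Finset Filter Topology
open Pool.Agent.H499R2.CO (Tz)
open Pool.Agent.H499R2.ND (Dn cnt)
open Pool.Agent.Y964.SE (HypD PN mem_PN)
open Pool.Agent.Y964.LW hiding main_f RL RL_squeeze RL_congr RL_or RL_diff RL_true RL_not RL_set RL_lim
open scoped Classical

theorem re_T (d : ℕ) {h : ℕ → ℝ} (hh0 : ∀ n, 0 ≤ h n)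
    (hm : ∀ m n : ℕ, Nat.Coprime m n → h (m * n) = h m * h n) : TT d h (fun n => (h n : ℂ)) :=
  ⟨fun n => (h n : ℂ), fun _ _ => 0, fun _ => Set.univ, re_h hh0, re_m hm, fun _ _ _ _ => by simp,
    fun _ => Set.ordConnected_univ, fun n => by simp⟩

/-- THE RELATIVE LAW at fixed thresholds -/
theorem rel_fix (d : ℕ) {s : ℤ} (hs : s = 1 ∨ s = -1) {R : ℕ} {ι : Type} (A : Fam s R ι) {c : ℝ} (hc : 0 < c)
    (x0 : ℕ) (i : ι) (x : ℝ) {ε : ℝ} (hε : 0 < ε) : ∃ κ : ℝ, 0 < κ ∧ ∃ N0 : ℕ, ∀ N : ℕ, N0 ≤ N →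
    ∀ τ : ℝ, |τ - thr A.α A.σ x (Real.log N)| ≤ κ * Real.sqrt (Real.log N) →
    ∀ h : ℕ → ℝ, (∀ n, 0 ≤ h n) → (∀ n, h n ≤ 1) → h 1 = 1 →
    (∀ m n : ℕ, Nat.Coprime m n → h (m * n) = h m * h n) → HypD c x0 h →
    ∀ g : ℕ → ℂ, TT d h g →
    ‖∑ n ∈ Icc 1 N, (if A.E i τ n then g n else 0) - A.F i x * ∑ n ∈ Icc 1 N, g n‖ ≤
      ε * ∑ n ∈ Icc 1 N, h n := by
  obtain ⟨E, N0, μ, hμ0, hμ1, hmain⟩ := main_f d R hs hc x0 hε
  have h1 : ∀ e : ℕ, ∃ κ : ℝ, 0 < κ ∧ ∀ᶠ N : ℕ in atTop, ∀ τ : ℝ,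
      |τ - thr A.α A.σ x (Real.log N)| ≤ κ * Real.sqrt (Real.log N) → ∀ y : ℕ, y ≤ E * N →
      |cnt (A.E (A.sh^[e] i) τ) y - A.F i x * y| ≤ μ * N := by
    intro e
    obtain ⟨κ, h2, h3⟩ := fix_law (P := A.E (A.sh^[e] i)) (A.mono _) A.hσ (A.cont _) (A.law _) x hμ0 E
    refine ⟨κ, h2, ?_⟩
    rw [A.F_iter] at h3
    exact h3
  choose κ hκ0 hκ using h1
  -- the smallest of the `κ e`
  obtain ⟨κm, hκm0, hκm⟩ : ∃ κm : ℝ, 0 < κm ∧ ∀ e ≤ E, κm ≤ κ e := by
    obtain ⟨e0, _, he0⟩ := exists_min_image (range (E + 1)) κ ⟨0, by simp⟩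
    exact ⟨κ e0, hκ0 e0, fun e he => he0 e (mem_range.2 (by omega))⟩
  have tl : Tendsto (fun N : ℕ => κm / 2 * Real.sqrt (Real.log N)) atTop atTop :=
    (Real.tendsto_sqrt_atTop.comp (Real.tendsto_log_atTop.comp tendsto_natCast_atTop_atTop)).const_mul_atTop
      (by positivity)
  have hall : ∀ᶠ N : ℕ in atTop, ∀ e ∈ range (E + 1), ∀ τ : ℝ,
      |τ - thr A.α A.σ x (Real.log N)| ≤ κ e * Real.sqrt (Real.log N) → ∀ y : ℕ, y ≤ E * N →
      |cnt (A.E (A.sh^[e] i) τ) y - A.F i x * y| ≤ μ * N := (Finset.eventually_all _).2 fun e _ => hκ e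
  obtain ⟨N1, hN1⟩ := eventually_atTop.1 (hall.and (tl.eventually_ge_atTop (E * A.w)))
  refine ⟨κm / 2, by positivity, max N0 N1, fun N hN τ hτ h hh0 hh1 hh hm hyp g hgT => ?_⟩
  obtain ⟨g1, g2⟩ := hN1 N ((le_max_right _ _).trans hN)
  obtain ⟨F0, F1⟩ := A.F01 i x
  have hsame : bf (A.E i τ) (A.F i x) ∈ SameR R s := bf_same hs F0 F1 (A.same i τ)
  have key := hmain N ((le_max_left _ _).trans hN) _ hsame (fun e he n hn => by
    have e1 : ∑ m ∈ Icc 1 n, bf (A.E i τ) (A.F i x) (2 ^ e * ((m : ℕ) : ℤ)) =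
        ∑ m ∈ Icc 1 n, bf (A.E (A.sh^[e] i) (τ - e * A.w)) (A.F i x) ((m : ℕ) : ℤ) := by
      apply sum_congr rfl
      intro m hm'
      rw [mem_Icc] at hm'
      have hm0 : (0 : ℤ) < m := by exact_mod_cast hm'.1
      have h5 : (2 : ℤ) ^ e * ((m : ℕ) : ℤ) = ((2 ^ e * m : ℕ) : ℤ) := by push_cast; ring
      have h6 : (0 : ℤ) < ((2 ^ e * m : ℕ) : ℤ) := by exact_mod_cast Nat.mul_pos (by positivity) hm'.1
      rw [h5]
      unfold bf
      simp only [Int.toNat_natCast, hm0, h6, true_and, A.two_pow e i τ m hm'.1]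
    show |∑ m ∈ Icc 1 n, bf (A.E i τ) (A.F i x) (2 ^ e * ((m : ℕ) : ℤ))| ≤ μ * N
    rw [e1, bf_sum]
    apply g1 e (mem_range.2 (by omega)) _ _ n hn
    have h7 : κm ≤ κ e := hκm e he
    have h8 : (e : ℝ) * A.w ≤ E * A.w := mul_le_mul_of_nonneg_right (by exact_mod_cast he) A.hw
    have h9 : 0 ≤ (e : ℝ) * A.w := mul_nonneg (Nat.cast_nonneg _) A.hw
    have h10 : 0 ≤ Real.sqrt (Real.log N) := Real.sqrt_nonneg _
    have h11 := mul_le_mul_of_nonneg_right h7 h10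
    obtain ⟨t1, t2⟩ := abs_le.1 hτ
    rw [abs_le]
    constructor <;> nlinarith) h hh0 hh1 hh hm hyp g hgT
  refine le_trans (le_of_eq ?_) key
  congr 1
  rw [mul_sum, ← sum_sub_distrib]
  apply sum_congr rfl
  intro n hn
  rw [mem_Icc] at hn
  have hn0 : (0 : ℤ) < n := by exact_mod_cast hn.1
  unfold bf
  simp only [Int.toNat_natCast, hn0, true_and]
  by_cases hE : A.E i τ n
  · rw [if_pos hE, if_pos hE]; push_cast; ring
  · rw [if_neg hE, if_neg hE]; push_cast; ring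

/-- THE RELATIVE LAW -/
theorem rel (d : ℕ) {s : ℤ} (hs : s = 1 ∨ s = -1) {R : ℕ} {ι : Type} (A : Fam s R ι) {c : ℝ} (hc : 0 < c)
    (x0 : ℕ) (i : ι) (x : ℝ) {ε : ℝ} (hε : 0 < ε) : ∃ N0 : ℕ, ∀ N : ℕ, N0 ≤ N →
    ∀ h : ℕ → ℝ, (∀ n, 0 ≤ h n) → (∀ n, h n ≤ 1) → h 1 = 1 →
    (∀ m n : ℕ, Nat.Coprime m n → h (m * n) = h m * h n) → HypD c x0 h →
    ∀ g : ℕ → ℂ, TT d h g →
    ‖∑ n ∈ Icc 1 N, (if A.E i (thr A.α A.σ x (Real.log n)) n then g n else 0) - A.F i x * ∑ n ∈ Icc 1 N, g n‖ ≤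
      ε * ∑ n ∈ Icc 1 N, h n := by
  obtain ⟨κ, hκ, N1, hfix⟩ := rel_fix d hs A hc x0 i x (show 0 < ε / 5 by positivity)
  obtain ⟨N2, hsm⟩ := small_n hc x0 (show 0 < ε / 5 by positivity)
  -- the thresholds vary little
  have tl : Tendsto (fun N : ℕ => Real.log N) atTop atTop :=
    Real.tendsto_log_atTop.comp tendsto_natCast_atTop_atTop
  have t2 : Tendsto (fun L : ℝ => Real.log L / L ^ (1 / 2 : ℝ)) atTop (𝓝 0) :=
    (isLittleO_log_rpow_atTop (by norm_num)).tendsto_div_nhds_zero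
  set C : ℝ := 2 * (|A.α| + |x| * A.σ) with hC
  have hC0 : 0 ≤ C := by have := A.hσ; positivity
  have t3 : ∀ᶠ N : ℕ in atTop, C * (Real.log (Real.log N) / (Real.log N) ^ (1 / 2 : ℝ)) < κ := by
    have := (t2.comp tl).const_mul C
    rw [mul_zero] at this
    exact this.eventually_lt_const hκ
  obtain ⟨N3, hN3⟩ := eventually_atTop.1 (t3.and (tl.eventually_ge_atTop 3))
  refine ⟨max (max N1 N2) (max N3 2), fun N hN h hh0 hh1 hh hm hyp g hgT => ?_⟩
  have hg := hgT.norm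
  have hNN1 : N1 ≤ N := ((le_max_left _ _).trans (le_max_left _ _)).trans hN
  have hNN2 : N2 ≤ N := ((le_max_right _ _).trans (le_max_left _ _)).trans hN
  have hNN3 : N3 ≤ N := ((le_max_left _ _).trans (le_max_right _ _)).trans hN
  have hN2 : 2 ≤ N := ((le_max_right _ _).trans (le_max_right _ _)).trans hN
  have hN0 : (0 : ℝ) < N := by exact_mod_cast (by omega : 0 < N)
  obtain ⟨g1, g2⟩ := hN3 N hNN3
  set L := Real.log N with hL
  have hL0 : 0 < L := by linarith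
  have hLL : 0 ≤ Real.log L := Real.log_nonneg (by linarith)
  set Λ := thr A.α A.σ x L with hΛ
  set B := κ * Real.sqrt L with hB
  have hs0 : 0 < Real.sqrt L := Real.sqrt_pos.2 hL0
  have hB0 : 0 < B := by positivity
  have hvar : ∀ n : ℕ, N / L ^ 2 < n → n ≤ N → |thr A.α A.σ x (Real.log n) - Λ| ≤ B := by
    intro n h1 h2
    have hn0 : (0 : ℝ) < n := lt_of_le_of_lt (by positivity) h1
    have b1 : L - 2 * Real.log L ≤ Real.log n := by
      have h3 : Real.log (N / L ^ 2) = L - 2 * Real.log L := by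
        rw [Real.log_div hN0.ne' (by positivity), Real.log_pow]
        push_cast; ring
      rw [← h3]
      exact Real.log_le_log (by positivity) h1.le
    have b2 : Real.log n ≤ L := Real.log_le_log hn0 (by exact_mod_cast h2)
    have b3 : 0 ≤ Real.log n := Real.log_natCast_nonneg n
    have b4 : |Real.log n - L| ≤ 2 * Real.log L := by rw [abs_le]; constructor <;> linarith
    have b5 : |Real.sqrt (Real.log n) - Real.sqrt L| ≤ 2 * Real.log L := by
      have h5 : (Real.sqrt (Real.log n) - Real.sqrt L) * (Real.sqrt (Real.log n) + Real.sqrt L) = Real.log n - L := by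
        have h6 := Real.sq_sqrt b3
        have h7 := Real.sq_sqrt hL0.le
        nlinarith
      have h8 : 1 ≤ Real.sqrt L := Real.one_le_sqrt.2 (by linarith)
      have h9 : 0 ≤ Real.sqrt (Real.log n) := Real.sqrt_nonneg _
      have h10 : |Real.sqrt (Real.log n) - Real.sqrt L| * (Real.sqrt (Real.log n) + Real.sqrt L) ≤ 2 * Real.log L := by
        rw [← abs_of_nonneg (by positivity : 0 ≤ Real.sqrt (Real.log n) + Real.sqrt L), ← abs_mul, h5]
        exact b4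
      have h11 := abs_nonneg (Real.sqrt (Real.log n) - Real.sqrt L)
      nlinarith
    have e : thr A.α A.σ x (Real.log n) - Λ = A.α * (Real.log n - L) + x * (A.σ * (Real.sqrt (Real.log n) - Real.sqrt L)) := by
      rw [hΛ]; unfold thr; ring
    rw [e]
    have a1 : |A.α * (Real.log n - L)| ≤ |A.α| * (2 * Real.log L) := by
      rw [abs_mul]; exact mul_le_mul_of_nonneg_left b4 (abs_nonneg _)
    have a2 : |x * (A.σ * (Real.sqrt (Real.log n) - Real.sqrt L))| ≤ |x| * A.σ * (2 * Real.log L) := by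
      rw [abs_mul, abs_mul, abs_of_pos A.hσ, mul_assoc]
      exact mul_le_mul_of_nonneg_left (mul_le_mul_of_nonneg_left b5 A.hσ.le) (abs_nonneg _)
    refine (abs_add_le _ _).trans ?_
    have a3 : C * Real.log L ≤ B := by
      have h12 : C * (Real.log L / L ^ (1 / 2 : ℝ)) * Real.sqrt L ≤ κ * Real.sqrt L :=
        mul_le_mul_of_nonneg_right g1.le hs0.le
      have h13 : C * (Real.log L / L ^ (1 / 2 : ℝ)) * Real.sqrt L = C * Real.log L := by
        rw [← Real.sqrt_eq_rpow]; field_simp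
      rw [h13] at h12
      exact h12
    have e2 : C * Real.log L = |A.α| * (2 * Real.log L) + |x| * A.σ * (2 * Real.log L) := by rw [hC]; ring
    linarith
  have f1 := hfix N hNN1 (Λ + B) (by rw [add_sub_cancel_left, abs_of_pos hB0]) h hh0 hh1 hh hm hyp
  have f2 := hfix N hNN1 (Λ - B) (by rw [sub_sub_cancel_left, abs_neg, abs_of_pos hB0]) h hh0 hh1 hh hm hyp
  have f3 := f1 g hgT
  have f4 := f1 (fun n => (h n : ℂ)) (re_T d hh0 hm)
  have f5 := f2 (fun n => (h n : ℂ)) (re_T d hh0 hm)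
  have hre : ∀ P : ℕ → Prop, ∀ a : ℝ, ‖∑ n ∈ Icc 1 N, (if P n then (h n : ℂ) else 0) - a * ∑ n ∈ Icc 1 N, (h n : ℂ)‖ =
      |∑ n ∈ Icc 1 N, (if P n then h n else 0) - a * ∑ n ∈ Icc 1 N, h n| := by
    intro P a
    rw [← Real.norm_eq_abs, ← Complex.norm_real]
    congr 1
    push_cast
    congr 1
    apply sum_congr rfl
    intro n _
    split_ifs <;> simp
  rw [hre] at f4 f5
  set H := ∑ n ∈ Icc 1 N, h n with hH
  have hH0 : 0 ≤ H := sum_nonneg fun n _ => hh0 n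
  set S1 := ∑ n ∈ Icc 1 N, (if A.E i (Λ + B) n then h n else 0) with hS1
  set S2 := ∑ n ∈ Icc 1 N, (if A.E i (Λ - B) n then h n else 0) with hS2
  have hS12 : S1 - S2 ≤ 2 * (ε / 5 * H) := by
    obtain ⟨u1, u2⟩ := abs_le.1 f4
    obtain ⟨u3, u4⟩ := abs_le.1 f5
    linarith
  -- the difference of the sums
  have hdiff : ‖∑ n ∈ Icc 1 N, (if A.E i (thr A.α A.σ x (Real.log n)) n then g n else 0) -
      ∑ n ∈ Icc 1 N, (if A.E i (Λ + B) n then g n else 0)‖ ≤ (S1 - S2) +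
      ∑ n ∈ (Icc 1 N).filter (fun n : ℕ => (n : ℝ) ≤ N / L ^ 2), h n := by
    rw [← sum_sub_distrib, hS1, hS2, ← sum_sub_distrib, sum_filter, ← sum_add_distrib]
    refine (norm_sum_le _ _).trans (sum_le_sum fun n hn => ?_)
    rw [mem_Icc] at hn
    have hmon : A.E i (Λ - B) n → A.E i (Λ + B) n := A.mono i _ _ n (by linarith)
    have hgn := hg n
    have hn0 := hh0 n
    have hE2 : 0 ≤ (if A.E i (Λ + B) n then h n else 0) - (if A.E i (Λ - B) n then h n else 0) := by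
      by_cases h2 : A.E i (Λ - B) n
      · rw [if_pos h2, if_pos (hmon h2)]; linarith
      · rw [if_neg h2]; split_ifs <;> linarith
    by_cases hsn : (n : ℝ) ≤ N / L ^ 2
    · rw [if_pos hsn]
      have : ‖(if A.E i (thr A.α A.σ x (Real.log n)) n then g n else 0) - (if A.E i (Λ + B) n then g n else 0)‖ ≤ h n := by
        split_ifs
        · rw [sub_self, norm_zero]; exact hn0
        · rw [sub_zero]; exact hgn
        · rw [zero_sub, norm_neg]; exact hgn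
        · rw [sub_self, norm_zero]; exact hn0
      linarith
    · rw [if_neg hsn, add_zero]
      push Not at hsn
      obtain ⟨v1, v2⟩ := abs_le.1 (hvar n hsn hn.2)
      have m1 : A.E i (thr A.α A.σ x (Real.log n)) n → A.E i (Λ + B) n := A.mono i _ _ n (by linarith)
      have m2 : A.E i (Λ - B) n → A.E i (thr A.α A.σ x (Real.log n)) n := A.mono i _ _ n (by linarith)
      by_cases h1 : A.E i (thr A.α A.σ x (Real.log n)) n
      · rw [if_pos h1, if_pos (m1 h1), sub_self, norm_zero]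
        exact hE2
      · have h2 : ¬ A.E i (Λ - B) n := fun h3 => h1 (m2 h3)
        rw [if_neg h1, if_neg h2]
        split_ifs
        · rw [zero_sub, norm_neg, sub_zero]; exact hgn
        · simp
  have hsm' := hsm N hNN2 h hh0 hh1 hyp
  have key := norm_add_le (∑ n ∈ Icc 1 N, (if A.E i (thr A.α A.σ x (Real.log n)) n then g n else 0) -
      ∑ n ∈ Icc 1 N, (if A.E i (Λ + B) n then g n else 0))
    (∑ n ∈ Icc 1 N, (if A.E i (Λ + B) n then g n else 0) - A.F i x * ∑ n ∈ Icc 1 N, g n)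
  rw [sub_add_sub_cancel] at key
  refine key.trans ?_
  have h15 : 0 ≤ ε / 5 * H := by positivity
  linarith

/-- the relative law of the property `P`, with multiplicative weights and conditions on additive functions -/
def RA (P : ℕ → Prop) (l : ℝ) : Prop := ∀ (d : ℕ) (c : ℝ), 0 < c → ∀ (x0 : ℕ) (ε : ℝ), 0 < ε → ∃ N0 : ℕ,
    ∀ N : ℕ, N0 ≤ N → ∀ h : ℕ → ℝ, (∀ n, 0 ≤ h n) → (∀ n, h n ≤ 1) → h 1 = 1 →
    (∀ m n : ℕ, Nat.Coprime m n → h (m * n) = h m * h n) → HypD c x0 h → ∀ g : ℕ → ℂ, TT d h g →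
    ‖∑ n ∈ Icc 1 N, (if P n then g n else 0) - l * ∑ n ∈ Icc 1 N, g n‖ ≤ ε * ∑ n ∈ Icc 1 N, h n

theorem _root_.Pool.Agent.Y964.LW.Fam.RA {s : ℤ} (hs : s = 1 ∨ s = -1) {R : ℕ} {ι : Type} (A : Fam s R ι)
    (i : ι) (x : ℝ) : RA (fun n => A.E i (thr A.α A.σ x (Real.log n)) n) (A.F i x) :=
  fun d _ hc x0 _ hε => rel d hs A hc x0 i x hε

theorem RA_squeeze {Q : ℕ → Prop} {l : ℝ} (H : ∀ η : ℝ, 0 < η → ∃ (P R : ℕ → Prop) (l1 l2 : ℝ) (n0 : ℕ),
    (∀ n, n0 ≤ n → P n → Q n) ∧ (∀ n, n0 ≤ n → Q n → R n) ∧ RA P l1 ∧ RA R l2 ∧ l1 ≤ l ∧ l ≤ l2 ∧ l2 - l1 ≤ η) :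
    RA Q l := by
  intro d c hc x0 ε hε
  obtain ⟨P, R, l1, l2, n0, h1, h2, h3, h4, h5, h6, h7⟩ := H (ε / 8) (by positivity)
  obtain ⟨N1, k1⟩ := h3 d c hc x0 (ε / 8) (by positivity)
  obtain ⟨N2, k2⟩ := h4 d c hc x0 (ε / 8) (by positivity)
  obtain ⟨N3, k3⟩ := sum_large hc x0 (4 * (n0 + 1) * (1 / (ε / 8)))
  refine ⟨max N1 (max N2 N3), fun N hN h hh0 hh1 hh hm hyp g hgT => ?_⟩
  have hg := hgT.norm
  have hN1 : N1 ≤ N := (le_max_left _ _).trans hN
  have hN2 : N2 ≤ N := ((le_max_left _ _).trans (le_max_right _ _)).trans hN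
  have hN3 : N3 ≤ N := ((le_max_right _ _).trans (le_max_right _ _)).trans hN
  have f1 := k1 N hN1 h hh0 hh1 hh hm hyp g hgT
  have f2 := k1 N hN1 h hh0 hh1 hh hm hyp (fun n => (h n : ℂ)) (re_T d hh0 hm)
  have f3 := k2 N hN2 h hh0 hh1 hh hm hyp (fun n => (h n : ℂ)) (re_T d hh0 hm)
  rw [re_norm] at f2 f3
  have f4 := k3 N hN3 h hh0 hyp
  set H := ∑ n ∈ Icc 1 N, h n with hH
  have hH0 : 0 ≤ H := sum_nonneg fun n _ => hh0 n
  have hsmall : (4 : ℝ) * (n0 + 1) ≤ ε / 8 * H := by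
    have : 4 * ((n0 : ℝ) + 1) * (1 / (ε / 8)) * (ε / 8) ≤ H * (ε / 8) := mul_le_mul_of_nonneg_right f4 (by positivity)
    have e : 4 * ((n0 : ℝ) + 1) * (1 / (ε / 8)) * (ε / 8) = 4 * (n0 + 1) := by field_simp
    linarith
  -- the pointwise bound
  have key : ‖∑ n ∈ Icc 1 N, (if Q n then g n else 0) - ∑ n ∈ Icc 1 N, (if P n then g n else 0)‖ ≤
      (∑ n ∈ Icc 1 N, (if R n then h n else 0) - ∑ n ∈ Icc 1 N, (if P n then h n else 0)) +
      ∑ n ∈ Icc 1 N, (if n < n0 then (4 : ℝ) else 0) := by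
    rw [← sum_sub_distrib, ← sum_sub_distrib, ← sum_add_distrib]
    refine (norm_sum_le _ _).trans (sum_le_sum fun n hn => ?_)
    have hgn := hg n
    have a0 := hh0 n
    have a1 := hh1 n
    by_cases hs : n < n0
    · rw [if_pos hs]
      have b1 : ‖(if Q n then g n else 0) - (if P n then g n else 0)‖ ≤ 2 := by
        refine (norm_sub_le _ _).trans ?_
        have : ‖(if Q n then g n else 0)‖ ≤ 1 := by
          split_ifs
          · linarith
          · simp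
        have : ‖(if P n then g n else 0)‖ ≤ 1 := by
          split_ifs
          · linarith
          · simp
        linarith
      have b2 : -1 ≤ (if R n then h n else 0) - (if P n then h n else 0) := by
        split_ifs <;> linarith
      linarith
    · rw [if_neg hs, add_zero]
      push Not at hs
      have c1 := h1 n hs
      have c2 := h2 n hs
      by_cases hP : P n
      · rw [if_pos hP, if_pos hP, if_pos (c1 hP), if_pos (c2 (c1 hP)), sub_self, norm_zero, sub_self]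
      · rw [if_neg hP, if_neg hP, sub_zero, sub_zero]
        by_cases hQ : Q n
        · rw [if_pos hQ, if_pos (c2 hQ)]; exact hgn
        · rw [if_neg hQ, norm_zero]
          split_ifs
          · exact a0
          · exact le_rfl
  have hlow : ∑ n ∈ Icc 1 N, (if n < n0 then (4 : ℝ) else 0) ≤ 4 * (n0 + 1) := by
    rw [← sum_filter, sum_const, nsmul_eq_mul, mul_comm]
    have hc : (((Icc 1 N).filter (fun n => n < n0)).card : ℝ) ≤ n0 := by
      have : ((Icc 1 N).filter (fun n => n < n0)).card ≤ (range n0).card := by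
        apply card_le_card
        intro n hn
        rw [mem_filter] at hn
        exact mem_range.2 hn.2
      rw [card_range] at this
      exact_mod_cast this
    linarith
  obtain ⟨u1, u2⟩ := abs_le.1 f2
  obtain ⟨u3, u4⟩ := abs_le.1 f3
  have g1 : ‖((l1 - l : ℝ) : ℂ) * ∑ n ∈ Icc 1 N, g n‖ ≤ ε / 8 * H := by
    rw [norm_mul, Complex.norm_real, Real.norm_eq_abs]
    have g2 : ‖∑ n ∈ Icc 1 N, g n‖ ≤ H := (norm_sum_le _ _).trans (sum_le_sum fun n _ => hg n)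
    have g3 : |l1 - l| ≤ ε / 8 := by rw [abs_le]; constructor <;> linarith
    exact mul_le_mul g3 g2 (norm_nonneg _) (by positivity)
  have e : ∑ n ∈ Icc 1 N, (if Q n then g n else 0) - l * ∑ n ∈ Icc 1 N, g n =
      (∑ n ∈ Icc 1 N, (if Q n then g n else 0) - ∑ n ∈ Icc 1 N, (if P n then g n else 0)) +
      (∑ n ∈ Icc 1 N, (if P n then g n else 0) - l1 * ∑ n ∈ Icc 1 N, g n) +
      ((l1 - l : ℝ) : ℂ) * ∑ n ∈ Icc 1 N, g n := by push_cast; ring
  rw [e]
  refine (norm_add₃_le).trans ?_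
  have h9 : (l2 - l1) * H ≤ ε / 8 * H := mul_le_mul_of_nonneg_right h7 hH0
  have h10 : 0 ≤ ε / 8 * H := by positivity
  linarith

theorem RA_congr {P Q : ℕ → Prop} {l : ℝ} (n0 : ℕ) (h : ∀ n, n0 ≤ n → (P n ↔ Q n)) (H : RA P l) : RA Q l :=
  RA_squeeze fun η hη => ⟨P, P, l, l, n0, fun n hn => (h n hn).1, fun n hn => (h n hn).2, H, H, le_rfl, le_rfl, by
    linarith⟩

theorem RA_or {P Q R : ℕ → Prop} {l l' : ℝ} (hP : RA P l) (hQ : RA Q l') (hd : ∀ n, P n → ¬ Q n)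
    (hR : ∀ n, R n ↔ P n ∨ Q n) : RA R (l + l') := by
  intro d c hc x0 ε hε
  obtain ⟨N1, k1⟩ := hP d c hc x0 (ε / 2) (by positivity)
  obtain ⟨N2, k2⟩ := hQ d c hc x0 (ε / 2) (by positivity)
  refine ⟨max N1 N2, fun N hN h hh0 hh1 hh hm hyp g hgT => ?_⟩
  have f1 := k1 N ((le_max_left _ _).trans hN) h hh0 hh1 hh hm hyp g hgT
  have f2 := k2 N ((le_max_right _ _).trans hN) h hh0 hh1 hh hm hyp g hgT
  have e : ∑ n ∈ Icc 1 N, (if R n then g n else 0) =
      ∑ n ∈ Icc 1 N, (if P n then g n else 0) + ∑ n ∈ Icc 1 N, (if Q n then g n else 0) := by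
    rw [← sum_add_distrib]
    apply sum_congr rfl
    intro n _
    by_cases h1 : P n
    · rw [if_pos ((hR n).2 (Or.inl h1)), if_pos h1, if_neg (hd n h1), add_zero]
    · by_cases h2 : Q n
      · rw [if_pos ((hR n).2 (Or.inr h2)), if_neg h1, if_pos h2, zero_add]
      · rw [if_neg (fun h3 => by have := (hR n).1 h3; tauto), if_neg h1, if_neg h2, add_zero]
  rw [e]
  have e2 : ∑ n ∈ Icc 1 N, (if P n then g n else 0) + ∑ n ∈ Icc 1 N, (if Q n then g n else 0) -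
      ((l + l' : ℝ) : ℂ) * ∑ n ∈ Icc 1 N, g n =
      (∑ n ∈ Icc 1 N, (if P n then g n else 0) - l * ∑ n ∈ Icc 1 N, g n) +
      (∑ n ∈ Icc 1 N, (if Q n then g n else 0) - l' * ∑ n ∈ Icc 1 N, g n) := by push_cast; ring
  rw [e2]
  refine (norm_add_le _ _).trans ?_
  have : ε * ∑ n ∈ Icc 1 N, h n = ε / 2 * ∑ n ∈ Icc 1 N, h n + ε / 2 * ∑ n ∈ Icc 1 N, h n := by ring
  linarith

theorem RA_diff {P Q R : ℕ → Prop} {l l' : ℝ} (hP : RA P l) (hQ : RA Q l') (hd : ∀ n, P n → Q n)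
    (hR : ∀ n, R n ↔ Q n ∧ ¬ P n) : RA R (l' - l) := by
  intro d c hc x0 ε hε
  obtain ⟨N1, k1⟩ := hP d c hc x0 (ε / 2) (by positivity)
  obtain ⟨N2, k2⟩ := hQ d c hc x0 (ε / 2) (by positivity)
  refine ⟨max N1 N2, fun N hN h hh0 hh1 hh hm hyp g hgT => ?_⟩
  have f1 := k1 N ((le_max_left _ _).trans hN) h hh0 hh1 hh hm hyp g hgT
  have f2 := k2 N ((le_max_right _ _).trans hN) h hh0 hh1 hh hm hyp g hgT
  have e : ∑ n ∈ Icc 1 N, (if R n then g n else 0) =
      ∑ n ∈ Icc 1 N, (if Q n then g n else 0) - ∑ n ∈ Icc 1 N, (if P n then g n else 0) := by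
    rw [← sum_sub_distrib]
    apply sum_congr rfl
    intro n _
    by_cases h1 : P n
    · rw [if_neg (fun h3 => ((hR n).1 h3).2 h1), if_pos (hd n h1), if_pos h1, sub_self]
    · by_cases h2 : Q n
      · rw [if_pos ((hR n).2 ⟨h2, h1⟩), if_pos h2, if_neg h1, sub_zero]
      · rw [if_neg (fun h3 => h2 ((hR n).1 h3).1), if_neg h2, if_neg h1, sub_zero]
  rw [e]
  have e2 : ∑ n ∈ Icc 1 N, (if Q n then g n else 0) - ∑ n ∈ Icc 1 N, (if P n then g n else 0) -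
      ((l' - l : ℝ) : ℂ) * ∑ n ∈ Icc 1 N, g n =
      (∑ n ∈ Icc 1 N, (if Q n then g n else 0) - l' * ∑ n ∈ Icc 1 N, g n) -
      (∑ n ∈ Icc 1 N, (if P n then g n else 0) - l * ∑ n ∈ Icc 1 N, g n) := by push_cast; ring
  rw [e2]
  refine (norm_sub_le _ _).trans ?_
  have : ε * ∑ n ∈ Icc 1 N, h n = ε / 2 * ∑ n ∈ Icc 1 N, h n + ε / 2 * ∑ n ∈ Icc 1 N, h n := by ring
  linarith

theorem RA_true {R : ℕ → Prop} (hR : ∀ n, R n) : RA R 1 := by
  intro d c hc x0 ε hε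
  refine ⟨0, fun N hN h hh0 hh1 hh hm hyp g hgT => ?_⟩
  simp only [hR, if_true]
  rw [Complex.ofReal_one, one_mul, sub_self, norm_zero]
  exact mul_nonneg hε.le (sum_nonneg fun n _ => hh0 n)

theorem RA_not {P R : ℕ → Prop} {l : ℝ} (hP : RA P l) (hR : ∀ n, R n ↔ ¬ P n) : RA R (1 - l) :=
  RA_diff hP (RA_true (R := fun _ => True) (fun _ => trivial)) (fun _ _ => trivial) (fun n => by
    rw [hR n, true_and])

end Pool.Agent.X62.AD
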